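import Pool.Agent.U160.WP.Stm3

/-! Project WP (helper160), package NS (helper467): `k` terms do not suffice. -/

set_option autoImplicit false

namespace Pool.Agent.U160.WP

open Finset

/-- the tuples in `[1, Y]` -/
def nsP (s Y : ℕ) : Finset (Fin s → ℕ) := Fintype.piFinset fun _ => Icc 1 Y

theorem nsP_card (s Y : ℕ) : (nsP s Y).card = Y ^ s := by
  unfold nsP
  rw [Fintype.card_piFinset]
  simp

theorem ns_mem {s k Y N : ℕ} (hk : 0 < k) {a : ℕ → ℕ} (ha : ∀ n, 1 ≤ n → n ^ k ≤ a n)
    {n : Fin s → ℕ} (h1 : ∀ i, 1 ≤ n i) (h2 : ∑ i, a (n i) = N) (h3 : N ≤ Y ^ k) :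
    n ∈ nsP s Y := by
  unfold nsP
  rw [Fintype.mem_piFinset]
  intro i
  rw [mem_Icc]
  refine ⟨h1 i, ?_⟩
  have h4 : a (n i) ≤ ∑ i, a (n i) :=
    single_le_sum (f := fun i => a (n i)) (fun _ _ => Nat.zero_le _) (mem_univ i)
  have h5 : n i ^ k ≤ Y ^ k := (ha _ (h1 i)).trans (h4.trans (h2.le.trans h3))
  exact (Nat.pow_le_pow_iff_left hk.ne').1 h5

theorem t_NS : S_NS := by
  intro k s hk hs a ha N₀
  by_contra hcon
  push Not at hcon
  have hex : ∀ N, N₀ ≤ N → ∃ n : Fin s → ℕ, (∀ i, 1 ≤ n i) ∧ ∑ i, a (n i) = N := by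
    intro N hN
    by_contra h
    push Not at h
    obtain ⟨n, h1, h2⟩ := hcon N hN
    exact h n h1 h2
  choose! f hf using hex
  have hmem : ∀ Y N, N₀ ≤ N → N ≤ Y ^ k → f N ∈ nsP s Y := fun Y N h1 h2 =>
    ns_mem (by omega) ha (hf N h1).1 (hf N h1).2 h2
  have hinj : ∀ N N', N₀ ≤ N → N₀ ≤ N' → f N = f N' → N = N' := by
    intro N N' h1 h2 h
    rw [← (hf N h1).2, ← (hf N' h2).2, h]
  rcases Nat.lt_or_ge s k with hlt | hge
  · -- fewer than `k` terms
    set Y := N₀ + 2 with hY
    have h1 : (Icc N₀ (Y ^ k)).card ≤ (nsP s Y).card := by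
      refine card_le_card_of_injOn f (fun N hN => ?_) (fun N hN N' hN' h => ?_)
      · rw [mem_coe, mem_Icc] at hN
        exact mem_coe.2 (hmem Y N hN.1 hN.2)
      · rw [mem_coe, mem_Icc] at hN hN'
        exact hinj N N' hN.1 hN'.1 h
    rw [Nat.card_Icc, nsP_card] at h1
    have h2 : Y ^ s ≤ Y ^ (k - 1) := Nat.pow_le_pow_right (by omega) (by omega)
    have h3 : Y ^ k = Y * Y ^ (k - 1) := by
      rw [← Nat.pow_succ']
      congr 1
      omega
    have h4 : 1 ≤ Y ^ (k - 1) := Nat.one_le_pow _ _ (by omega)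
    rw [h3] at h1
    have h5 : Y * Y ^ (k - 1) = Y ^ (k - 1) + (N₀ + 1) * Y ^ (k - 1) := by
      rw [hY]; ring
    have h6 : N₀ + 1 ≤ (N₀ + 1) * Y ^ (k - 1) := Nat.le_mul_of_pos_right _ (by omega)
    omega
  · -- exactly `k` terms
    have hsk : s = k := le_antisymm hs hge
    subst hsk
    obtain ⟨m, rfl⟩ : ∃ m, s = m + 2 := ⟨s - 2, by omega⟩
    set Y := 2 * N₀ + 3 with hY
    set T := Icc N₀ (Y ^ (m + 2)) with hT
    set T1 := T.filter fun N => f N 0 = f N 1 with hT1
    set T2 := T.filter fun N => ¬ f N 0 = f N 1 with hT2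
    have hTT : ∀ N ∈ T, N₀ ≤ N ∧ N ≤ Y ^ (m + 2) := fun N hN => mem_Icc.1 hN
    have c1 : T1.card + T2.card = T.card := card_filter_add_card_filter_not _
    have c2 : T1.card ≤ Y ^ (m + 1) := by
      rw [← nsP_card (m + 1) Y]
      refine card_le_card_of_injOn (fun N => Fin.tail (f N)) (fun N hN => ?_)
        (fun N hN N' hN' h => ?_)
      · have h1 := hTT N (mem_filter.1 (mem_coe.1 hN)).1
        have h2 := hmem Y N h1.1 h1.2
        unfold nsP at h2
        rw [Fintype.mem_piFinset] at h2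
        refine mem_coe.2 ?_
        unfold nsP
        rw [Fintype.mem_piFinset]
        intro i
        exact h2 i.succ
      · have h1 := mem_filter.1 (mem_coe.1 hN)
        have h2 := mem_filter.1 (mem_coe.1 hN')
        have h3 : ∀ i : Fin (m + 1), f N i.succ = f N' i.succ := fun i => congrFun h i
        refine hinj N N' (hTT N h1.1).1 (hTT N' h2.1).1 ?_
        funext i
        refine Fin.cases ?_ (fun i => h3 i) i
        rw [h1.2, h2.2]
        exact h3 0
    have c3 : 2 * T2.card ≤ Y ^ (m + 2) := by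
      let σ : Equiv.Perm (Fin (m + 2)) := Equiv.swap 0 1
      let g : ℕ → Fin (m + 2) → ℕ := fun N i => f N (σ i)
      have hgs : ∀ N, N₀ ≤ N → ∑ i, a (g N i) = N := by
        intro N h1
        exact (Equiv.sum_comp σ (fun i => a (f N i))).trans (hf N h1).2
      have i1 : (T2.image f).card = T2.card := by
        apply card_image_of_injOn
        intro N hN N' hN' h
        exact hinj N N' (hTT N (mem_filter.1 (mem_coe.1 hN)).1).1
          (hTT N' (mem_filter.1 (mem_coe.1 hN')).1).1 h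
      have i2 : (T2.image g).card = T2.card := by
        apply card_image_of_injOn
        intro N hN N' hN' h
        have h1 := (hTT N (mem_filter.1 (mem_coe.1 hN)).1).1
        have h2 := (hTT N' (mem_filter.1 (mem_coe.1 hN')).1).1
        rw [← hgs N h1, ← hgs N' h2]
        have h' : g N = g N' := h
        rw [h']
      have hd : Disjoint (T2.image f) (T2.image g) := by
        rw [disjoint_left]
        intro t ht ht'
        obtain ⟨N, hN, rfl⟩ := mem_image.1 ht
        obtain ⟨N', hN', h⟩ := mem_image.1 ht'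
        have h1 := hTT N (mem_filter.1 hN).1
        have h2 := hTT N' (mem_filter.1 hN').1
        have h3 : N' = N := by
          rw [← hgs N' h2.1, ← (hf N h1.1).2, h]
        subst h3
        have h4 : f N' (σ 0) = f N' 0 := congrFun h 0
        have h5 : σ 0 = 1 := Equiv.swap_apply_left 0 1
        rw [h5] at h4
        exact (mem_filter.1 hN).2 h4.symm
      have hsub : T2.image f ∪ T2.image g ⊆ nsP (m + 2) Y := by
        intro t ht
        rcases mem_union.1 ht with h | h
        · obtain ⟨N, hN, rfl⟩ := mem_image.1 h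
          have h1 := hTT N (mem_filter.1 hN).1
          exact hmem Y N h1.1 h1.2
        · obtain ⟨N, hN, rfl⟩ := mem_image.1 h
          have h1 := hTT N (mem_filter.1 hN).1
          have h2 := hmem Y N h1.1 h1.2
          unfold nsP at h2 ⊢
          rw [Fintype.mem_piFinset] at h2 ⊢
          intro i
          exact h2 (σ i)
      have h := card_le_card hsub
      rw [card_union_of_disjoint hd, i1, i2, nsP_card] at h
      omega
    have c4 : T.card = Y ^ (m + 2) + 1 - N₀ := by
      rw [hT, Nat.card_Icc]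
    have h4 : 1 ≤ Y ^ (m + 1) := Nat.one_le_pow _ _ (by omega)
    have h5 : Y ^ (m + 2) = 2 * Y ^ (m + 1) + (2 * N₀ + 1) * Y ^ (m + 1) := by
      rw [Nat.pow_succ Y (m + 1), hY]; ring
    have h6 : 2 * N₀ + 1 ≤ (2 * N₀ + 1) * Y ^ (m + 1) := Nat.le_mul_of_pos_right _ (by omega)
    omega

end Pool.Agent.U160.WP
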