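import Pool.Agent.U160.WP.Stm

set_option autoImplicit false

namespace Pool.Agent.U160.WP

open MeasureTheory ProbabilityTheory Finset Filter Topology

/-- the solutions -/
def solSet (θ : ℕ → ℝ) (k d : ℕ) (lam η : ℝ) : Set (Fin d → ℕ) :=
  {n | (∀ i, 1 ≤ n i) ∧ |∑ i, ((n i : ℝ) + θ (n i)) ^ k - lam| ≤ η}

/-- the number of the solutions -/
noncomputable def cnt (θ : ℕ → ℝ) (k d : ℕ) (lam η : ℝ) : ℝ := ((solSet θ k d lam η).ncard : ℝ)

theorem solSet_le {θ : ℕ → ℝ} (hθ : ∀ n, 1 ≤ n → 0 ≤ θ n) {k d M : ℕ} (hk : 1 ≤ k) {lam η : ℝ}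
    (hM : lam + η < ((M : ℝ) + 1) ^ k) {n : Fin d → ℕ} (hn : n ∈ solSet θ k d lam η) (i : Fin d) : n i ≤ M := by
  obtain ⟨h1, h2⟩ := hn
  have h3 : ((n i : ℝ)) ^ k ≤ ∑ i, ((n i : ℝ) + θ (n i)) ^ k := by
    calc ((n i : ℝ)) ^ k ≤ ((n i : ℝ) + θ (n i)) ^ k :=
          pow_le_pow_left₀ (by positivity) (by linarith [hθ (n i) (h1 i)]) k
      _ ≤ _ := single_le_sum (f := fun i => ((n i : ℝ) + θ (n i)) ^ k)
          (fun j _ => pow_nonneg (by have := hθ (n j) (h1 j); positivity) k) (mem_univ i)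
  have h4 := (abs_le.1 h2).2
  have h5 : ((n i : ℝ)) ^ k < ((M : ℝ) + 1) ^ k := by linarith
  have h6 : (n i : ℝ) < (M : ℝ) + 1 := lt_of_pow_lt_pow_left₀ k (by positivity) h5
  have h7 : n i < M + 1 := by exact_mod_cast h6
  omega

open scoped Classical in
theorem solSet_eq {θ : ℕ → ℝ} (hθ : ∀ n, 1 ≤ n → 0 ≤ θ n) {k d M : ℕ} (hk : 1 ≤ k) {lam η : ℝ}
    (hM : lam + η < ((M : ℝ) + 1) ^ k) :
    solSet θ k d lam η = ((tup d M).filter (fun n => θ ∈ EvW k lam η n) : Finset (Fin d → ℕ)) := by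
  ext n
  simp only [coe_filter, Set.mem_ofPred_eq, tup, Fintype.mem_piFinset, mem_Icc]
  constructor
  · intro hn
    exact ⟨fun i => ⟨hn.1 i, solSet_le hθ hk hM hn i⟩, hn.2⟩
  · intro hn
    exact ⟨fun i => (hn.1 i).1, hn.2⟩

theorem cnt_eq {θ : ℕ → ℝ} (hθ : ∀ n, 1 ≤ n → 0 ≤ θ n) {k d M : ℕ} (hk : 1 ≤ k) {lam η : ℝ}
    (hM : lam + η < ((M : ℝ) + 1) ^ k) : cnt θ k d lam η = Nev (tup d M) (EvW k lam η) θ := by
  classical
  unfold cnt Nev
  rw [solSet_eq hθ hk hM, Set.ncard_coe_finset, card_filter]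
  push_cast
  refine sum_congr rfl fun n _ => ?_
  by_cases h : θ ∈ EvW k lam η n
  · rw [if_pos h, Set.indicator_of_mem h]
  · rw [if_neg h, Set.indicator_of_notMem h]

theorem solSet_finite {θ : ℕ → ℝ} (hθ : ∀ n, 1 ≤ n → 0 ≤ θ n) {k : ℕ} (d : ℕ) (hk : 1 ≤ k) (lam η : ℝ) :
    (solSet θ k d lam η).Finite := by
  classical
  obtain ⟨M, hM⟩ := exists_nat_gt (max (lam + η) 1)
  have h1 : lam + η < ((M : ℝ) + 1) ^ k := by
    have h2 : (1 : ℝ) ≤ (M : ℝ) + 1 := by linarith [Nat.cast_nonneg (α := ℝ) M]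
    have h3 : (M : ℝ) + 1 ≤ ((M : ℝ) + 1) ^ k := by
      calc (M : ℝ) + 1 = ((M : ℝ) + 1) ^ 1 := (pow_one _).symm
        _ ≤ ((M : ℝ) + 1) ^ k := pow_le_pow_right₀ h2 hk
    have h4 := (le_max_left (lam + η) 1).trans_lt hM
    linarith
  rw [solSet_eq hθ hk h1]
  exact Finset.finite_toSet _

theorem cnt_mono {θ : ℕ → ℝ} (hθ : ∀ n, 1 ≤ n → 0 ≤ θ n) {k d : ℕ} (hk : 1 ≤ k) {lam lam' η η' : ℝ}
    (h : |lam - lam'| + η ≤ η') : cnt θ k d lam η ≤ cnt θ k d lam' η' := by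
  unfold cnt
  have : solSet θ k d lam η ⊆ solSet θ k d lam' η' := by
    intro n hn
    refine ⟨hn.1, ?_⟩
    calc |∑ i, ((n i : ℝ) + θ (n i)) ^ k - lam'| = |(∑ i, ((n i : ℝ) + θ (n i)) ^ k - lam) + (lam - lam')| := by
          congr 1; ring
      _ ≤ |∑ i, ((n i : ℝ) + θ (n i)) ^ k - lam| + |lam - lam'| := abs_add_le _ _
      _ ≤ η + |lam - lam'| := by linarith [hn.2]
      _ ≤ η' := by linarith
  exact_mod_cast Set.ncard_le_ncard this (solSet_finite hθ d hk lam' η')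

/-- from a grid to all reals -/
theorem sandwich {θ : ℕ → ℝ} (hθ : ∀ n, 1 ≤ n → 0 ≤ θ n) {k d : ℕ} (hk : 1 ≤ k) {a G : ℝ} (ha : 0 < a) (hG : 0 < G)
    (h : ∀ η' ε δ : ℚ, 0 < η' → 0 < ε → 0 < δ → ∀ᶠ j : ℕ in atTop,
      |cnt θ k d ((j : ℝ) * δ) η' - 2 * η' * G * ((j : ℝ) * δ) ^ a| ≤ ε * ((j : ℝ) * δ) ^ a)
    (η : ℝ) (hη : 0 < η) : Tendsto (fun lam : ℝ => cnt θ k d lam η / lam ^ a) atTop (𝓝 (2 * η * G)) := by
  rw [Metric.tendsto_atTop']
  intro e he
  -- choose the parameters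
  obtain ⟨τ, hτ0, hτ1⟩ : ∃ τ : ℝ, 0 < τ ∧ τ < η ∧ 2 * τ * G < e / 4 := by
    refine ⟨min (η / 2) (e / (16 * G)), by positivity, lt_of_le_of_lt (min_le_left _ _) (by linarith), ?_⟩
    calc 2 * min (η / 2) (e / (16 * G)) * G ≤ 2 * (e / (16 * G)) * G := by
          gcongr; exact min_le_right _ _
      _ = e / 8 := by field_simp; norm_num
      _ < e / 4 := by linarith
  obtain ⟨hτη, hτG⟩ := hτ1
  obtain ⟨δ, hδ0, hδ1⟩ := exists_rat_btwn (show (0 : ℝ) < τ / 2 by linarith)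
  obtain ⟨η1, h11, h12⟩ := exists_rat_btwn (show η + τ / 2 < η + τ by linarith)
  obtain ⟨η2, h21, h22⟩ := exists_rat_btwn (show η - τ < η - τ / 2 by linarith)
  obtain ⟨ε, hε0, hε1⟩ := exists_rat_btwn (show (0 : ℝ) < e / 4 by linarith)
  have hη1 : (0 : ℝ) < η1 := by linarith
  have hη2 : (0 : ℝ) < η2 := by linarith
  have g1 := h η1 ε δ (by exact_mod_cast hη1) (by exact_mod_cast hε0) (by exact_mod_cast hδ0)
  have g2 := h η2 ε δ (by exact_mod_cast hη2) (by exact_mod_cast hε0) (by exact_mod_cast hδ0)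
  -- the ratio of `t^a` and `lam^a`
  have hfl : Tendsto (fun lam : ℝ => ⌊lam / δ⌋₊) atTop atTop :=
    tendsto_nat_floor_atTop.comp (tendsto_id.atTop_div_const hδ0)
  have hratio : Tendsto (fun lam : ℝ => ((⌊lam / δ⌋₊ : ℝ) * δ / lam) ^ a) atTop (𝓝 1) := by
    have h1 : Tendsto (fun lam : ℝ => (⌊lam / δ⌋₊ : ℝ) * δ / lam) atTop (𝓝 1) := by
      have h2 : Tendsto (fun lam : ℝ => (⌊lam / δ⌋₊ : ℝ) / (lam / δ)) atTop (𝓝 1) :=
        (tendsto_nat_floor_div_atTop (R := ℝ)).comp (tendsto_id.atTop_div_const hδ0)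
      refine h2.congr fun lam => ?_
      field_simp
    have h3 := h1.rpow_const (p := a) (Or.inl one_ne_zero)
    rwa [Real.one_rpow] at h3
  -- a small number for the lower bound
  have hB : 0 < 2 * η * G + 1 := by positivity
  have hr2 : ∀ᶠ lam : ℝ in atTop, 1 - e / (4 * (2 * η * G + 1)) < ((⌊lam / δ⌋₊ : ℝ) * δ / lam) ^ a :=
    hratio.eventually (lt_mem_nhds (by have : 0 < e / (4 * (2 * η * G + 1)) := by positivity
                                       linarith))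
  have key : ∀ᶠ lam : ℝ in atTop, dist (cnt θ k d lam η / lam ^ a) (2 * η * G) < e := by
    filter_upwards [hfl.eventually g1, hfl.eventually g2, hr2, eventually_gt_atTop (0 : ℝ)] with lam k1 k2 k3 hlam
    set t : ℝ := (⌊lam / δ⌋₊ : ℝ) * δ with ht
    have ht0 : 0 ≤ t := by positivity
    have ht1 : t ≤ lam := by
      rw [ht]
      calc (⌊lam / δ⌋₊ : ℝ) * δ ≤ lam / δ * δ := by
            gcongr; exact Nat.floor_le (by positivity)
        _ = lam := by field_simp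
    have ht2 : lam < t + δ := by
      have h1 := Nat.lt_floor_add_one (lam / δ)
      have h2 : lam / δ * δ < ((⌊lam / δ⌋₊ : ℝ) + 1) * δ := by gcongr
      have h3 : lam / δ * δ = lam := by field_simp
      rw [h3] at h2
      rw [ht]; linarith
    have hla : 0 < lam ^ a := Real.rpow_pos_of_pos hlam a
    have hta : t ^ a ≤ lam ^ a := Real.rpow_le_rpow ht0 ht1 ha.le
    have hta0 : 0 ≤ t ^ a := Real.rpow_nonneg ht0 a
    have hdiv : (t / lam) ^ a = t ^ a / lam ^ a := Real.div_rpow ht0 hlam.le a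
    have habs : |lam - t| ≤ δ := by rw [abs_of_nonneg (by linarith)]; linarith
    have habs' : |t - lam| ≤ δ := by rw [abs_sub_comm]; exact habs
    have u1 : cnt θ k d lam η ≤ cnt θ k d t η1 := cnt_mono hθ hk (by linarith)
    have u2 : cnt θ k d t η2 ≤ cnt θ k d lam η := cnt_mono hθ hk (by linarith)
    have v1 := (abs_le.1 k1).2
    have v2 := (abs_le.1 k2).1
    -- upper bound
    have w1 : cnt θ k d lam η ≤ (2 * η1 * G + ε) * lam ^ a := by
      calc cnt θ k d lam η ≤ cnt θ k d t η1 := u1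
        _ ≤ (2 * η1 * G + ε) * t ^ a := by linarith
        _ ≤ _ := by gcongr
    have w1' : cnt θ k d lam η / lam ^ a ≤ 2 * η1 * G + ε := by
      rw [div_le_iff₀ hla]; exact w1
    have w2 : (2 * η2 * G - ε) * t ^ a ≤ cnt θ k d lam η := by
      calc _ ≤ cnt θ k d t η2 := by linarith
        _ ≤ _ := u2
    have w2' : (2 * η2 * G - ε) * (t ^ a / lam ^ a) ≤ cnt θ k d lam η / lam ^ a := by
      rw [← mul_div_assoc, div_le_div_iff_of_pos_right hla]; exact w2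
    rw [hdiv] at k3
    have hq1 : t ^ a / lam ^ a ≤ 1 := by rw [div_le_one hla]; exact hta
    have hq0 : 0 ≤ t ^ a / lam ^ a := by positivity
    set q := t ^ a / lam ^ a with hq
    rw [Real.dist_eq, abs_lt]
    have e1 : 2 * (η1 : ℝ) * G ≤ 2 * η * G + e / 4 := by nlinarith
    have e2 : 2 * η * G - e / 4 ≤ 2 * (η2 : ℝ) * G := by nlinarith
    constructor
    · -- lower bound
      have e3 : 2 * (η2 : ℝ) * G * q ≥ 2 * (η2 : ℝ) * G - e / 4 := by
        have e4 : 2 * (η2 : ℝ) * G ≤ 2 * η * G + 1 := by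
          have : 2 * (η2 : ℝ) * G ≤ 2 * η * G := by
            have : (η2 : ℝ) ≤ η := by linarith
            gcongr
          linarith
        have e5 : 1 - q ≤ e / (4 * (2 * η * G + 1)) := by linarith
        have e6 : 2 * (η2 : ℝ) * G * (1 - q) ≤ (2 * η * G + 1) * (e / (4 * (2 * η * G + 1))) := by
          apply mul_le_mul e4 e5 (by linarith) hB.le
        have e7 : (2 * η * G + 1) * (e / (4 * (2 * η * G + 1))) = e / 4 := by field_simp
        rw [e7] at e6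
        linarith
      have e8 : (ε : ℝ) * q ≤ ε := mul_le_of_le_one_right hε0.le hq1
      nlinarith
    · linarith
  obtain ⟨A, hA⟩ := eventually_atTop.1 key
  exact ⟨A, fun lam hlam => hA lam hlam.le⟩

end Pool.Agent.U160.WP
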