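import Mathlib

set_option autoImplicit false

/-!
# Project WP: Waring's problem with `k + 1` variables for the perturbed integers `n + {P(n)}`

Statements of the packages. Every `S_X` is a `Prop`; package `X` proves `theorem t_X : ... → S_X`.

THEOREM. Let `k ≥ 1`, `d ≥ k + 1`, `η > 0`. For almost every real polynomial `P` of large degree (and for almost
every independent uniform perturbation `θ n` instead of `{P(n)}`), as `λ → ∞` through the reals,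
`#{n ∈ ℕ^d : |∑ (n_i + {P(n_i)})^k - λ| ≤ η} ~ 2 η Γ(1+1/k)^d / Γ(d/k) λ^(d/k-1)`.
-/

namespace Pool.Agent.U160.WP

open MeasureTheory ProbabilityTheory Finset

noncomputable section

/-- the uniform law on `[0,1]` -/
def unif : Measure ℝ := (volume : Measure ℝ).restrict (Set.Icc 0 1)

/-- the product law of a sequence -/
def prodLaw (ν : Measure ℝ) [IsProbabilityMeasure ν] : Measure (ℕ → ℝ) := Measure.infinitePi fun _ : ℕ => ν

open scoped Classical in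
/-- the conditional probability of `A`, given that the coordinates in `T` are those of `x` -/
def cond (ν : Measure ℝ) [IsProbabilityMeasure ν] (A : Set (ℕ → ℝ)) (T : Finset ℕ) (x : ℕ → ℝ) : ℝ :=
  (prodLaw ν).real {y | (fun n => if n ∈ T then x n else y n) ∈ A}

/-- the number of the events which occur -/
def Nev {ι : Type} (F : Finset ι) (A : ι → Set (ℕ → ℝ)) (y : ℕ → ℝ) : ℝ :=
  ∑ i ∈ F, (A i).indicator (fun _ => (1 : ℝ)) y

/-! ## the moment inequality -/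

/-- the union of the supports of the entries before `l` -/
def before {ι : Type} {q : ℕ} (supp : ι → Finset ℕ) (σ : Fin q → ι) (l : Fin q) : Finset ℕ :=
  (univ.filter fun l' : Fin q => l' < l).biUnion fun l' => supp (σ l')

/-- the entry `l` is a root (disjoint from all earlier entries) iff `l ∈ R` -/
def Roots {ι : Type} {q : ℕ} (supp : ι → Finset ℕ) (R : Finset (Fin q)) (σ : Fin q → ι) : Prop :=
  ∀ l : Fin q, l ∈ R ↔ Disjoint (supp (σ l)) (before supp σ l)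

open scoped Classical in
/-- package MOMa: sequential bound. `E[∏_{l ∈ S} 1_{σ_l}] ∏_{l ∉ S} p_{σ_l}` summed over all `σ` with given roots `R`
is at most `E0^|R| E1^(q-|R|)` -/
def S_MOMa : Prop := ∀ (d q : ℕ) (ν : Measure ℝ) [IsProbabilityMeasure ν] (ι : Type) (F : Finset ι)
  (supp : ι → Finset ℕ) (A : ι → Set (ℕ → ℝ)) (E0 E1 : ℝ),
  (∀ i ∈ F, MeasurableSet (A i)) → (∀ i ∈ F, (supp i).card ≤ d) →
  (∀ i ∈ F, ∀ x y : ℕ → ℝ, (∀ n ∈ supp i, x n = y n) → (x ∈ A i ↔ y ∈ A i)) →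
  0 ≤ E1 → ∑ i ∈ F, (prodLaw ν).real (A i) ≤ E0 →
  (∀ T : Finset ℕ, T.card ≤ q * d → ∀ x, ∑ i ∈ F with ¬ Disjoint (supp i) T, cond ν (A i) T x ≤ E1) →
  ∀ R S : Finset (Fin q),
    ∑ σ ∈ (Fintype.piFinset fun _ : Fin q => F).filter (fun σ => Roots supp R σ),
      ((∫ y, ∏ l ∈ S, (A (σ l)).indicator (fun _ => (1 : ℝ)) y ∂(prodLaw ν)) *
        ∏ l ∈ Sᶜ, (prodLaw ν).real (A (σ l))) ≤ E0 ^ R.card * E1 ^ (q - R.card)

/-- package MOM (from `S_MOMa`): the moment inequality -/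
def S_MOM : Prop := ∀ m d : ℕ, ∃ C : ℝ, 0 < C ∧ ∀ (ν : Measure ℝ) [IsProbabilityMeasure ν] (ι : Type) (F : Finset ι)
  (supp : ι → Finset ℕ) (A : ι → Set (ℕ → ℝ)) (E0 E1 : ℝ),
  (∀ i ∈ F, MeasurableSet (A i)) → (∀ i ∈ F, (supp i).card ≤ d) →
  (∀ i ∈ F, ∀ x y : ℕ → ℝ, (∀ n ∈ supp i, x n = y n) → (x ∈ A i ↔ y ∈ A i)) →
  0 ≤ E1 → E1 ≤ E0 → ∑ i ∈ F, (prodLaw ν).real (A i) ≤ E0 →
  (∀ T : Finset ℕ, T.card ≤ 2 * m * d → ∀ x, ∑ i ∈ F with ¬ Disjoint (supp i) T, cond ν (A i) T x ≤ E1) →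
  ∫ y, (Nev F A y - ∫ y', Nev F A y' ∂(prodLaw ν)) ^ (2 * m) ∂(prodLaw ν) ≤ C * (E0 * E1) ^ m

/-! ## volumes -/

/-- package V1: the volume of a weighted shell -/
def S_V1 : Prop := ∀ k i D : ℕ, 1 ≤ k → 1 ≤ i → ∀ η : ℝ, 0 < η → ∃ C : ℝ, 0 < C ∧
  ∀ w : Fin i → ℕ, (∀ l, 1 ≤ w l ∧ w l ≤ D) → ∀ μ : ℝ,
    volume.real {v : Fin i → ℝ | (∀ l, 0 ≤ v l) ∧ |∑ l, (w l : ℝ) * v l ^ k - μ| ≤ η} ≤
      C * (1 + |μ|) ^ ((i : ℝ) / k - 1)

/-- package V2: the asymptotic volume of the shell -/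
def S_V2 : Prop := ∀ k d : ℕ, 1 ≤ k → k + 1 ≤ d → ∀ η : ℝ, 0 < η →
  Filter.Tendsto (fun t : ℝ => volume.real {v : Fin d → ℝ | (∀ l, 0 ≤ v l) ∧ |∑ l, v l ^ k - t| ≤ η} /
    t ^ ((d : ℝ) / k - 1)) Filter.atTop
    (nhds (2 * η * Real.Gamma (1 + 1 / k) ^ d / Real.Gamma ((d : ℝ) / k)))

/-- package V3 (from `S_V1`): the part of the shell near a diagonal -/
def S_V3 : Prop := ∀ k d : ℕ, 1 ≤ k → ∀ i j : Fin d, i ≠ j → ∀ η : ℝ, 0 < η → ∃ C : ℝ, 0 < C ∧ ∀ t : ℝ,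
  volume.real {v : Fin d → ℝ | (∀ l, 0 ≤ v l) ∧ |v i - v j| ≤ 1 ∧ |∑ l, v l ^ k - t| ≤ η} ≤
    C * (1 + |t|) ^ (((d : ℝ) - 1) / k - 1)

/-! ## the tuples -/

/-- the tuples in `[1,M]^d` -/
def tup (d M : ℕ) : Finset (Fin d → ℕ) := Fintype.piFinset fun _ : Fin d => Finset.Icc 1 M

/-- the event `|∑ (n_i + θ(n_i))^k - t| ≤ η` -/
def EvW (k : ℕ) (t η : ℝ) {d : ℕ} (n : Fin d → ℕ) : Set (ℕ → ℝ) :=
  {θ | |∑ i, ((n i : ℝ) + θ (n i)) ^ k - t| ≤ η}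

/-- the numbers which occur in the tuple -/
def suppW {d : ℕ} (n : Fin d → ℕ) : Finset ℕ := univ.image n

instance unif_prob : IsProbabilityMeasure unif := ⟨by simp [unif]⟩

/-- the cell of the point `e` intersected with a weighted shell -/
def cell {i : ℕ} (k : ℕ) (w e : Fin i → ℕ) (μ η : ℝ) : Set (Fin i → ℝ) :=
  {v | (∀ l, v l ∈ Set.Icc (e l : ℝ) (e l + 1)) ∧ |∑ l, (w l : ℝ) * v l ^ k - μ| ≤ η}

/-- package PV: (1) probabilities are volumes of cells; (2) cells over a finite set of points fit into the box -/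
def S_PV : Prop :=
  (∀ (k i : ℕ) (w e : Fin i → ℕ), Function.Injective e → ∀ μ η : ℝ,
    (prodLaw unif).real {y | |∑ l, (w l : ℝ) * ((e l : ℝ) + y (e l)) ^ k - μ| ≤ η} =
      volume.real (cell k w e μ η)) ∧
  (∀ (k i : ℕ) (w : Fin i → ℕ) (M : ℕ) (μ η : ℝ), ∀ G ⊆ tup i M,
    ∑ e ∈ G, volume.real (cell k w e μ η) =
      volume.real {v : Fin i → ℝ | (∃ e ∈ G, ∀ l, v l ∈ Set.Icc (e l : ℝ) (e l + 1)) ∧
        |∑ l, (w l : ℝ) * v l ^ k - μ| ≤ η})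

open scoped Classical in
/-- package CD (from `S_V1`, `S_PV`): the expected number of solutions, and of those meeting a set `T` -/
def S_CD : Prop := ∀ k d q : ℕ, 1 ≤ k → k + 1 ≤ d → ∀ η : ℝ, 0 < η → ∃ C : ℝ, 0 < C ∧ ∀ (M : ℕ) (t : ℝ), 1 ≤ M →
  ∑ n ∈ tup d M, (prodLaw unif).real (EvW k t η n) ≤ C * (M : ℝ) ^ (d - k) ∧
  ∀ T : Finset ℕ, T.card ≤ q → ∀ x : ℕ → ℝ,
    ∑ n ∈ tup d M with ¬ Disjoint (suppW n) T, cond unif (EvW k t η n) T x ≤ C * (M : ℝ) ^ (d - k - 1)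

/-- package ME (from `S_V1`, `S_V2`, `S_V3`, `S_PV`): the mean number of solutions; `M` is any upper bound for the variables -/
def S_ME : Prop := ∀ k d : ℕ, 1 ≤ k → k + 1 ≤ d → ∀ η : ℝ, 0 < η → ∀ ε : ℝ, 0 < ε → ∃ t₀ : ℝ, 1 ≤ t₀ ∧
  ∀ t : ℝ, t₀ ≤ t → ∀ M : ℕ, t + η < ((M : ℝ) + 1) ^ k →
    |∑ n ∈ tup d M, (prodLaw unif).real (EvW k t η n) -
      2 * η * Real.Gamma (1 + 1 / k) ^ d / Real.Gamma ((d : ℝ) / k) * t ^ ((d : ℝ) / k - 1)| ≤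
      ε * t ^ ((d : ℝ) / k - 1)

end

end Pool.Agent.U160.WP
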