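import Mathlib
import Pool.Agent.U160.WP.Stm

/-!
# Project WP, package CD: the expected number of solutions, and of those meeting a set
-/

set_option autoImplicit false

namespace Pool.Agent.U160.WP

open MeasureTheory ProbabilityTheory Finset

noncomputable section

namespace CD128

lemma shell_bdd {i k : ℕ} (hk : 1 ≤ k) (w : Fin i → ℕ) (hw : ∀ l, 1 ≤ w l) (μ η : ℝ) :
    {v : Fin i → ℝ | (∀ l, 0 ≤ v l) ∧ |∑ l, (w l : ℝ) * v l ^ k - μ| ≤ η} ⊆
      Set.Icc (fun _ => (0 : ℝ)) (fun _ => max 1 (μ + η)) := by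
  rintro v ⟨h0, h1⟩
  refine ⟨fun l => h0 l, fun l => ?_⟩
  have h2 : ∑ l, (w l : ℝ) * v l ^ k ≤ μ + η := by
    have := (abs_le.1 h1).2; linarith
  have h3 : (w l : ℝ) * v l ^ k ≤ ∑ l, (w l : ℝ) * v l ^ k :=
    Finset.single_le_sum (f := fun l => (w l : ℝ) * v l ^ k)
      (fun j _ => mul_nonneg (Nat.cast_nonneg _) (pow_nonneg (h0 j) k)) (mem_univ l)
  have h4 : v l ^ k ≤ (w l : ℝ) * v l ^ k := by
    have h6 : (1 : ℝ) ≤ w l := by exact_mod_cast hw l
    have h5 : 0 ≤ v l ^ k := pow_nonneg (h0 l) k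
    nlinarith
  by_cases h6 : v l ≤ 1
  · exact le_max_of_le_left h6
  · push Not at h6
    refine le_max_of_le_right ?_
    have : v l ≤ v l ^ k := le_self_pow₀ h6.le (by omega)
    linarith

lemma shell_ne_top {i k : ℕ} (hk : 1 ≤ k) (w : Fin i → ℕ) (hw : ∀ l, 1 ≤ w l) (μ η : ℝ) :
    volume {v : Fin i → ℝ | (∀ l, 0 ≤ v l) ∧ |∑ l, (w l : ℝ) * v l ^ k - μ| ≤ η} ≠ ⊤ :=
  ((measure_mono (shell_bdd hk w hw μ η)).trans_lt isCompact_Icc.measure_lt_top).ne

lemma rpow_bound {k i D : ℕ} (hk : 1 ≤ k) {η : ℝ} (hη : 0 < η) {M : ℕ} (hM : 1 ≤ M) {μ : ℝ}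
    (hμ : |μ| ≤ D * i * ((M : ℝ) + 1) ^ k + η) :
    (1 + |μ|) ^ ((i : ℝ) / k - 1) ≤
      (1 + (1 + η + D * i) ^ ((i : ℝ) / k - 1) * 2 ^ (i - k)) * (M : ℝ) ^ (i - k) := by
  have hk' : (0 : ℝ) < k := by exact_mod_cast hk
  have hM' : (1 : ℝ) ≤ M := by exact_mod_cast hM
  have hA : (0 : ℝ) < 1 + η + D * i := by positivity
  have hA2 : (0 : ℝ) ≤ (1 + η + D * i) ^ ((i : ℝ) / k - 1) := Real.rpow_nonneg hA.le _
  rcases le_or_gt i k with h | h
  · have h1 : (i : ℝ) / k - 1 ≤ 0 := by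
      have : (i : ℝ) / k ≤ 1 := by
        rw [div_le_one hk']
        exact_mod_cast h
      linarith
    have h2 := Real.rpow_le_one_of_one_le_of_nonpos (by linarith [abs_nonneg μ] : 1 ≤ 1 + |μ|) h1
    have h3 : i - k = 0 := by omega
    rw [h3, pow_zero, pow_zero, mul_one, mul_one]
    linarith
  · have h1 : 0 ≤ (i : ℝ) / k - 1 := by
      have : 1 ≤ (i : ℝ) / k := by
        rw [le_div_iff₀ hk', one_mul]
        exact_mod_cast h.le
      linarith
    have h2 : ((M : ℝ) + 1) ^ k ≤ (2 * M) ^ k :=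
      pow_le_pow_left₀ (by linarith) (by linarith) k
    have h3 : (1 : ℝ) ≤ (2 * M) ^ k := one_le_pow₀ (by linarith)
    have h4 : 1 + |μ| ≤ (1 + η + D * i) * (2 * M) ^ k := by
      have h5 : (D : ℝ) * i * ((M : ℝ) + 1) ^ k ≤ D * i * (2 * M) ^ k :=
        mul_le_mul_of_nonneg_left h2 (by positivity)
      nlinarith
    have h6 := Real.rpow_le_rpow (by positivity) h4 h1
    rw [Real.mul_rpow hA.le (by positivity)] at h6
    have h7 : ((2 * (M : ℝ)) ^ k) ^ ((i : ℝ) / k - 1) = (2 * M) ^ (i - k) := by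
      rw [← Real.rpow_natCast (2 * (M : ℝ)) k, ← Real.rpow_mul (by positivity),
        ← Real.rpow_natCast (2 * (M : ℝ)) (i - k), Nat.cast_sub h.le]
      congr 1
      field_simp
    rw [h7, mul_pow] at h6
    refine h6.trans ?_
    have h8 : (0 : ℝ) ≤ (M : ℝ) ^ (i - k) := by positivity
    nlinarith

/-- the sum of the probabilities over injective `e` -/
lemma sum_cells (h1 : S_V1) (h2 : S_PV) (k i D : ℕ) (hk : 1 ≤ k) (η : ℝ) (hη : 0 < η) :
    ∃ C : ℝ, 0 < C ∧ ∀ w : Fin i → ℕ, (∀ l, 1 ≤ w l ∧ w l ≤ D) → ∀ (μ : ℝ) (M : ℕ), 1 ≤ M →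
      ∀ G ⊆ tup i M, (∀ e ∈ G, Function.Injective e) →
      ∑ e ∈ G, (prodLaw unif).real
        {y | |∑ l, (w l : ℝ) * ((e l : ℝ) + y (e l)) ^ k - μ| ≤ η} ≤ C * (M : ℝ) ^ (i - k) := by
  classical
  haveI : IsProbabilityMeasure (prodLaw unif) := by unfold prodLaw; infer_instance
  rcases Nat.eq_zero_or_pos i with rfl | hi
  · refine ⟨1, one_pos, fun w hw μ M hM G hG hinj => ?_⟩
    calc _ ≤ ∑ e ∈ G, (1 : ℝ) := sum_le_sum fun _ _ => measureReal_le_one
      _ = G.card := by simp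
      _ ≤ 1 := by exact_mod_cast Finset.card_le_one_of_subsingleton G
      _ = _ := by simp
  · obtain ⟨C, hC, hV⟩ := h1 k i D hk hi η hη
    refine ⟨C * (1 + (1 + η + D * i) ^ ((i : ℝ) / k - 1) * 2 ^ (i - k)), ?_, ?_⟩
    · have : (0 : ℝ) < (1 + η + D * i) ^ ((i : ℝ) / k - 1) := Real.rpow_pos_of_pos (by positivity) _
      positivity
    intro w hw μ M hM G hG hinj
    rw [sum_congr rfl fun e he => h2.1 k i w e (hinj e he) μ η, h2.2 k i w M μ η G hG]
    have hM' : (1 : ℝ) ≤ M := by exact_mod_cast hM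
    by_cases hμ : |μ| ≤ D * i * ((M : ℝ) + 1) ^ k + η
    · have hsub : {v : Fin i → ℝ | (∃ e ∈ G, ∀ l, v l ∈ Set.Icc (e l : ℝ) (e l + 1)) ∧
          |∑ l, (w l : ℝ) * v l ^ k - μ| ≤ η} ⊆
          {v : Fin i → ℝ | (∀ l, 0 ≤ v l) ∧ |∑ l, (w l : ℝ) * v l ^ k - μ| ≤ η} := by
        rintro v ⟨⟨e, he, hv⟩, h⟩
        exact ⟨fun l => (Nat.cast_nonneg _).trans (hv l).1, h⟩
      refine (measureReal_mono hsub (shell_ne_top hk w (fun l => (hw l).1) μ η)).trans ?_
      refine (hV w hw μ).trans ?_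
      rw [mul_assoc]
      exact mul_le_mul_of_nonneg_left (rpow_bound hk hη hM hμ) hC.le
    · have hemp : {v : Fin i → ℝ | (∃ e ∈ G, ∀ l, v l ∈ Set.Icc (e l : ℝ) (e l + 1)) ∧
          |∑ l, (w l : ℝ) * v l ^ k - μ| ≤ η} = ∅ := by
        rw [Set.eq_empty_iff_forall_notMem]
        rintro v ⟨⟨e, he, hv⟩, h⟩
        apply hμ
        have he' : ∀ l, 1 ≤ e l ∧ e l ≤ M := by
          intro l
          have := hG he
          rw [tup, Fintype.mem_piFinset] at this
          exact Finset.mem_Icc.1 (this l)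
        have hv0 : ∀ l, 0 ≤ v l := fun l => (Nat.cast_nonneg _).trans (hv l).1
        have hv1 : ∀ l, v l ≤ M + 1 := fun l => by
          have : (e l : ℝ) ≤ M := by exact_mod_cast (he' l).2
          linarith [(hv l).2]
        have hs0 : 0 ≤ ∑ l, (w l : ℝ) * v l ^ k :=
          sum_nonneg fun j _ => mul_nonneg (Nat.cast_nonneg _) (pow_nonneg (hv0 j) k)
        have hs1 : ∑ l, (w l : ℝ) * v l ^ k ≤ D * i * ((M : ℝ) + 1) ^ k := by
          calc _ ≤ ∑ _l : Fin i, (D : ℝ) * ((M : ℝ) + 1) ^ k := by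
                refine sum_le_sum fun l _ => ?_
                refine mul_le_mul ?_ (pow_le_pow_left₀ (hv0 l) (hv1 l) k)
                  (pow_nonneg (hv0 l) k) (Nat.cast_nonneg _)
                exact_mod_cast (hw l).2
            _ = _ := by
                rw [sum_const, card_univ, Fintype.card_fin, nsmul_eq_mul]
                ring
        obtain ⟨ha, hb⟩ := abs_le.1 h
        rw [abs_le]
        constructor <;> linarith
      rw [hemp, measureReal_empty]
      have : (0 : ℝ) < (1 + η + D * i) ^ ((i : ℝ) / k - 1) := Real.rpow_pos_of_pos (by positivity) _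
      positivity

/-- the tuple with pattern `π` and free values `e` -/
def glue {d i : ℕ} {T : Finset ℕ} (π : Fin d → Fin i ⊕ T) (e : Fin i → ℕ) : Fin d → ℕ :=
  fun j => Sum.elim e (fun a : T => (a : ℕ)) (π j)

lemma exists_glue {d M i : ℕ} {T : Finset ℕ} {n : Fin d → ℕ} (hn : n ∈ tup d M)
    (hi : (suppW n \ T).card = i) :
    ∃ (π : Fin d → Fin i ⊕ T) (e : Fin i → ℕ), (∀ l, ∃ j, π j = Sum.inl l) ∧
      e ∈ tup i M ∧ Function.Injective e ∧ (∀ l, e l ∉ T) ∧ glue π e = n := by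
  classical
  have hmem : ∀ j, n j ∉ T → n j ∈ suppW n \ T := fun j hj => by
    rw [mem_sdiff]
    exact ⟨mem_image_of_mem _ (mem_univ j), hj⟩
  set o := (suppW n \ T).orderIsoOfFin hi with ho
  refine ⟨fun j => if hj : n j ∈ T then Sum.inr ⟨n j, hj⟩ else Sum.inl (o.symm ⟨n j, hmem j hj⟩),
    fun l => (o l : ℕ), ?_, ?_, ?_, ?_, ?_⟩
  · intro l
    have h1 := (o l).2
    rw [mem_sdiff] at h1
    obtain ⟨j, -, hj⟩ := mem_image.1 h1.1
    refine ⟨j, ?_⟩
    have h2 : n j ∉ T := by rw [hj]; exact h1.2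
    simp only [h2, dif_neg, not_false_eq_true]
    congr 1
    rw [OrderIso.symm_apply_eq]
    exact Subtype.ext hj
  · rw [tup, Fintype.mem_piFinset] at hn ⊢
    intro l
    have h1 := (o l).2
    rw [mem_sdiff] at h1
    obtain ⟨j, -, hj⟩ := mem_image.1 h1.1
    rw [← hj]
    exact hn j
  · exact Subtype.val_injective.comp o.injective
  · intro l
    exact (mem_sdiff.1 (o l).2).2
  · funext j
    unfold glue
    by_cases hj : n j ∈ T
    · simp only [hj, dif_pos]
      rfl
    · simp only [hj, dif_neg, not_false_eq_true, Sum.elim_inl, OrderIso.apply_symm_apply]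

lemma sum_pattern {d i : ℕ} {T : Finset ℕ} (π : Fin d → Fin i ⊕ T) (f : Fin i → ℝ) (g : T → ℝ) :
    ∑ j, Sum.elim f g (π j) = ∑ l, ((univ.filter fun j => π j = Sum.inl l).card : ℝ) * f l +
      ∑ a, ((univ.filter fun j => π j = Sum.inr a).card : ℝ) * g a := by
  classical
  have h1 : ∀ j, Sum.elim f g (π j) = ∑ b : Fin i ⊕ T, if π j = b then Sum.elim f g b else 0 := by
    intro j
    rw [Finset.sum_ite_eq]
    simp
  have h2 : ∑ j, Sum.elim f g (π j) =
      ∑ b : Fin i ⊕ T, ((univ.filter fun j => π j = b).card : ℝ) * Sum.elim f g b := by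
    rw [sum_congr rfl fun j _ => h1 j, sum_comm]
    refine sum_congr rfl fun b _ => ?_
    rw [← sum_filter, sum_const, nsmul_eq_mul]
  rw [h2, Fintype.sum_sum_type]
  rfl

lemma cond_glue {d i k : ℕ} {T : Finset ℕ} (π : Fin d → Fin i ⊕ T) (e : Fin i → ℕ)
    (he : ∀ l, e l ∉ T) (x : ℕ → ℝ) (t η : ℝ) :
    cond unif (EvW k t η (glue π e)) T x = (prodLaw unif).real
      {y | |∑ l, ((univ.filter fun j => π j = Sum.inl l).card : ℝ) * ((e l : ℝ) + y (e l)) ^ k -
        (t - ∑ a : T, ((univ.filter fun j => π j = Sum.inr a).card : ℝ) *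
          (((a : ℕ) : ℝ) + x a) ^ k)| ≤ η} := by
  classical
  unfold cond EvW
  congr 1
  ext y
  simp only [Set.mem_ofPred_eq]
  have h1 : ∀ j, (((glue π e j : ℕ) : ℝ) + (if glue π e j ∈ T then x (glue π e j) else
      y (glue π e j))) ^ k = Sum.elim (fun l => ((e l : ℝ) + y (e l)) ^ k)
        (fun a : T => (((a : ℕ) : ℝ) + x a) ^ k) (π j) := by
    intro j
    unfold glue
    rcases π j with l | a
    · simp only [Sum.elim_inl, if_neg (he l)]
    · simp only [Sum.elim_inr, if_pos a.2]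
  rw [sum_congr rfl fun j _ => h1 j, sum_pattern]
  rw [← sub_add, add_sub_right_comm]

lemma sum_cover {α β : Type} {S : Finset β} {P : Finset α} {Φ : α → β} {f : β → ℝ}
    (hf : ∀ b, 0 ≤ f b) (h : ∀ b ∈ S, ∃ a ∈ P, Φ a = b) : ∑ b ∈ S, f b ≤ ∑ a ∈ P, f (Φ a) := by
  classical
  rcases P.eq_empty_or_nonempty with rfl | ⟨a₀, -⟩
  · have hS : S = ∅ := by
      rw [eq_empty_iff_forall_notMem]
      intro b hb
      obtain ⟨a, ha, -⟩ := h b hb
      exact notMem_empty _ ha
    rw [hS]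
    simp
  haveI : Nonempty α := ⟨a₀⟩
  choose! p hp hΦ using h
  have hinj : Set.InjOn p S := fun b hb b' hb' h => by
    rw [← hΦ b hb, ← hΦ b' hb', h]
  calc ∑ b ∈ S, f b = ∑ b ∈ S, f (Φ (p b)) := sum_congr rfl fun b hb => by rw [hΦ b hb]
    _ = ∑ a ∈ S.image p, f (Φ a) := by rw [sum_image hinj]
    _ ≤ _ := sum_le_sum_of_subset_of_nonneg (fun a ha => by
      obtain ⟨b, hb, rfl⟩ := mem_image.1 ha
      exact hp b hb) fun _ _ _ => hf _

open scoped Classical in
/-- the tuples with `i` distinct values outside `T` -/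
lemma sum_free (h1 : S_V1) (h2 : S_PV) (k d q i : ℕ) (hk : 1 ≤ k) (η : ℝ) (hη : 0 < η) :
    ∃ C : ℝ, 0 < C ∧ ∀ (M : ℕ) (t : ℝ), 1 ≤ M → ∀ T : Finset ℕ, T.card ≤ q → ∀ x : ℕ → ℝ,
      ∑ n ∈ tup d M with (suppW n \ T).card = i, cond unif (EvW k t η n) T x ≤
        C * (M : ℝ) ^ (i - k) := by
  obtain ⟨C, hC, h⟩ := sum_cells h1 h2 k i d hk η hη
  refine ⟨C * (((i + q) ^ d : ℕ) + 1), by positivity, fun M t hM T hT x => ?_⟩
  have hM' : (0 : ℝ) ≤ (M : ℝ) ^ (i - k) := by positivity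
  set Q : Finset (Fin d → Fin i ⊕ T) := univ.filter fun π => ∀ l, ∃ j, π j = Sum.inl l with hQ
  set G : Finset (Fin i → ℕ) :=
    (tup i M).filter fun e => Function.Injective e ∧ ∀ l, e l ∉ T with hG
  have hQc : (Q.card : ℝ) ≤ ((i + q) ^ d : ℕ) := by
    have h3 : Q.card ≤ (i + q) ^ d := by
      calc Q.card ≤ (univ : Finset (Fin d → Fin i ⊕ T)).card := card_filter_le _ _
        _ = (i + T.card) ^ d := by
          rw [card_univ, Fintype.card_fun, Fintype.card_sum, Fintype.card_fin, Fintype.card_fin,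
            Fintype.card_coe]
        _ ≤ _ := Nat.pow_le_pow_left (by omega) d
    exact_mod_cast h3
  calc _ ≤ ∑ a ∈ Q ×ˢ G, cond unif (EvW k t η (glue a.1 a.2)) T x := by
        refine sum_cover (Φ := fun a : (Fin d → Fin i ⊕ T) × (Fin i → ℕ) => glue a.1 a.2)
          (f := fun n => cond unif (EvW k t η n) T x) (fun n => measureReal_nonneg) ?_
        intro n hn
        obtain ⟨hn1, hn2⟩ := mem_filter.1 hn
        obtain ⟨π, e, ha, hb, hc, hd, he⟩ := exists_glue hn1 hn2
        refine ⟨(π, e), ?_, he⟩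
        rw [mem_product]
        exact ⟨mem_filter.2 ⟨mem_univ _, ha⟩, mem_filter.2 ⟨hb, hc, hd⟩⟩
    _ = ∑ π ∈ Q, ∑ e ∈ G, cond unif (EvW k t η (glue π e)) T x := sum_product _ _ _
    _ ≤ ∑ π ∈ Q, C * (M : ℝ) ^ (i - k) := by
        refine sum_le_sum fun π hπ => ?_
        have hπ' := (mem_filter.1 hπ).2
        rw [sum_congr rfl fun e he => cond_glue π e (mem_filter.1 he).2.2 x t η]
        refine h (fun l => (univ.filter fun j => π j = Sum.inl l).card) (fun l => ⟨?_, ?_⟩) _ M hM G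
          (filter_subset _ _) fun e he => (mem_filter.1 he).2.1
        · obtain ⟨j, hj⟩ := hπ' l
          exact Finset.card_pos.2 ⟨j, mem_filter.2 ⟨mem_univ _, hj⟩⟩
        · exact (card_filter_le _ _).trans (by rw [card_univ, Fintype.card_fin])
    _ = Q.card * (C * (M : ℝ) ^ (i - k)) := by rw [sum_const, nsmul_eq_mul]
    _ ≤ (((i + q) ^ d : ℕ) + 1) * (C * (M : ℝ) ^ (i - k)) := by
        refine mul_le_mul_of_nonneg_right ?_ (by positivity)
        linarith
    _ = _ := by ring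

lemma card_supp {d : ℕ} (n : Fin d → ℕ) : (suppW n).card ≤ d := by
  unfold suppW
  exact card_image_le.trans (by rw [card_univ, Fintype.card_fin])

end CD128

open CD128 in
/-- **package CD** -/
theorem t_CD (h1 : S_V1) (h2 : S_PV) : S_CD := by
  classical
  intro k d q hk hd η hη
  choose Cf hCf hf using fun i => sum_free h1 h2 k d q i hk η hη
  refine ⟨∑ i ∈ range (d + 1), Cf i, sum_pos (fun i _ => hCf i) ⟨0, by simp⟩, fun M t hM => ?_⟩
  have hM' : (1 : ℝ) ≤ M := by exact_mod_cast hM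
  constructor
  · have h3 : ∀ n : Fin d → ℕ, (prodLaw unif).real (EvW k t η n) =
        cond unif (EvW k t η n) ∅ 0 := by
      intro n
      unfold cond
      simp only [notMem_empty, if_false]
      rfl
    calc ∑ n ∈ tup d M, (prodLaw unif).real (EvW k t η n)
        = ∑ n ∈ tup d M, cond unif (EvW k t η n) ∅ 0 := sum_congr rfl fun n _ => h3 n
      _ = ∑ i ∈ range (d + 1), ∑ n ∈ tup d M with (suppW n \ ∅).card = i,
            cond unif (EvW k t η n) ∅ 0 := by
          refine (sum_fiberwise_of_maps_to (fun n _ => ?_) _).symm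
          rw [mem_range]
          have := card_supp n
          rw [sdiff_empty]
          omega
      _ ≤ ∑ i ∈ range (d + 1), Cf i * (M : ℝ) ^ (d - k) := by
          refine sum_le_sum fun i hi => (hf i M t hM ∅ (by simp) 0).trans ?_
          refine mul_le_mul_of_nonneg_left ?_ (hCf i).le
          have := mem_range.1 hi
          exact pow_le_pow_right₀ hM' (by omega)
      _ = _ := by rw [sum_mul]
  · intro T hT x
    calc ∑ n ∈ tup d M with ¬ Disjoint (suppW n) T, cond unif (EvW k t η n) T x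
        = ∑ i ∈ range d, ∑ n ∈ (tup d M).filter (fun n => ¬ Disjoint (suppW n) T) with
            (suppW n \ T).card = i, cond unif (EvW k t η n) T x := by
          refine (sum_fiberwise_of_maps_to (fun n hn => ?_) _).symm
          rw [mem_range]
          have h4 := (mem_filter.1 hn).2
          have h5 := card_supp n
          have h6 : (suppW n \ T).card < (suppW n).card := by
            rw [Finset.not_disjoint_iff] at h4
            obtain ⟨a, ha, hb⟩ := h4
            refine card_lt_card ⟨sdiff_subset, fun h => ?_⟩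
            exact (mem_sdiff.1 (h ha)).2 hb
          omega
      _ ≤ ∑ i ∈ range d, ∑ n ∈ tup d M with (suppW n \ T).card = i,
            cond unif (EvW k t η n) T x := by
          refine sum_le_sum fun i _ => sum_le_sum_of_subset_of_nonneg ?_ fun _ _ _ =>
            measureReal_nonneg
          exact filter_subset_filter _ (filter_subset _ _)
      _ ≤ ∑ i ∈ range d, Cf i * (M : ℝ) ^ (d - k - 1) := by
          refine sum_le_sum fun i hi => (hf i M t hM T hT x).trans ?_
          refine mul_le_mul_of_nonneg_left ?_ (hCf i).le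
          have := mem_range.1 hi
          exact pow_le_pow_right₀ hM' (by omega)
      _ ≤ _ := by
          rw [← sum_mul]
          refine mul_le_mul_of_nonneg_right ?_ (by positivity)
          exact sum_le_sum_of_subset_of_nonneg (range_subset_range.2 (by omega))
            fun i _ _ => (hCf i).le

end

end Pool.Agent.U160.WP
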