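import Pool.Agent.U160.WP.Stm

set_option autoImplicit false

/-!
# Project WP, package ME: the mean number of solutions
-/

namespace Pool.Agent.U160.WP

open MeasureTheory ProbabilityTheory Finset

noncomputable section

namespace ME

/-- the weighted shell -/
def Sh {i : ℕ} (k : ℕ) (w : Fin i → ℕ) (μ η : ℝ) : Set (Fin i → ℝ) :=
  {v | (∀ l, 0 ≤ v l) ∧ |∑ l, (w l : ℝ) * v l ^ k - μ| ≤ η}

theorem Sh_fin {i k : ℕ} (hk : 1 ≤ k) (w : Fin i → ℕ) (hw : ∀ l, 1 ≤ w l) (μ η : ℝ) :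
    volume (Sh k w μ η) ≠ ⊤ := by
  have h : Sh k w μ η ⊆ Set.Icc (fun _ => 0) (fun _ => max 1 (μ + η)) := by
    rintro v ⟨h0, h1⟩
    refine ⟨h0, fun l => ?_⟩
    by_contra hc
    have hc' : max 1 (μ + η) < v l := not_le.1 hc
    have h2 : 1 < v l := lt_of_le_of_lt (le_max_left _ _) hc'
    have h3 : μ + η < v l := lt_of_le_of_lt (le_max_right _ _) hc'
    have h4 : v l ≤ v l ^ k := le_self_pow₀ h2.le (by omega)
    have h5 : (w l : ℝ) * v l ^ k ≤ ∑ l, (w l : ℝ) * v l ^ k :=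
      Finset.single_le_sum (f := fun l => (w l : ℝ) * v l ^ k)
        (fun j _ => mul_nonneg (Nat.cast_nonneg _) (pow_nonneg (h0 j) k)) (Finset.mem_univ l)
    have h6 : v l ^ k ≤ (w l : ℝ) * v l ^ k := by
      have : (1 : ℝ) ≤ w l := by exact_mod_cast hw l
      exact le_mul_of_one_le_left (pow_nonneg (h0 l) k) this
    have := (abs_le.1 h1).2
    linarith
  exact ne_top_of_le_ne_top isCompact_Icc.measure_lt_top.ne (measure_mono h)

theorem sum_cell_le (hPV : S_PV) {k i : ℕ} (hk : 1 ≤ k) (w : Fin i → ℕ) (hw : ∀ l, 1 ≤ w l)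
    (M : ℕ) (μ η : ℝ) (G : Finset (Fin i → ℕ)) (hG : G ⊆ tup i M) :
    ∑ e ∈ G, volume.real (cell k w e μ η) ≤ volume.real (Sh k w μ η) := by
  rw [hPV.2 k i w M μ η G hG]
  refine measureReal_mono ?_ (Sh_fin hk w hw μ η)
  rintro v ⟨⟨e, he, h1⟩, h2⟩
  exact ⟨fun l => le_trans (Nat.cast_nonneg _) (h1 l).1, h2⟩

/-- the probability of a tuple which comes from a pattern -/
theorem ev_comp (hPV : S_PV) {k i d : ℕ} (e : Fin i → ℕ) (he : Function.Injective e)
    (p : Fin d → Fin i) (t η : ℝ) :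
    (prodLaw unif).real (EvW k t η (e ∘ p)) =
      volume.real (cell k (fun l => (univ.filter fun j => p j = l).card) e t η) := by
  rw [← hPV.1 k i _ e he t η]
  congr 1
  ext y
  unfold EvW
  simp only [Set.mem_ofPred_eq, Function.comp_apply]
  have h : ∑ j, ((e (p j) : ℝ) + y (e (p j))) ^ k =
      ∑ l, (((univ.filter fun j => p j = l).card : ℕ) : ℝ) * ((e l : ℝ) + y (e l)) ^ k := by
    rw [← Finset.sum_fiberwise univ p (fun j => ((e (p j) : ℝ) + y (e (p j))) ^ k)]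
    refine Finset.sum_congr rfl fun l _ => ?_
    rw [Finset.sum_congr rfl (g := fun _ => ((e l : ℝ) + y (e l)) ^ k)
      (fun j hj => by rw [(Finset.mem_filter.1 hj).2]), Finset.sum_const, nsmul_eq_mul]
  rw [h]

theorem patt {d M : ℕ} (n : Fin d → ℕ) (hn : ¬ Function.Injective n) (hM : n ∈ tup d M) :
    ∃ i : Fin d, 1 ≤ (i : ℕ) ∧ ∃ p : Fin d → Fin (i : ℕ), Function.Surjective p ∧
      ∃ e ∈ (tup i M).filter fun e => Function.Injective e, n = e ∘ p := by
  classical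
  set s : Finset ℕ := univ.image n with hs
  have hd : 0 < d := by
    rcases Nat.eq_zero_or_pos d with rfl | h
    · exact absurd (fun a => Fin.elim0 a) hn
    · exact h
  have hc1 : s.card ≤ d := by
    refine (Finset.card_image_le).trans ?_
    simp
  have hc2 : s.card ≠ d := by
    intro h0
    apply hn
    have h1 : (univ.image n).card = (univ : Finset (Fin d)).card := by
      rw [← hs, h0]; simp
    have h2 := Finset.card_image_iff.1 h1
    intro a b hab
    exact h2 (by simp) (by simp) hab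
  have hc3 : 1 ≤ s.card := by
    apply Finset.card_pos.2
    exact ⟨n ⟨0, hd⟩, by rw [hs]; exact Finset.mem_image_of_mem _ (Finset.mem_univ _)⟩
  have hmem : ∀ j, n j ∈ s := fun j => Finset.mem_image_of_mem _ (Finset.mem_univ _)
  let φ := s.orderIsoOfFin (k := s.card) rfl
  refine ⟨⟨s.card, by omega⟩, hc3, fun j => φ.symm ⟨n j, hmem j⟩, ?_,
    fun l => (φ l : ℕ), ?_, ?_⟩
  · intro l
    obtain ⟨j, _, hj⟩ := Finset.mem_image.1 (φ l).2
    refine ⟨j, ?_⟩
    have : (⟨n j, hmem j⟩ : s) = φ l := Subtype.ext hj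
    simp only
    rw [this, OrderIso.symm_apply_apply]
  · rw [Finset.mem_filter]
    constructor
    · unfold tup
      rw [Fintype.mem_piFinset]
      intro l
      obtain ⟨j, _, hj⟩ := Finset.mem_image.1 (φ l).2
      rw [← hj]
      exact (Fintype.mem_piFinset.1 hM) j
    · intro a b hab
      exact φ.injective (Subtype.ext hab)
  · funext j
    simp

/-- the tuples which are not injective -/
theorem noninj (hV1 : S_V1) (hPV : S_PV) (k d : ℕ) (hk : 1 ≤ k) (hd : k + 1 ≤ d) (η : ℝ)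
    (hη : 0 < η) : ∃ C : ℝ, 0 ≤ C ∧ ∀ (M : ℕ) (t : ℝ), 0 ≤ t →
      ∑ n ∈ (tup d M).filter (fun n => ¬ Function.Injective n), (prodLaw unif).real (EvW k t η n) ≤
        C * (1 + t) ^ (((d : ℝ) - 1) / k - 1) := by
  classical
  have h : ∀ i : ℕ, ∃ C : ℝ, 0 < C ∧ (1 ≤ i → ∀ w : Fin i → ℕ, (∀ l, 1 ≤ w l ∧ w l ≤ d) →
      ∀ μ : ℝ, volume.real (Sh k w μ η) ≤ C * (1 + |μ|) ^ ((i : ℝ) / k - 1)) := by
    intro i
    by_cases hi : 1 ≤ i
    · obtain ⟨C, hC, h⟩ := hV1 k i d hk hi η hη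
      exact ⟨C, hC, fun _ => h⟩
    · exact ⟨1, one_pos, fun h => absurd h hi⟩
  choose C hC hV using h
  let Q : Finset (Σ i : Fin d, (Fin d → Fin (i : ℕ))) :=
    univ.filter fun q => 1 ≤ (q.1 : ℕ) ∧ Function.Surjective q.2
  refine ⟨∑ q ∈ Q, C q.1, Finset.sum_nonneg fun q _ => (hC _).le, fun M t ht => ?_⟩
  let T : Finset (Σ q : (Σ i : Fin d, (Fin d → Fin (i : ℕ))), (Fin (q.1 : ℕ) → ℕ)) :=
    Q.sigma fun q => (tup (q.1 : ℕ) M).filter fun e => Function.Injective e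
  let Ψ : (Σ q : (Σ i : Fin d, (Fin d → Fin (i : ℕ))), (Fin (q.1 : ℕ) → ℕ)) → (Fin d → ℕ) :=
    fun x => x.2 ∘ x.1.2
  have hsub : (tup d M).filter (fun n => ¬ Function.Injective n) ⊆ T.image Ψ := by
    intro n hn
    rw [Finset.mem_filter] at hn
    obtain ⟨i, hi, p, hp, e, he, rfl⟩ := patt n hn.2 hn.1
    rw [Finset.mem_image]
    refine ⟨⟨⟨i, p⟩, e⟩, ?_, rfl⟩
    rw [Finset.mem_sigma]
    exact ⟨Finset.mem_filter.2 ⟨Finset.mem_univ _, hi, hp⟩, he⟩
  have hd0 : (1 : ℝ) ≤ 1 + t := by linarith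
  calc ∑ n ∈ (tup d M).filter (fun n => ¬ Function.Injective n), (prodLaw unif).real (EvW k t η n)
      ≤ ∑ n ∈ T.image Ψ, (prodLaw unif).real (EvW k t η n) :=
        Finset.sum_le_sum_of_subset_of_nonneg hsub fun _ _ _ => measureReal_nonneg
    _ ≤ ∑ x ∈ T, (prodLaw unif).real (EvW k t η (Ψ x)) :=
        Finset.sum_image_le_of_nonneg fun _ _ => measureReal_nonneg
    _ = ∑ q ∈ Q, ∑ e ∈ (tup (q.1 : ℕ) M).filter (fun e => Function.Injective e),
          (prodLaw unif).real (EvW k t η (e ∘ q.2)) := by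
        rw [Finset.sum_sigma]
    _ ≤ ∑ q ∈ Q, C q.1 * (1 + t) ^ (((d : ℝ) - 1) / k - 1) := by
        refine Finset.sum_le_sum fun q hq => ?_
        obtain ⟨-, hq1, hq2⟩ := Finset.mem_filter.1 hq
        have hw : ∀ l : Fin (q.1 : ℕ), 1 ≤ (univ.filter fun j => q.2 j = l).card ∧
            (univ.filter fun j => q.2 j = l).card ≤ d := by
          intro l
          constructor
          · apply Finset.card_pos.2
            obtain ⟨j, hj⟩ := hq2 l
            exact ⟨j, Finset.mem_filter.2 ⟨Finset.mem_univ _, hj⟩⟩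
          · refine (Finset.card_filter_le _ _).trans ?_
            simp
        have h1 : ∑ e ∈ (tup (q.1 : ℕ) M).filter (fun e => Function.Injective e),
            (prodLaw unif).real (EvW k t η (e ∘ q.2)) =
            ∑ e ∈ (tup (q.1 : ℕ) M).filter (fun e => Function.Injective e),
              volume.real (cell k (fun l => (univ.filter fun j => q.2 j = l).card) e t η) :=
          Finset.sum_congr rfl fun e he => ev_comp hPV e (Finset.mem_filter.1 he).2 q.2 t η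
        rw [h1]
        refine (sum_cell_le hPV hk _ (fun l => (hw l).1) M t η _ (Finset.filter_subset _ _)).trans ?_
        refine (hV q.1 hq1 _ hw t).trans ?_
        rw [abs_of_nonneg ht]
        refine mul_le_mul_of_nonneg_left (Real.rpow_le_rpow_of_exponent_le hd0 ?_) (hC _).le
        have h2 : ((q.1 : ℕ) : ℝ) + 1 ≤ d := by exact_mod_cast q.1.2
        have hk0 : (0 : ℝ) < k := by exact_mod_cast hk
        have h3 : ((q.1 : ℕ) : ℝ) / k ≤ ((d : ℝ) - 1) / k := by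
          apply div_le_div_of_nonneg_right _ hk0.le
          linarith
        linarith
    _ = (∑ q ∈ Q, C q.1) * (1 + t) ^ (((d : ℝ) - 1) / k - 1) := by rw [Finset.sum_mul]

/-- the part of the shell where one coordinate is small -/
theorem small (hV1 : S_V1) (k d : ℕ) (hk : 1 ≤ k) (hd : k + 1 ≤ d) (η : ℝ) (hη : 0 < η) :
    ∃ C : ℝ, 0 ≤ C ∧ ∀ (l : Fin d) (t : ℝ), 0 ≤ t →
      volume.real {v : Fin d → ℝ | (∀ j, 0 ≤ v j) ∧ v l ≤ 1 ∧ |∑ j, v j ^ k - t| ≤ η} ≤
        C * (1 + t) ^ (((d : ℝ) - 1) / k - 1) := by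
  obtain ⟨e, rfl⟩ : ∃ e, d = e + 1 := ⟨d - 1, by omega⟩
  obtain ⟨C, hC, h⟩ := hV1 k e 1 hk (by omega) (η + 1) (by linarith)
  refine ⟨C, hC.le, fun l t ht => ?_⟩
  have h1 := h (fun _ => 1) (fun _ => ⟨le_rfl, le_rfl⟩) t
  have hfin := Sh_fin (i := e) hk (fun _ => 1) (fun _ => le_rfl) t (η + 1)
  have h2 : volume {v : Fin (e + 1) → ℝ | (∀ j, 0 ≤ v j) ∧ v l ≤ 1 ∧ |∑ j, v j ^ k - t| ≤ η} ≤
      volume (Sh (i := e) k (fun _ => 1) t (η + 1)) := by
    have h3 : {v : Fin (e + 1) → ℝ | (∀ j, 0 ≤ v j) ∧ v l ≤ 1 ∧ |∑ j, v j ^ k - t| ≤ η} ⊆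
        (MeasurableEquiv.piFinSuccAbove (fun _ => ℝ) l) ⁻¹'
          (Set.Icc (0 : ℝ) 1 ×ˢ (Sh (i := e) k (fun _ => 1) t (η + 1))) := by
      rintro v ⟨a1, a2, a3⟩
      refine ⟨⟨a1 l, a2⟩, fun j => a1 _, ?_⟩
      change |∑ j : Fin e, ((1 : ℕ) : ℝ) * (v (l.succAbove j)) ^ k - t| ≤ η + 1
      have h4 : ∑ j, v j ^ k = v l ^ k + ∑ j : Fin e, v (l.succAbove j) ^ k :=
        Fin.sum_univ_succAbove _ l
      rw [h4] at a3
      have h5 : 0 ≤ v l ^ k := pow_nonneg (a1 l) k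
      have h6 : v l ^ k ≤ 1 := pow_le_one₀ (a1 l) a2
      simp only [Nat.cast_one, one_mul]
      rw [abs_le] at a3 ⊢
      constructor <;> linarith [a3.1, a3.2]
    refine (measure_mono h3).trans ?_
    rw [(volume_preserving_piFinSuccAbove (fun _ => ℝ) l).measure_preimage_equiv,
      Measure.volume_eq_prod, Measure.prod_prod]
    simp
  have h3 : volume.real {v : Fin (e + 1) → ℝ | (∀ j, 0 ≤ v j) ∧ v l ≤ 1 ∧ |∑ j, v j ^ k - t| ≤ η} ≤
      volume.real (Sh (i := e) k (fun _ => 1) t (η + 1)) :=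
    ENNReal.toReal_mono hfin h2
  refine h3.trans (h1.trans ?_)
  rw [abs_of_nonneg ht]
  push_cast
  rw [add_sub_cancel_right]

/-- the injective tuples -/
theorem inj (hV1 : S_V1) (hV3 : S_V3) (hPV : S_PV) (k d : ℕ) (hk : 1 ≤ k) (hd : k + 1 ≤ d)
    (η : ℝ) (hη : 0 < η) : ∃ C : ℝ, 0 ≤ C ∧ ∀ (M : ℕ) (t : ℝ), 0 ≤ t → t + η < ((M : ℝ) + 1) ^ k →
      |∑ n ∈ (tup d M).filter (fun n => Function.Injective n), (prodLaw unif).real (EvW k t η n) -
        volume.real (Sh (i := d) k (fun _ => 1) t η)| ≤ C * (1 + t) ^ (((d : ℝ) - 1) / k - 1) := by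
  classical
  obtain ⟨C1, hC1, h1⟩ := small hV1 k d hk hd η hη
  have h3 : ∀ q : Fin d × Fin d, ∃ C : ℝ, 0 ≤ C ∧ (q.1 ≠ q.2 → ∀ t : ℝ,
      volume.real {v : Fin d → ℝ | (∀ l, 0 ≤ v l) ∧ |v q.1 - v q.2| ≤ 1 ∧ |∑ l, v l ^ k - t| ≤ η} ≤
        C * (1 + |t|) ^ (((d : ℝ) - 1) / k - 1)) := by
    intro q
    by_cases hq : q.1 = q.2
    · exact ⟨0, le_rfl, fun h => absurd hq h⟩
    · obtain ⟨C, hC, h⟩ := hV3 k d hk q.1 q.2 hq η hη
      exact ⟨C, hC.le, fun _ => h⟩
  choose C3 hC3 h3 using h3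
  refine ⟨d * C1 + ∑ q, C3 q, add_nonneg (mul_nonneg (Nat.cast_nonneg _) hC1)
    (Finset.sum_nonneg fun q _ => hC3 q), fun M t ht hM => ?_⟩
  have hSfin := Sh_fin (i := d) hk (fun _ => 1) (fun _ => le_rfl) t η
  set G := (tup d M).filter (fun n => Function.Injective n) with hG
  have hP : ∑ n ∈ G, (prodLaw unif).real (EvW k t η n) =
      ∑ n ∈ G, volume.real (cell k (fun _ : Fin d => 1) n t η) := by
    refine Finset.sum_congr rfl fun n hn => ?_
    rw [← hPV.1 k d (fun _ => 1) n (Finset.mem_filter.1 hn).2 t η]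
    unfold EvW
    simp only [Nat.cast_one, one_mul]
  rw [hP]
  have hle := sum_cell_le hPV hk (fun _ : Fin d => 1) (fun _ => le_rfl) M t η G
    (Finset.filter_subset _ _)
  rw [abs_sub_comm, abs_of_nonneg (sub_nonneg.2 hle)]
  rw [hPV.2 k d (fun _ => 1) M t η G (Finset.filter_subset _ _)]
  set U : Set (Fin d → ℝ) := {v : Fin d → ℝ | (∃ e ∈ G, ∀ l, v l ∈ Set.Icc (e l : ℝ) (e l + 1)) ∧
        |∑ l, ((1 : ℕ) : ℝ) * v l ^ k - t| ≤ η} with hU
  let A : Fin d → Set (Fin d → ℝ) := fun l =>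
    {v : Fin d → ℝ | (∀ j, 0 ≤ v j) ∧ v l ≤ 1 ∧ |∑ j, v j ^ k - t| ≤ η}
  let B : Fin d × Fin d → Set (Fin d → ℝ) := fun q =>
    if q.1 = q.2 then ∅ else
      {v : Fin d → ℝ | (∀ l, 0 ≤ v l) ∧ |v q.1 - v q.2| ≤ 1 ∧ |∑ l, v l ^ k - t| ≤ η}
  have hSU : Sh (i := d) k (fun _ => 1) t η ⊆ U ∪ ((⋃ l, A l) ∪ ⋃ q, B q) := by
    rintro v ⟨a1, a2⟩
    have a3 : |∑ l, v l ^ k - t| ≤ η := by simpa using a2
    by_cases c1 : ∃ l, v l ≤ 1
    · obtain ⟨l, hl⟩ := c1
      exact Or.inr (Or.inl (Set.mem_iUnion.2 ⟨l, a1, hl, a3⟩))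
    · by_cases c2 : ∃ q : Fin d × Fin d, q.1 ≠ q.2 ∧ |v q.1 - v q.2| ≤ 1
      · obtain ⟨q, hq, hq1⟩ := c2
        refine Or.inr (Or.inr (Set.mem_iUnion.2 ⟨q, ?_⟩))
        change v ∈ (if q.1 = q.2 then ∅ else _)
        rw [if_neg hq]
        exact ⟨a1, hq1, a3⟩
      · left
        push Not at c1 c2
        refine ⟨⟨fun l => ⌊v l⌋₊, ?_, fun l => ⟨Nat.floor_le (a1 l), (Nat.lt_floor_add_one _).le⟩⟩, a2⟩
        rw [hG, Finset.mem_filter]
        constructor
        · unfold tup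
          rw [Fintype.mem_piFinset]
          intro l
          rw [Finset.mem_Icc]
          constructor
          · rw [Nat.one_le_floor_iff]
            exact (c1 l).le
          · by_contra hc
            have hc' : M + 1 ≤ ⌊v l⌋₊ := by omega
            have h5 : ((M : ℝ) + 1) ≤ v l := by
              have := (Nat.le_floor_iff (a1 l)).1 hc'
              exact_mod_cast this
            have h6 : ((M : ℝ) + 1) ^ k ≤ v l ^ k := pow_le_pow_left₀ (by positivity) h5 k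
            have h7 : v l ^ k ≤ ∑ l, v l ^ k :=
              Finset.single_le_sum (f := fun l => v l ^ k) (fun j _ => pow_nonneg (a1 j) k)
                (Finset.mem_univ l)
            have := (abs_le.1 a3).2
            linarith
        · intro a b hab
          by_contra hne
          have h5 := c2 (a, b) hne
          have h6 := Nat.floor_le (a1 a)
          have h7 := Nat.floor_le (a1 b)
          have h8 := Nat.lt_floor_add_one (v a)
          have h9 := Nat.lt_floor_add_one (v b)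
          simp only at hab h5
          rw [hab] at h6 h8
          have : |v a - v b| ≤ 1 := by
            rw [abs_le]
            constructor <;> linarith
          linarith
  have hUS : U ⊆ Sh (i := d) k (fun _ => 1) t η := by
    rintro v ⟨⟨e, he, a1⟩, a2⟩
    exact ⟨fun l => le_trans (Nat.cast_nonneg _) (a1 l).1, a2⟩
  have hAS : ∀ l, A l ⊆ Sh (i := d) k (fun _ => 1) t η := by
    rintro l v ⟨a1, -, a3⟩
    exact ⟨a1, by simpa using a3⟩
  have hBS : ∀ q, B q ⊆ Sh (i := d) k (fun _ => 1) t η := by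
    intro q v hv
    change v ∈ (if q.1 = q.2 then ∅ else _) at hv
    split_ifs at hv with hq
    · exact absurd hv (Set.notMem_empty v)
    · exact ⟨hv.1, by simpa using hv.2.2⟩
  have hfin : volume (U ∪ ((⋃ l, A l) ∪ ⋃ q, B q)) ≠ ⊤ := by
    refine ne_top_of_le_ne_top hSfin (measure_mono ?_)
    refine Set.union_subset hUS (Set.union_subset (Set.iUnion_subset hAS) (Set.iUnion_subset hBS))
  have b1 : volume.real (Sh (i := d) k (fun _ => 1) t η) ≤
      volume.real U + (∑ l, volume.real (A l) + ∑ q, volume.real (B q)) := by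
    refine (measureReal_mono hSU hfin).trans ?_
    refine (measureReal_union_le _ _).trans ?_
    gcongr
    refine (measureReal_union_le _ _).trans ?_
    gcongr
    · exact measureReal_iUnion_fintype_le _
    · exact measureReal_iUnion_fintype_le _
  have b2 : ∑ l, volume.real (A l) ≤ d * C1 * (1 + t) ^ (((d : ℝ) - 1) / k - 1) := by
    refine (Finset.sum_le_sum fun l _ => h1 l t ht).trans ?_
    rw [Finset.sum_const, Finset.card_univ, Fintype.card_fin, nsmul_eq_mul, mul_assoc]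
  have b3 : ∑ q, volume.real (B q) ≤ (∑ q, C3 q) * (1 + t) ^ (((d : ℝ) - 1) / k - 1) := by
    rw [Finset.sum_mul]
    refine Finset.sum_le_sum fun q _ => ?_
    by_cases hq : q.1 = q.2
    · have : B q = ∅ := if_pos hq
      rw [this, measureReal_empty]
      exact mul_nonneg (hC3 q) (Real.rpow_nonneg (by linarith) _)
    · have : B q = {v : Fin d → ℝ | (∀ l, 0 ≤ v l) ∧ |v q.1 - v q.2| ≤ 1 ∧
          |∑ l, v l ^ k - t| ≤ η} := if_neg hq
      rw [this]
      have := h3 q hq t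
      rwa [abs_of_nonneg ht] at this
  rw [add_mul]
  linarith

end ME

theorem t_ME : S_V1 → S_V2 → S_V3 → S_PV → S_ME := by
  intro hV1 hV2 hV3 hPV k d hk hd η hη ε hε
  classical
  obtain ⟨C1, hC1, h1⟩ := ME.inj hV1 hV3 hPV k d hk hd η hη
  obtain ⟨C2, hC2, h2⟩ := ME.noninj hV1 hPV k d hk hd η hη
  obtain ⟨c, hc⟩ : ∃ c, c = 2 * η * Real.Gamma (1 + 1 / k) ^ d / Real.Gamma ((d : ℝ) / k) := ⟨_, rfl⟩
  have hk0 : (0 : ℝ) < k := by exact_mod_cast hk
  have hdk : (k : ℝ) + 1 ≤ d := by exact_mod_cast hd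
  -- the error exponent
  obtain ⟨β, hβ⟩ : ∃ β, β = ((d : ℝ) - 1) / k - 1 := ⟨_, rfl⟩
  have hβ0 : 0 ≤ β := by
    rw [hβ, sub_nonneg, le_div_iff₀ hk0]
    linarith
  have hαβ : (d : ℝ) / k - 1 = β + 1 / k := by
    rw [hβ]
    field_simp
    ring
  have hlim : Filter.Tendsto (fun t : ℝ => (C1 + C2) * 2 ^ β * t ^ (-(1 / (k : ℝ)))) Filter.atTop
      (nhds 0) := by
    have := (tendsto_rpow_neg_atTop (y := 1 / (k : ℝ)) (by positivity)).const_mul
      ((C1 + C2) * 2 ^ β)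
    simpa using this
  have e1 := hV2 k d hk hd η hη
  rw [← hc] at e1
  have e2 := (Metric.tendsto_nhds.1 e1) (ε / 2) (by positivity)
  have e3 := (Metric.tendsto_nhds.1 hlim) (ε / 2) (by positivity)
  obtain ⟨t₀, ht₀⟩ := Filter.eventually_atTop.1 (e2.and e3)
  refine ⟨max t₀ 1, le_max_right _ _, fun t ht M hM => ?_⟩
  have ht1 : 1 ≤ t := le_trans (le_max_right _ _) ht
  have ht0 : 0 < t := by linarith
  obtain ⟨f1, f2⟩ := ht₀ t (le_trans (le_max_left _ _) ht)
  have g1 := h1 M t ht0.le hM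
  have g2 := h2 M t ht0.le
  have g3 : 0 ≤ ∑ n ∈ (tup d M).filter (fun n => ¬ Function.Injective n),
      (prodLaw unif).real (EvW k t η n) := Finset.sum_nonneg fun _ _ => measureReal_nonneg
  rw [← hβ] at g1 g2
  rw [← hc]
  have hsplit := Finset.sum_filter_add_sum_filter_not (tup d M) (fun n => Function.Injective n)
    (fun n => (prodLaw unif).real (EvW k t η n))
  have htα : 0 < t ^ ((d : ℝ) / k - 1) := Real.rpow_pos_of_pos ht0 _
  have g4 : |volume.real (ME.Sh (i := d) k (fun _ => 1) t η) - c * t ^ ((d : ℝ) / k - 1)| ≤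
      ε / 2 * t ^ ((d : ℝ) / k - 1) := by
    have hS : ME.Sh (i := d) k (fun _ => 1) t η =
        {v : Fin d → ℝ | (∀ l, 0 ≤ v l) ∧ |∑ l, v l ^ k - t| ≤ η} := by
      unfold ME.Sh
      simp
    rw [hS]
    rw [Real.dist_eq] at f1
    have : volume.real {v : Fin d → ℝ | (∀ l, 0 ≤ v l) ∧ |∑ l, v l ^ k - t| ≤ η} -
        c * t ^ ((d : ℝ) / k - 1) =
        (volume.real {v : Fin d → ℝ | (∀ l, 0 ≤ v l) ∧ |∑ l, v l ^ k - t| ≤ η} /
          t ^ ((d : ℝ) / k - 1) - c) * t ^ ((d : ℝ) / k - 1) := by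
      field_simp
    rw [this, abs_mul, abs_of_pos htα]
    exact mul_le_mul_of_nonneg_right f1.le htα.le
  have g5 : (C1 + C2) * (1 + t) ^ β ≤ ε / 2 * t ^ ((d : ℝ) / k - 1) := by
    rw [Real.dist_eq, sub_zero] at f2
    have f3 := (le_abs_self _).trans f2.le
    have f4 : (1 + t) ^ β ≤ 2 ^ β * t ^ β := by
      rw [← Real.mul_rpow (by norm_num) ht0.le]
      exact Real.rpow_le_rpow (by linarith) (by linarith) hβ0
    have f5 : t ^ β = t ^ (-(1 / (k : ℝ))) * t ^ ((d : ℝ) / k - 1) := by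
      rw [← Real.rpow_add ht0, hαβ]
      congr 1
      ring
    calc (C1 + C2) * (1 + t) ^ β ≤ (C1 + C2) * (2 ^ β * t ^ β) :=
          mul_le_mul_of_nonneg_left f4 (by positivity)
      _ = ((C1 + C2) * 2 ^ β * t ^ (-(1 / (k : ℝ)))) * t ^ ((d : ℝ) / k - 1) := by
          rw [f5]; ring
      _ ≤ ε / 2 * t ^ ((d : ℝ) / k - 1) := mul_le_mul_of_nonneg_right f3 htα.le
  rw [← hsplit]
  rw [add_mul] at g5
  rw [abs_le] at g1 g4 ⊢
  constructor <;> linarith [g1.1, g1.2, g4.1, g4.2]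

end

end Pool.Agent.U160.WP
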