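import Pool.Agent.U160.WP.Stm

set_option autoImplicit false

/-!
# Project WP, package MOM: the moment inequality
-/

namespace Pool.Agent.U160.WP

open MeasureTheory ProbabilityTheory Finset

namespace MOMAux

/-- Ore: a graph without isolated vertices has a dominating set with at most half of the vertices -/
theorem ore {q : ℕ} (adj : Fin q → Fin q → Prop) (hs : ∀ u v, adj u v → adj v u)
    (hni : ∀ v, ∃ u, u ≠ v ∧ adj v u) :
    ∃ D : Finset (Fin q), 2 * D.card ≤ q ∧ ∀ v, v ∉ D → ∃ u ∈ D, adj v u := by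
  classical
  obtain ⟨D, hD, hmin⟩ := Finset.exists_min_image
    (univ.filter fun D : Finset (Fin q) => ∀ v, v ∉ D → ∃ u ∈ D, adj v u) Finset.card
    ⟨univ, by simp⟩
  rw [mem_filter] at hD
  have hdom := hD.2
  have hcdom : ∀ v, v ∉ Dᶜ → ∃ u ∈ Dᶜ, adj v u := by
    intro v hv
    rw [mem_compl, not_not] at hv
    by_contra hno
    push Not at hno
    have hd' : ∀ w, w ∉ D.erase v → ∃ u ∈ D.erase v, adj w u := by
      intro w hw
      by_cases hwv : w = v
      · subst hwv
        obtain ⟨u, huw, hu⟩ := hni w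
        refine ⟨u, mem_erase.2 ⟨huw, ?_⟩, hu⟩
        by_contra huD
        exact hno u (mem_compl.2 huD) hu
      · have hwD : w ∉ D := fun h => hw (mem_erase.2 ⟨hwv, h⟩)
        obtain ⟨u, hu, hadj⟩ := hdom w hwD
        refine ⟨u, mem_erase.2 ⟨?_, hu⟩, hadj⟩
        rintro rfl
        exact hno w (mem_compl.2 hwD) (hs _ _ hadj)
    have h1 := hmin (D.erase v) (mem_filter.2 ⟨mem_univ _, hd'⟩)
    have h2 := card_erase_lt_of_mem hv
    omega
  refine ⟨D, ?_, hdom⟩
  have h1 := hmin Dᶜ (mem_filter.2 ⟨mem_univ _, hcdom⟩)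
  have h2 := card_add_card_compl D
  rw [Fintype.card_fin] at h2
  omega

/-- a permutation which lists `D` first -/
theorem perm {q : ℕ} (D : Finset (Fin q)) :
    ∃ π : Equiv.Perm (Fin q), ∀ l l', π l ∉ D → π l' ∈ D → l' < l := by
  classical
  have hk : D.card ≤ q := by simpa using card_le_univ D
  let e0 : {l : Fin q // (l : ℕ) < D.card} ≃ Fin D.card :=
    { toFun := fun l => ⟨l.1, l.2⟩
      invFun := fun i => ⟨⟨i.1, lt_of_lt_of_le i.2 hk⟩, i.2⟩
      left_inv := fun l => rfl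
      right_inv := fun i => rfl }
  let e : {l : Fin q // (l : ℕ) < D.card} ≃ {l : Fin q // l ∈ D} := e0.trans D.equivFin.symm
  refine ⟨e.extendSubtype, fun l l' h h' => ?_⟩
  have h1 : ¬ (l : ℕ) < D.card := fun h2 => h (e.extendSubtype_mem l h2)
  have h2 : (l' : ℕ) < D.card := by
    by_contra h3
    exact (e.extendSubtype_not_mem l' h3) h'
  rw [Fin.lt_def]
  omega

/-- after a permutation there are at most `m` roots -/
theorem cover {ι : Type} {m : ℕ} (supp : ι → Finset ℕ) (σ : Fin (2 * m) → ι)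
    (hg : ∀ l, ∃ l', l' ≠ l ∧ ¬ Disjoint (supp (σ l)) (supp (σ l'))) :
    ∃ (π : Equiv.Perm (Fin (2 * m))) (R : Finset (Fin (2 * m))), R.card ≤ m ∧
      Roots supp R (fun l => σ (π l)) := by
  classical
  obtain ⟨D, hD, hdom⟩ := ore (fun l l' => ¬ Disjoint (supp (σ l)) (supp (σ l')))
    (fun u v h h' => h h'.symm) hg
  obtain ⟨π, hπ⟩ := perm D
  refine ⟨π, univ.filter fun l => Disjoint (supp (σ (π l))) (before supp (fun l => σ (π l)) l),
    ?_, fun l => by simp⟩
  have hsub : (univ.filter fun l => Disjoint (supp (σ (π l))) (before supp (fun l => σ (π l)) l)) ⊆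
      D.map π.symm.toEmbedding := by
    intro l hl
    rw [mem_filter] at hl
    have hlD : π l ∈ D := by
      by_contra hno
      obtain ⟨u, hu, hadj⟩ := hdom _ hno
      apply hadj
      have hlt : π.symm u < l := hπ l (π.symm u) hno (by rwa [Equiv.apply_symm_apply])
      refine hl.2.mono_right ?_
      have hsub2 : supp (σ u) ⊆ before supp (fun l => σ (π l)) l := by
        intro n hn
        rw [before, mem_biUnion]
        exact ⟨π.symm u, mem_filter.2 ⟨mem_univ _, hlt⟩, by simpa using hn⟩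
      exact hsub2
    rw [mem_map_equiv]
    simpa using hlD
  have h1 := card_le_card hsub
  rw [card_map] at h1
  omega

/-- functions of disjoint finite sets of coordinates are independent -/
theorem indep (ν : Measure ℝ) [IsProbabilityMeasure ν] {f g : (ℕ → ℝ) → ℝ} (hf : Measurable f)
    (hg : Measurable g) {T1 T2 : Finset ℕ} (hd : Disjoint T1 T2)
    (hfT : ∀ x y : ℕ → ℝ, (∀ n ∈ T1, x n = y n) → f x = f y)
    (hgT : ∀ x y : ℕ → ℝ, (∀ n ∈ T2, x n = y n) → g x = g y) :
    ∫ y, f y * g y ∂(prodLaw ν) = (∫ y, f y ∂(prodLaw ν)) * ∫ y, g y ∂(prodLaw ν) := by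
  classical
  have hi : iIndepFun (fun (n : ℕ) (y : ℕ → ℝ) => y n) (prodLaw ν) :=
    iIndepFun_infinitePi (P := fun _ : ℕ => ν) (X := fun _ x => x) (fun _ => measurable_id)
  have h2 := hi.indepFun_finset T1 T2 hd (fun n => measurable_pi_apply n)
  let ext : (T : Finset ℕ) → (T → ℝ) → ℕ → ℝ := fun T z n => if h : n ∈ T then z ⟨n, h⟩ else 0
  have hext : ∀ T, Measurable (ext T) := by
    intro T
    refine measurable_pi_iff.2 fun n => ?_
    by_cases h : n ∈ T
    · have : (fun z => ext T z n) = fun z : T → ℝ => z ⟨n, h⟩ := by funext z; simp [ext, h]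
      rw [this]
      exact measurable_pi_apply _
    · have : (fun z => ext T z n) = fun _ : T → ℝ => (0 : ℝ) := by funext z; simp [ext, h]
      rw [this]
      exact measurable_const
  have hf' : ((fun z => f (ext T1 z)) ∘ fun (y : ℕ → ℝ) (i : T1) => y i) = f := by
    funext y
    refine hfT _ _ fun n hn => ?_
    simp [ext, hn]
  have hg' : ((fun z => g (ext T2 z)) ∘ fun (y : ℕ → ℝ) (i : T2) => y i) = g := by
    funext y
    refine hgT _ _ fun n hn => ?_
    simp [ext, hn]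
  have h3 := h2.comp (hf.comp (hext T1)) (hg.comp (hext T2))
  have h4 : IndepFun f g (prodLaw ν) := by
    have h5 : IndepFun ((fun z => f (ext T1 z)) ∘ fun (y : ℕ → ℝ) (i : T1) => y i)
        ((fun z => g (ext T2 z)) ∘ fun (y : ℕ → ℝ) (i : T2) => y i) (prodLaw ν) := h3
    rwa [hf', hg'] at h5
  exact h4.integral_fun_mul_eq_mul_integral hf.aestronglyMeasurable hg.aestronglyMeasurable

theorem num {E0 E1 : ℝ} (h1 : 0 ≤ E1) (h : E1 ≤ E0) {m r : ℕ} (hr : r ≤ m) :
    E0 ^ r * E1 ^ (2 * m - r) ≤ (E0 * E1) ^ m := by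
  have h0 : 0 ≤ E0 := h1.trans h
  have e1 : 2 * m - r = m + (m - r) := by omega
  have e2 : E0 ^ m = E0 ^ r * E0 ^ (m - r) := by rw [← pow_add]; congr 1; omega
  rw [e1, pow_add, mul_pow, e2]
  have h2 : E1 ^ (m - r) ≤ E0 ^ (m - r) := pow_le_pow_left₀ h1 h _
  calc E0 ^ r * (E1 ^ m * E1 ^ (m - r)) = E0 ^ r * E1 ^ m * E1 ^ (m - r) := by ring
    _ ≤ E0 ^ r * E1 ^ m * E0 ^ (m - r) := mul_le_mul_of_nonneg_left h2 (by positivity)
    _ = _ := by ring

end MOMAux

open MOMAux in
open scoped Classical in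
theorem t_MOM : S_MOMa → S_MOM := by
  intro hMa m d
  refine ⟨((2 * m).factorial : ℝ) * (2 ^ (2 * m) * 2 ^ (2 * m)), by positivity, ?_⟩
  intro ν _ ι F supp A E0 E1 hA hcard hdep hE1 hE hE0 hT
  have hprob : IsProbabilityMeasure (prodLaw ν) := by unfold prodLaw; infer_instance
  obtain ⟨p, hp⟩ : ∃ p : ι → ℝ, p = fun i => (prodLaw ν).real (A i) := ⟨_, rfl⟩
  obtain ⟨ind, hind⟩ : ∃ ind : ι → (ℕ → ℝ) → ℝ, ind = fun i y => (A i).indicator (fun _ => (1 : ℝ)) y :=
    ⟨_, rfl⟩
  have hp0 : ∀ i, 0 ≤ p i := fun i => by rw [hp]; exact measureReal_nonneg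
  have hp1 : ∀ i, p i ≤ 1 := fun i => by rw [hp]; exact measureReal_le_one
  have hi0 : ∀ i y, 0 ≤ ind i y := fun i y => by
    rw [hind]; exact Set.indicator_nonneg (fun _ _ => zero_le_one) _
  have hi1 : ∀ i y, ind i y ≤ 1 := fun i y => by
    rw [hind]
    exact Set.indicator_le' (fun _ _ => le_rfl) (fun _ _ => zero_le_one) y
  have him : ∀ i ∈ F, Measurable (ind i) := fun i hi => by
    rw [hind]; exact measurable_const.indicator (hA i hi)
  have hint : ∀ i ∈ F, ∫ y, ind i y ∂(prodLaw ν) = p i := by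
    intro i hi
    rw [hind, hp]
    show ∫ y, (A i).indicator (fun _ => (1 : ℝ)) y ∂(prodLaw ν) = _
    rw [integral_indicator (hA i hi), setIntegral_const, smul_eq_mul, mul_one]
  have hidep : ∀ i ∈ F, ∀ x y : ℕ → ℝ, (∀ n ∈ supp i, x n = y n) → ind i x = ind i y := by
    intro i hi x y hxy
    have h1 := hdep i hi x y hxy
    rw [hind]
    by_cases hx : x ∈ A i
    · simp [hx, h1.1 hx]
    · have hy : y ∉ A i := fun h => hx (h1.2 h)
      simp [hx, hy]
  have hiint : ∀ i ∈ F, Integrable (ind i) (prodLaw ν) := fun i hi =>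
    Integrable.of_bound (him i hi).aestronglyMeasurable 1 (Filter.Eventually.of_forall fun y => by
      rw [Real.norm_of_nonneg (hi0 i y)]; exact hi1 i y)
  have hEN : ∫ y', Nev F A y' ∂(prodLaw ν) = ∑ i ∈ F, p i := by
    have e : Nev F A = fun y => ∑ i ∈ F, ind i y := by
      funext y
      rw [hind]
      rfl
    rw [e, integral_finsetSum _ fun i hi => hiint i hi]
    exact Finset.sum_congr rfl hint
  -- the tuples
  obtain ⟨P, hP⟩ : ∃ P : Finset (Fin (2 * m) → ι), P = Fintype.piFinset fun _ : Fin (2 * m) => F :=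
    ⟨_, rfl⟩
  have hPm : ∀ σ : Fin (2 * m) → ι, σ ∈ P ↔ ∀ l, σ l ∈ F := fun σ => by
    rw [hP]; exact Fintype.mem_piFinset
  have hXm : ∀ i ∈ F, Measurable fun y => ind i y - p i := fun i hi => (him i hi).sub_const _
  have hexp : ∀ y, (Nev F A y - ∫ y', Nev F A y' ∂(prodLaw ν)) ^ (2 * m) =
      ∑ σ ∈ P, ∏ l, (ind (σ l) y - p (σ l)) := by
    intro y
    have e : Nev F A y - ∫ y', Nev F A y' ∂(prodLaw ν) = ∑ i ∈ F, (ind i y - p i) := by
      rw [hEN, Finset.sum_sub_distrib, hind]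
      rfl
    rw [e, hP, Finset.sum_pow']
  have hprodm : ∀ σ ∈ P, ∀ s : Finset (Fin (2 * m)),
      Measurable fun y => ∏ l ∈ s, (ind (σ l) y - p (σ l)) := fun σ hσ s =>
    Finset.measurable_fun_prod _ fun l _ => hXm _ ((hPm σ).1 hσ l)
  have hprodi : ∀ σ ∈ P, Integrable (fun y => ∏ l, (ind (σ l) y - p (σ l))) (prodLaw ν) := by
    intro σ hσ
    refine Integrable.of_bound (hprodm σ hσ univ).aestronglyMeasurable 1
      (Filter.Eventually.of_forall fun y => ?_)
    rw [Real.norm_eq_abs, Finset.abs_prod]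
    refine Finset.prod_le_one (fun l _ => abs_nonneg _) fun l _ => ?_
    rw [abs_le]
    constructor <;> linarith [hi0 (σ l) y, hi1 (σ l) y, hp0 (σ l), hp1 (σ l)]
  -- the majorant
  obtain ⟨V, hV⟩ : ∃ V : (Fin (2 * m) → ι) → ℝ,
      V = fun σ => ∫ y, ∏ l, (ind (σ l) y + p (σ l)) ∂(prodLaw ν) := ⟨_, rfl⟩
  have hV0 : ∀ σ, 0 ≤ V σ := fun σ => by
    rw [hV]
    exact integral_nonneg fun y => Finset.prod_nonneg fun l _ => add_nonneg (hi0 _ _) (hp0 _)
  have hVperm : ∀ (σ : Fin (2 * m) → ι) (π : Equiv.Perm (Fin (2 * m))),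
      V (fun l => σ (π l)) = V σ := by
    intro σ π
    rw [hV]
    refine integral_congr_ae (Filter.Eventually.of_forall fun y => ?_)
    exact Equiv.prod_comp π fun l => ind (σ l) y + p (σ l)
  have hVi : ∀ σ ∈ P, Integrable (fun y => ∏ l, (ind (σ l) y + p (σ l))) (prodLaw ν) := by
    intro σ hσ
    refine Integrable.of_bound (C := 2 ^ (2 * m)) (Finset.measurable_fun_prod _ fun l _ =>
      (him _ ((hPm σ).1 hσ l)).add_const _).aestronglyMeasurable
      (Filter.Eventually.of_forall fun y => ?_)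
    rw [Real.norm_eq_abs, Finset.abs_prod]
    calc ∏ l, |ind (σ l) y + p (σ l)| ≤ ∏ _l : Fin (2 * m), (2 : ℝ) := by
          refine Finset.prod_le_prod (fun l _ => abs_nonneg _) fun l _ => ?_
          rw [abs_le]
          constructor <;> linarith [hi0 (σ l) y, hi1 (σ l) y, hp0 (σ l), hp1 (σ l)]
      _ = 2 ^ (2 * m) := by simp
  have hVsum : ∀ σ ∈ P, V σ = ∑ S : Finset (Fin (2 * m)),
      (∫ y, ∏ l ∈ S, (A (σ l)).indicator (fun _ => (1 : ℝ)) y ∂(prodLaw ν)) *
        ∏ l ∈ Sᶜ, (prodLaw ν).real (A (σ l)) := by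
    intro σ hσ
    rw [hV]
    show ∫ y, ∏ l, (ind (σ l) y + p (σ l)) ∂(prodLaw ν) = _
    simp only [Fintype.prod_add]
    rw [integral_finsetSum]
    · refine Finset.sum_congr rfl fun S _ => ?_
      rw [integral_mul_const, hind, hp]
    · intro S _
      refine Integrable.mul_const ?_ _
      refine Integrable.of_bound (C := 1) (Finset.measurable_fun_prod _ fun l _ =>
        (him _ ((hPm σ).1 hσ l))).aestronglyMeasurable (Filter.Eventually.of_forall fun y => ?_)
      rw [Real.norm_eq_abs, Finset.abs_prod]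
      refine Finset.prod_le_one (fun l _ => abs_nonneg _) fun l _ => ?_
      rw [abs_of_nonneg (hi0 _ _)]
      exact hi1 _ _
  -- the vanishing terms
  have hvan : ∀ σ ∈ P, (¬ ∀ l, ∃ l', l' ≠ l ∧ ¬ Disjoint (supp (σ l)) (supp (σ l'))) →
      ∫ y, ∏ l, (ind (σ l) y - p (σ l)) ∂(prodLaw ν) = 0 := by
    intro σ hσ hbad
    push Not at hbad
    obtain ⟨l0, hl0⟩ := hbad
    have hσF := (hPm σ).1 hσ
    have e : ∀ y, ∏ l, (ind (σ l) y - p (σ l)) = (ind (σ l0) y - p (σ l0)) *
        ∏ l ∈ univ.erase l0, (ind (σ l) y - p (σ l)) := fun y =>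
      (Finset.mul_prod_erase univ (fun l => ind (σ l) y - p (σ l)) (mem_univ l0)).symm
    simp only [e]
    rw [indep ν (hXm _ (hσF l0)) (hprodm σ hσ _) (T1 := supp (σ l0))
      (T2 := (univ.erase l0).biUnion fun l => supp (σ l))]
    · rw [integral_sub (hiint _ (hσF l0)) (integrable_const _), hint _ (hσF l0), integral_const]
      simp
    · rw [Finset.disjoint_biUnion_right]
      intro l hl
      exact hl0 l (Finset.ne_of_mem_erase hl)
    · intro x y hxy
      rw [hidep _ (hσF l0) x y hxy]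
    · intro x y hxy
      refine Finset.prod_congr rfl fun l hl => ?_
      rw [hidep _ (hσF l) x y fun n hn => hxy n (mem_biUnion.2 ⟨l, hl, hn⟩)]
  -- the terms with few roots
  obtain ⟨Rm, hRm⟩ : ∃ Rm : Finset (Finset (Fin (2 * m))), Rm = univ.filter fun R => R.card ≤ m :=
    ⟨_, rfl⟩
  have hterm : ∀ σ ∈ P, ∫ y, ∏ l, (ind (σ l) y - p (σ l)) ∂(prodLaw ν) ≤
      ∑ π : Equiv.Perm (Fin (2 * m)), ∑ R ∈ Rm,
        if Roots supp R (fun l => σ (π l)) then V (fun l => σ (π l)) else 0 := by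
    intro σ hσ
    have hnn : ∀ (π : Equiv.Perm (Fin (2 * m))) (R : Finset (Fin (2 * m))),
        0 ≤ (if Roots supp R (fun l => σ (π l)) then V (fun l => σ (π l)) else 0) := by
      intro π R
      split_ifs
      · exact hV0 _
      · exact le_rfl
    by_cases hgood : ∀ l, ∃ l', l' ≠ l ∧ ¬ Disjoint (supp (σ l)) (supp (σ l'))
    · obtain ⟨π, R, hR, hroots⟩ := cover supp σ hgood
      have h1 : ∫ y, ∏ l, (ind (σ l) y - p (σ l)) ∂(prodLaw ν) ≤ V σ := by
        rw [hV]
        refine integral_mono (hprodi σ hσ) (hVi σ hσ) fun y => ?_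
        refine (le_abs_self _).trans ?_
        rw [Finset.abs_prod]
        refine Finset.prod_le_prod (fun l _ => abs_nonneg _) fun l _ => ?_
        rw [abs_le]
        constructor <;> linarith [hi0 (σ l) y, hi1 (σ l) y, hp0 (σ l), hp1 (σ l)]
      refine h1.trans ?_
      rw [← hVperm σ π]
      refine le_trans ?_ (Finset.single_le_sum (f := fun π : Equiv.Perm (Fin (2 * m)) => ∑ R ∈ Rm,
        if Roots supp R (fun l => σ (π l)) then V (fun l => σ (π l)) else 0)
        (fun π _ => Finset.sum_nonneg fun R _ => hnn π R) (mem_univ π))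
      refine le_trans ?_ (Finset.single_le_sum (f := fun R : Finset (Fin (2 * m)) =>
        if Roots supp R (fun l => σ (π l)) then V (fun l => σ (π l)) else 0)
        (fun R _ => hnn π R) (by rw [hRm]; exact mem_filter.2 ⟨mem_univ _, hR⟩ : R ∈ Rm))
      rw [if_pos hroots]
    · rw [hvan σ hσ hgood]
      exact Finset.sum_nonneg fun π _ => Finset.sum_nonneg fun R _ => hnn π R
  have hreindex : ∀ (π : Equiv.Perm (Fin (2 * m))) (R : Finset (Fin (2 * m))),
      ∑ σ ∈ P, (if Roots supp R (fun l => σ (π l)) then V (fun l => σ (π l)) else 0) =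
        ∑ σ ∈ P, (if Roots supp R σ then V σ else 0) := by
    intro π R
    refine Finset.sum_nbij' (fun σ l => σ (π l)) (fun σ l => σ (π.symm l)) ?_ ?_ ?_ ?_ ?_
    · intro σ hσ
      rw [hPm] at hσ ⊢
      exact fun l => hσ _
    · intro σ hσ
      rw [hPm] at hσ ⊢
      exact fun l => hσ _
    · intro σ _
      funext l
      simp
    · intro σ _
      funext l
      simp
    · intro σ _
      rfl
  have hroot : ∀ R ∈ Rm, ∑ σ ∈ P, (if Roots supp R σ then V σ else 0) ≤
      2 ^ (2 * m) * (E0 * E1) ^ m := by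
    intro R hR
    have hRc : R.card ≤ m := by rw [hRm] at hR; exact (mem_filter.1 hR).2
    rw [← Finset.sum_filter]
    calc ∑ σ ∈ P.filter (fun σ => Roots supp R σ), V σ
        = ∑ σ ∈ P.filter (fun σ => Roots supp R σ), ∑ S : Finset (Fin (2 * m)),
          (∫ y, ∏ l ∈ S, (A (σ l)).indicator (fun _ => (1 : ℝ)) y ∂(prodLaw ν)) *
            ∏ l ∈ Sᶜ, (prodLaw ν).real (A (σ l)) :=
          Finset.sum_congr rfl fun σ hσ => hVsum σ (mem_filter.1 hσ).1
      _ = ∑ S : Finset (Fin (2 * m)), ∑ σ ∈ P.filter (fun σ => Roots supp R σ),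
          (∫ y, ∏ l ∈ S, (A (σ l)).indicator (fun _ => (1 : ℝ)) y ∂(prodLaw ν)) *
            ∏ l ∈ Sᶜ, (prodLaw ν).real (A (σ l)) := Finset.sum_comm
      _ ≤ ∑ S : Finset (Fin (2 * m)), (E0 * E1) ^ m := by
          refine Finset.sum_le_sum fun S _ => ?_
          refine le_trans ?_ (num hE1 hE hRc)
          have := hMa d (2 * m) ν ι F supp A E0 E1 hA hcard hdep hE1 hE0 hT R S
          rw [hP]
          exact this
      _ = 2 ^ (2 * m) * (E0 * E1) ^ m := by
          rw [Finset.sum_const, nsmul_eq_mul, Finset.card_univ, Fintype.card_finset,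
            Fintype.card_fin]
          push_cast
          ring
  -- the sum
  simp only [hexp]
  rw [integral_finsetSum _ hprodi]
  have hE0' : 0 ≤ E0 := hE1.trans hE
  have hEE : 0 ≤ (E0 * E1) ^ m := by positivity
  calc ∑ σ ∈ P, ∫ y, ∏ l, (ind (σ l) y - p (σ l)) ∂(prodLaw ν)
      ≤ ∑ σ ∈ P, ∑ π : Equiv.Perm (Fin (2 * m)), ∑ R ∈ Rm,
        (if Roots supp R (fun l => σ (π l)) then V (fun l => σ (π l)) else 0) :=
        Finset.sum_le_sum hterm
    _ = ∑ π : Equiv.Perm (Fin (2 * m)), ∑ R ∈ Rm, ∑ σ ∈ P,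
        (if Roots supp R (fun l => σ (π l)) then V (fun l => σ (π l)) else 0) := by
        rw [Finset.sum_comm]
        exact Finset.sum_congr rfl fun π _ => Finset.sum_comm
    _ = ∑ π : Equiv.Perm (Fin (2 * m)), ∑ R ∈ Rm, ∑ σ ∈ P, (if Roots supp R σ then V σ else 0) :=
        Finset.sum_congr rfl fun π _ => Finset.sum_congr rfl fun R _ => hreindex π R
    _ ≤ ∑ π : Equiv.Perm (Fin (2 * m)), ∑ R ∈ Rm, 2 ^ (2 * m) * (E0 * E1) ^ m :=
        Finset.sum_le_sum fun π _ => Finset.sum_le_sum hroot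
    _ ≤ ∑ π : Equiv.Perm (Fin (2 * m)), 2 ^ (2 * m) * (2 ^ (2 * m) * (E0 * E1) ^ m) := by
        refine Finset.sum_le_sum fun π _ => ?_
        rw [Finset.sum_const, nsmul_eq_mul]
        refine mul_le_mul_of_nonneg_right ?_ (by positivity)
        have h1 : Rm.card ≤ 2 ^ (2 * m) := by
          have h2 := Finset.card_le_univ Rm
          rwa [Fintype.card_finset, Fintype.card_fin] at h2
        exact_mod_cast h1
    _ = ((2 * m).factorial : ℝ) * (2 ^ (2 * m) * 2 ^ (2 * m)) * (E0 * E1) ^ m := by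
        rw [Finset.sum_const, nsmul_eq_mul, Finset.card_univ, Fintype.card_perm, Fintype.card_fin]
        ring

end Pool.Agent.U160.WP
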