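import Pool.Agent.U160.WP.Stm

set_option autoImplicit false

namespace Pool.Agent.U160.WP

open MeasureTheory ProbabilityTheory Finset

noncomputable section

namespace MOMaAux

open scoped Classical in
/-- mixing two sequences -/
def mix (T : Finset ℕ) (p : (ℕ → ℝ) × (ℕ → ℝ)) : ℕ → ℝ := fun n => if n ∈ T then p.1 n else p.2 n

lemma measurable_mix (T : Finset ℕ) : Measurable (mix T) := by
  unfold mix
  refine measurable_pi_lambda _ fun n => ?_
  by_cases h : n ∈ T
  · simp only [h, if_true]; fun_prop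
  · simp only [h, if_false]; fun_prop

instance prodLaw_prob (ν : Measure ℝ) [IsProbabilityMeasure ν] : IsProbabilityMeasure (prodLaw ν) := by
  unfold prodLaw; infer_instance

lemma map_mix (ν : Measure ℝ) [IsProbabilityMeasure ν] (T : Finset ℕ) :
    ((prodLaw ν).prod (prodLaw ν)).map (mix T) = prodLaw ν := by
  classical
  unfold prodLaw
  refine Measure.eq_infinitePi _ ?_
  intro s t ht
  have hms : MeasurableSet (Set.pi (s : Set ℕ) t) := MeasurableSet.pi s.countable_toSet fun i hi => ht i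
  rw [Measure.map_apply (measurable_mix T) hms]
  have hpre : mix T ⁻¹' (Set.pi (s : Set ℕ) t) =
      (Set.pi ((s.filter (· ∈ T) : Finset ℕ) : Set ℕ) t) ×ˢ (Set.pi ((s.filter (· ∉ T) : Finset ℕ) : Set ℕ) t) := by
    ext p
    simp only [Set.mem_preimage, Set.mem_pi, Set.mem_prod, mix, Finset.coe_filter, Set.mem_ofPred_eq,
      Finset.mem_coe]
    constructor
    · intro h
      refine ⟨fun i hi => ?_, fun i hi => ?_⟩
      · have := h i hi.1
        simpa [hi.2] using this
      · have := h i hi.1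
        simpa [hi.2] using this
    · rintro ⟨h1, h2⟩ i hi
      by_cases hT : i ∈ T
      · simpa [hT] using h1 i ⟨hi, hT⟩
      · simpa [hT] using h2 i ⟨hi, hT⟩
  rw [hpre, Measure.prod_prod, Measure.infinitePi_pi, Measure.infinitePi_pi]
  · rw [Finset.prod_filter_mul_prod_filter_not]
  · intro i hi; exact ht i
  · intro i hi; exact ht i

lemma cond_eq (ν : Measure ℝ) [IsProbabilityMeasure ν] (A : Set (ℕ → ℝ)) (hA : MeasurableSet A) (T : Finset ℕ)
    (x : ℕ → ℝ) : cond ν A T x = ∫ y, A.indicator (fun _ => (1 : ℝ)) (mix T (x, y)) ∂(prodLaw ν) := by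
  have hm : Measurable fun y : ℕ → ℝ => mix T (x, y) := (measurable_mix T).comp (by fun_prop)
  have : (fun y => A.indicator (fun _ => (1 : ℝ)) (mix T (x, y))) =
      ((fun y => mix T (x, y)) ⁻¹' A).indicator (fun _ => (1 : ℝ)) := by
    ext y
    by_cases h : mix T (x, y) ∈ A
    · rw [Set.indicator_of_mem h, Set.indicator_of_mem (by exact h)]
    · rw [Set.indicator_of_notMem h, Set.indicator_of_notMem (by exact h)]
  rw [this, integral_indicator (hm hA)]
  simp only [integral_const, smul_eq_mul, mul_one, measureReal_restrict_apply_univ]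
  rfl

/-- KEY LEMMA -/
lemma key (ν : Measure ℝ) [IsProbabilityMeasure ν] (A : Set (ℕ → ℝ)) (hA : MeasurableSet A) (T : Finset ℕ)
    (g : (ℕ → ℝ) → ℝ) (hg : Measurable g) (hb : ∀ x, ‖g x‖ ≤ 1)
    (hT : ∀ x y : ℕ → ℝ, (∀ n ∈ T, x n = y n) → g x = g y) :
    ∫ y, g y * A.indicator (fun _ => (1 : ℝ)) y ∂(prodLaw ν) = ∫ x, g x * cond ν A T x ∂(prodLaw ν) := by
  classical
  have hind : Measurable (A.indicator (fun _ => (1 : ℝ))) := measurable_const.indicator hA
  have hF : Measurable fun y => g y * A.indicator (fun _ => (1 : ℝ)) y := hg.mul hind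
  have h1 : ∫ y, g y * A.indicator (fun _ => (1 : ℝ)) y ∂(prodLaw ν) =
      ∫ p, g (mix T p) * A.indicator (fun _ => (1 : ℝ)) (mix T p) ∂((prodLaw ν).prod (prodLaw ν)) := by
    conv_lhs => rw [← map_mix ν T]
    rw [integral_map (measurable_mix T).aemeasurable]
    exact hF.aestronglyMeasurable
  rw [h1, integral_prod]
  · refine integral_congr_ae (Filter.Eventually.of_forall fun x => ?_)
    simp only
    rw [cond_eq ν A hA T x, ← integral_const_mul]
    refine integral_congr_ae (Filter.Eventually.of_forall fun y => ?_)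
    simp only
    rw [hT (mix T (x, y)) x]
    intro n hn
    simp [mix, hn]
  · refine Integrable.mono' (integrable_const (1 : ℝ)) (hF.comp (measurable_mix T)).aestronglyMeasurable ?_
    refine Filter.Eventually.of_forall fun p => ?_
    simp only [norm_mul]
    have h3 : ‖A.indicator (fun _ => (1 : ℝ)) (mix T p)‖ ≤ 1 := by
      by_cases h : mix T p ∈ A
      · rw [Set.indicator_of_mem h]; simp
      · rw [Set.indicator_of_notMem h]; simp
    calc ‖g (mix T p)‖ * ‖A.indicator (fun _ => (1 : ℝ)) (mix T p)‖ ≤ 1 * 1 :=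
          mul_le_mul (hb _) h3 (norm_nonneg _) zero_le_one
      _ = 1 := one_mul 1

lemma cond_nonneg (ν : Measure ℝ) [IsProbabilityMeasure ν] (A : Set (ℕ → ℝ)) (T : Finset ℕ)
    (x : ℕ → ℝ) : 0 ≤ cond ν A T x := measureReal_nonneg

lemma cond_le_one (ν : Measure ℝ) [IsProbabilityMeasure ν] (A : Set (ℕ → ℝ)) (T : Finset ℕ)
    (x : ℕ → ℝ) : cond ν A T x ≤ 1 := measureReal_le_one

lemma measurable_cond (ν : Measure ℝ) [IsProbabilityMeasure ν] (A : Set (ℕ → ℝ)) (hA : MeasurableSet A)
    (T : Finset ℕ) : Measurable (cond ν A T) := by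
  have : cond ν A T = fun x => ∫ y, A.indicator (fun _ => (1 : ℝ)) (mix T (x, y)) ∂(prodLaw ν) := by
    ext x; exact cond_eq ν A hA T x
  rw [this]
  have hind : StronglyMeasurable (A.indicator (fun _ => (1 : ℝ)) ∘ mix T) :=
    ((measurable_const.indicator hA).comp (measurable_mix T)).stronglyMeasurable
  exact (hind.integral_prod_right').measurable

lemma cond_disj (ν : Measure ℝ) [IsProbabilityMeasure ν] (A : Set (ℕ → ℝ)) (U T : Finset ℕ)
    (hU : ∀ x y : ℕ → ℝ, (∀ n ∈ U, x n = y n) → (x ∈ A ↔ y ∈ A)) (hd : Disjoint U T)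
    (x : ℕ → ℝ) : cond ν A T x = (prodLaw ν).real A := by
  unfold cond
  congr 1
  ext y
  refine hU _ _ fun n hn => ?_
  have : n ∉ T := Finset.disjoint_left.1 hd hn
  simp [this]

/-- the step: the sum over the last entry -/
lemma step (ν : Measure ℝ) [IsProbabilityMeasure ν] {ι : Type} (F : Finset ι) (G : Finset ι) (hGF : G ⊆ F)
    (A : ι → Set (ℕ → ℝ)) (T : Finset ℕ) (E : ℝ)
    (hA : ∀ i ∈ F, MeasurableSet (A i))
    (hsum : ∀ x, ∑ i ∈ G, cond ν (A i) T x ≤ E)
    (g : (ℕ → ℝ) → ℝ) (hg : Measurable g) (h0 : ∀ x, 0 ≤ g x) (hb : ∀ x, g x ≤ 1)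
    (hT : ∀ x y : ℕ → ℝ, (∀ n ∈ T, x n = y n) → g x = g y) :
    ∑ i ∈ G, ∫ y, g y * (A i).indicator (fun _ => (1 : ℝ)) y ∂(prodLaw ν) ≤ (∫ y, g y ∂(prodLaw ν)) * E := by
  have hb' : ∀ x, ‖g x‖ ≤ 1 := fun x => by rw [Real.norm_eq_abs, abs_of_nonneg (h0 x)]; exact hb x
  have h1 : ∀ i ∈ G, ∫ y, g y * (A i).indicator (fun _ => (1 : ℝ)) y ∂(prodLaw ν) =
      ∫ x, g x * cond ν (A i) T x ∂(prodLaw ν) := fun i hi => key ν (A i) (hA i (hGF hi)) T g hg hb' hT
  rw [Finset.sum_congr rfl h1]
  have hint : ∀ i ∈ G, Integrable (fun x => g x * cond ν (A i) T x) (prodLaw ν) := by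
    intro i hi
    refine Integrable.mono' (integrable_const (1 : ℝ))
      (hg.mul (measurable_cond ν (A i) (hA i (hGF hi)) T)).aestronglyMeasurable ?_
    refine Filter.Eventually.of_forall fun x => ?_
    rw [norm_mul]
    have h3 : ‖cond ν (A i) T x‖ ≤ 1 := by
      rw [Real.norm_eq_abs, abs_of_nonneg (cond_nonneg _ _ _ _)]; exact cond_le_one _ _ _ _
    calc ‖g x‖ * ‖cond ν (A i) T x‖ ≤ 1 * 1 := mul_le_mul (hb' _) h3 (norm_nonneg _) zero_le_one
      _ = 1 := one_mul 1
  rw [← integral_finsetSum _ hint, ← integral_mul_const]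
  have hgi : Integrable g (prodLaw ν) :=
    Integrable.mono' (integrable_const (1 : ℝ)) hg.aestronglyMeasurable (Filter.Eventually.of_forall hb')
  refine integral_mono (integrable_finsetSum _ hint) (hgi.mul_const E) fun x => ?_
  simp only
  rw [← Finset.mul_sum]
  exact mul_le_mul_of_nonneg_left (hsum x) (h0 x)

lemma before_castSucc {ι : Type} {q : ℕ} (supp : ι → Finset ℕ) (τ : Fin q → ι) (i : ι) (l : Fin q) :
    before supp (Fin.snoc (α := fun _ => ι) τ i : Fin (q + 1) → ι) l.castSucc = before supp τ l := by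
  ext n
  simp only [before, Finset.mem_biUnion, Finset.mem_filter, Finset.mem_univ, true_and]
  constructor
  · rintro ⟨l', hl', hn⟩
    induction l' using Fin.lastCases with
    | last => exact absurd hl' (not_lt_of_ge (Fin.le_last _))
    | cast j =>
      rw [Fin.snoc_castSucc] at hn
      exact ⟨j, Fin.castSucc_lt_castSucc_iff.1 hl', hn⟩
  · rintro ⟨j, hj, hn⟩
    refine ⟨j.castSucc, Fin.castSucc_lt_castSucc_iff.2 hj, ?_⟩
    rw [Fin.snoc_castSucc]; exact hn

lemma before_last {ι : Type} {q : ℕ} (supp : ι → Finset ℕ) (τ : Fin q → ι) (i : ι) :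
    before supp (Fin.snoc (α := fun _ => ι) τ i : Fin (q + 1) → ι) (Fin.last q) =
      univ.biUnion fun l => supp (τ l) := by
  ext n
  simp only [before, Finset.mem_biUnion, Finset.mem_filter, Finset.mem_univ, true_and]
  constructor
  · rintro ⟨l', hl', hn⟩
    induction l' using Fin.lastCases with
    | last => exact absurd hl' (lt_irrefl _)
    | cast j =>
      rw [Fin.snoc_castSucc] at hn
      exact ⟨j, hn⟩
  · rintro ⟨j, hn⟩
    refine ⟨j.castSucc, Fin.castSucc_lt_last j, ?_⟩
    rw [Fin.snoc_castSucc]; exact hn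

lemma roots_snoc {ι : Type} {q : ℕ} (supp : ι → Finset ℕ) (R : Finset (Fin (q + 1))) (τ : Fin q → ι) (i : ι) :
    Roots supp R (Fin.snoc (α := fun _ => ι) τ i : Fin (q + 1) → ι) ↔
      Roots supp (univ.filter fun l : Fin q => l.castSucc ∈ R) τ ∧
        (Fin.last q ∈ R ↔ Disjoint (supp i) (univ.biUnion fun l => supp (τ l))) := by
  unfold Roots
  rw [Fin.forall_fin_succ']
  simp only [before_castSucc, before_last, Fin.snoc_castSucc, Fin.snoc_last, Finset.mem_filter,
    Finset.mem_univ, true_and]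

lemma prod_mem_succ {q : ℕ} (S : Finset (Fin (q + 1))) (h : Fin (q + 1) → ℝ) :
    ∏ l ∈ S, h l = (∏ l ∈ univ.filter (fun l : Fin q => l.castSucc ∈ S), h l.castSucc) *
      (if Fin.last q ∈ S then h (Fin.last q) else 1) := by
  rw [← Fintype.prod_ite_mem, Fin.prod_univ_castSucc, Finset.prod_filter]

lemma prod_compl_succ {q : ℕ} (S : Finset (Fin (q + 1))) (h : Fin (q + 1) → ℝ) :
    ∏ l ∈ Sᶜ, h l = (∏ l ∈ (univ.filter (fun l : Fin q => l.castSucc ∈ S))ᶜ, h l.castSucc) *
      (if Fin.last q ∈ S then 1 else h (Fin.last q)) := by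
  rw [prod_mem_succ]
  congr 1
  · refine Finset.prod_congr ?_ fun _ _ => rfl
    ext l; simp
  · by_cases h : Fin.last q ∈ S <;> simp [h]

lemma card_succ {q : ℕ} (R : Finset (Fin (q + 1))) :
    R.card = (univ.filter (fun l : Fin q => l.castSucc ∈ R)).card + (if Fin.last q ∈ R then 1 else 0) := by
  have h1 : R.card = ∑ l : Fin (q + 1), if l ∈ R then 1 else 0 := by
    rw [Fintype.sum_ite_mem]; simp
  rw [h1, Fin.sum_univ_castSucc, Finset.card_filter]

/-- the weight of a tuple -/
def Wt (ν : Measure ℝ) [IsProbabilityMeasure ν] {ι : Type} (A : ι → Set (ℕ → ℝ)) {q : ℕ} (S : Finset (Fin q))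
    (σ : Fin q → ι) : ℝ :=
  (∫ y, ∏ l ∈ S, (A (σ l)).indicator (fun _ => (1 : ℝ)) y ∂(prodLaw ν)) *
        ∏ l ∈ Sᶜ, (prodLaw ν).real (A (σ l))

lemma Wt_nonneg (ν : Measure ℝ) [IsProbabilityMeasure ν] {ι : Type} (A : ι → Set (ℕ → ℝ)) {q : ℕ}
    (S : Finset (Fin q)) (σ : Fin q → ι) : 0 ≤ Wt ν A S σ := by
  refine mul_nonneg (integral_nonneg fun y => Finset.prod_nonneg fun l _ => ?_)
    (Finset.prod_nonneg fun l _ => measureReal_nonneg)
  exact Set.indicator_nonneg (fun _ _ => zero_le_one) _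

lemma Wt_snoc (ν : Measure ℝ) [IsProbabilityMeasure ν] {ι : Type} (A : ι → Set (ℕ → ℝ)) {q : ℕ}
    (S : Finset (Fin (q + 1))) (τ : Fin q → ι) (i : ι) :
    Wt ν A S (Fin.snoc (α := fun _ => ι) τ i : Fin (q + 1) → ι) =
      if Fin.last q ∈ S then
        (∫ y, (∏ l ∈ univ.filter (fun l : Fin q => l.castSucc ∈ S), (A (τ l)).indicator (fun _ => (1 : ℝ)) y) *
          (A i).indicator (fun _ => (1 : ℝ)) y ∂(prodLaw ν)) *
            ∏ l ∈ (univ.filter (fun l : Fin q => l.castSucc ∈ S))ᶜ, (prodLaw ν).real (A (τ l))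
      else Wt ν A (univ.filter (fun l : Fin q => l.castSucc ∈ S)) τ * (prodLaw ν).real (A i) := by
  unfold Wt
  simp only [prod_mem_succ S, prod_compl_succ S, Fin.snoc_castSucc, Fin.snoc_last]
  by_cases h : Fin.last q ∈ S
  · simp [h]
  · simp [h, mul_assoc]

lemma step2 (ν : Measure ℝ) [IsProbabilityMeasure ν] {ι : Type} (F : Finset ι) (G : Finset ι) (hGF : G ⊆ F)
    (supp : ι → Finset ℕ) (A : ι → Set (ℕ → ℝ)) {q : ℕ} (S : Finset (Fin (q + 1))) (τ : Fin q → ι)
    (hτ : ∀ l, τ l ∈ F)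
    (hA : ∀ i ∈ F, MeasurableSet (A i))
    (hS : ∀ i ∈ F, ∀ x y : ℕ → ℝ, (∀ n ∈ supp i, x n = y n) → (x ∈ A i ↔ y ∈ A i))
    (E : ℝ)
    (hsum : ∀ x, ∑ i ∈ G, cond ν (A i) (univ.biUnion fun l => supp (τ l)) x ≤ E) :
    ∑ i ∈ G, Wt ν A S (Fin.snoc (α := fun _ => ι) τ i : Fin (q + 1) → ι) ≤
      Wt ν A (univ.filter (fun l : Fin q => l.castSucc ∈ S)) τ * E := by
  simp only [Wt_snoc]
  by_cases h : Fin.last q ∈ S
  · simp only [h, if_true]
    rw [← Finset.sum_mul]
    unfold Wt
    rw [mul_right_comm]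
    refine mul_le_mul_of_nonneg_right ?_ (Finset.prod_nonneg fun l _ => measureReal_nonneg)
    refine step ν F G hGF A (univ.biUnion fun l => supp (τ l)) E hA hsum _ ?_ ?_ ?_ ?_
    · exact Finset.measurable_prod _ fun l _ => measurable_const.indicator (hA _ (hτ l))
    · exact fun x => Finset.prod_nonneg fun l _ => Set.indicator_nonneg (fun _ _ => zero_le_one) _
    · intro x
      refine Finset.prod_le_one (fun l _ => Set.indicator_nonneg (fun _ _ => zero_le_one) _) fun l _ => ?_
      by_cases hx : x ∈ A (τ l)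
      · rw [Set.indicator_of_mem hx]
      · rw [Set.indicator_of_notMem hx]; exact zero_le_one
    · intro x y hxy
      refine Finset.prod_congr rfl fun l _ => ?_
      have := hS (τ l) (hτ l) x y fun n hn => hxy n (Finset.mem_biUnion.2 ⟨l, Finset.mem_univ _, hn⟩)
      by_cases hx : x ∈ A (τ l)
      · rw [Set.indicator_of_mem hx, Set.indicator_of_mem (this.1 hx)]
      · rw [Set.indicator_of_notMem hx, Set.indicator_of_notMem (fun h => hx (this.2 h))]
  · simp only [h, if_false]
    rw [← Finset.mul_sum]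
    refine mul_le_mul_of_nonneg_left ?_ (Wt_nonneg _ _ _ _)
    have := step ν F G hGF A (univ.biUnion fun l => supp (τ l)) E hA hsum (fun _ => 1)
      measurable_const (fun _ => zero_le_one) (fun _ => le_rfl) (fun _ _ _ => rfl)
    simp only [one_mul, integral_const, probReal_univ, smul_eq_mul, mul_one] at this
    refine le_trans (le_of_eq ?_) this
    refine Finset.sum_congr rfl fun i hi => ?_
    rw [integral_indicator (hA i (hGF hi))]
    simp

lemma sum_snoc {ι : Type} {q : ℕ} (F : Finset ι) (P : (Fin (q + 1) → ι) → Prop) [DecidablePred P]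
    (P1 : (Fin q → ι) → Prop) [DecidablePred P1] (P2 : (Fin q → ι) → ι → Prop) [∀ τ, DecidablePred (P2 τ)]
    (hP : ∀ τ i, P (Fin.snoc (α := fun _ => ι) τ i : Fin (q + 1) → ι) ↔ P1 τ ∧ P2 τ i)
    (f : (Fin (q + 1) → ι) → ℝ) :
    ∑ σ ∈ (Fintype.piFinset fun _ : Fin (q + 1) => F).filter P, f σ =
      ∑ τ ∈ (Fintype.piFinset fun _ : Fin q => F).filter P1, ∑ i ∈ F.filter (P2 τ),
        f (Fin.snoc (α := fun _ => ι) τ i : Fin (q + 1) → ι) := by
  rw [Finset.sum_sigma']
  refine Finset.sum_bij' (fun σ _ => ⟨Fin.init σ, σ (Fin.last q)⟩)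
    (fun p _ => (Fin.snoc (α := fun _ => ι) p.1 p.2 : Fin (q + 1) → ι)) ?_ ?_ ?_ ?_ ?_
  · intro σ hσ
    rw [Finset.mem_filter, Fintype.mem_piFinset] at hσ
    have h2 := (hP (Fin.init σ) (σ (Fin.last q))).1 (by rw [Fin.snoc_init_self]; exact hσ.2)
    simp only [Finset.mem_sigma, Finset.mem_filter, Fintype.mem_piFinset]
    exact ⟨⟨fun l => hσ.1 _, h2.1⟩, hσ.1 _, h2.2⟩
  · intro p hp
    simp only [Finset.mem_sigma, Finset.mem_filter, Fintype.mem_piFinset] at hp
    rw [Finset.mem_filter, Fintype.mem_piFinset]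
    refine ⟨fun l => ?_, (hP _ _).2 ⟨hp.1.2, hp.2.2⟩⟩
    induction l using Fin.lastCases with
    | last => rw [Fin.snoc_last]; exact hp.2.1
    | cast j => rw [Fin.snoc_castSucc]; exact hp.1.1 j
  · intro σ _
    exact Fin.snoc_init_self σ
  · intro p _
    simp
  · intro σ _
    simp

end MOMaAux

open MOMaAux

theorem t_MOMa : S_MOMa := by
  classical
  intro d q
  induction q with
  | zero =>
    intro ν _ ι F supp A E0 E1 hA hc hS hE1 hE0 hT R S
    have hR : R = ∅ := Finset.eq_empty_of_isEmpty R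
    have hS' : S = ∅ := Finset.eq_empty_of_isEmpty S
    subst hR hS'
    refine (Finset.sum_le_sum_of_subset_of_nonneg (Finset.filter_subset _ _) fun σ _ _ => ?_).trans ?_
    · simp
    · simp
  | succ q ih =>
    intro ν _ ι F supp A E0 E1 hA hc hS hE1 hE0 hT R S
    have ih' := ih ν ι F supp A E0 E1 hA hc hS hE1 hE0
      (fun T hTc x => hT T (hTc.trans (Nat.mul_le_mul_right d (Nat.le_succ q))) x)
      (univ.filter fun l : Fin q => l.castSucc ∈ R) (univ.filter fun l : Fin q => l.castSucc ∈ S)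
    have hE0' : 0 ≤ E0 := le_trans (Finset.sum_nonneg fun i _ => measureReal_nonneg) hE0
    rw [sum_snoc F (fun σ => Roots supp R σ)
      (fun τ => Roots supp (univ.filter fun l : Fin q => l.castSucc ∈ R) τ)
      (fun τ i => (Fin.last q ∈ R ↔ Disjoint (supp i) (univ.biUnion fun l => supp (τ l))))
      (roots_snoc supp R)]
    have hstep : ∀ τ ∈ (Fintype.piFinset fun _ : Fin q => F).filter
        (fun τ => Roots supp (univ.filter fun l : Fin q => l.castSucc ∈ R) τ),
        ∑ i ∈ F.filter (fun i => (Fin.last q ∈ R ↔ Disjoint (supp i) (univ.biUnion fun l => supp (τ l)))),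
          Wt ν A S (Fin.snoc (α := fun _ => ι) τ i : Fin (q + 1) → ι) ≤
        Wt ν A (univ.filter (fun l : Fin q => l.castSucc ∈ S)) τ * (if Fin.last q ∈ R then E0 else E1) := by
      intro τ hτ
      rw [Finset.mem_filter, Fintype.mem_piFinset] at hτ
      refine step2 ν F _ (Finset.filter_subset _ _) supp A S τ hτ.1 hA hS _ ?_
      intro x
      by_cases hR : Fin.last q ∈ R
      · simp only [hR, true_iff, if_true]
        refine le_trans ?_ hE0
        calc ∑ i ∈ F.filter (fun i => Disjoint (supp i) (univ.biUnion fun l => supp (τ l))),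
              cond ν (A i) (univ.biUnion fun l => supp (τ l)) x
            = ∑ i ∈ F.filter (fun i => Disjoint (supp i) (univ.biUnion fun l => supp (τ l))),
              (prodLaw ν).real (A i) := by
              refine Finset.sum_congr rfl fun i hi => ?_
              rw [Finset.mem_filter] at hi
              exact cond_disj ν (A i) (supp i) _ (hS i hi.1) hi.2 x
          _ ≤ ∑ i ∈ F, (prodLaw ν).real (A i) :=
              Finset.sum_le_sum_of_subset_of_nonneg (Finset.filter_subset _ _)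
                fun i _ _ => measureReal_nonneg
      · simp only [hR, false_iff, if_false]
        refine hT _ ?_ x
        refine (Finset.card_biUnion_le).trans ?_
        calc ∑ l : Fin q, (supp (τ l)).card ≤ ∑ _l : Fin q, d := Finset.sum_le_sum fun l _ => hc _ (hτ.1 l)
          _ = q * d := by simp
          _ ≤ (q + 1) * d := Nat.mul_le_mul_right d (Nat.le_succ q)
    refine (Finset.sum_le_sum hstep).trans ?_
    rw [← Finset.sum_mul]
    refine (mul_le_mul_of_nonneg_right ih' (by split_ifs <;> assumption)).trans (le_of_eq ?_)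
    have hcard := card_succ R
    have hle : (univ.filter fun l : Fin q => l.castSucc ∈ R).card ≤ q := by
      refine (Finset.card_filter_le _ _).trans ?_
      simp
    by_cases hR : Fin.last q ∈ R
    · simp only [hR, if_true] at hcard ⊢
      rw [hcard, pow_succ, Nat.add_sub_add_right]; ring
    · simp only [hR, if_false, add_zero] at hcard ⊢
      rw [hcard, Nat.sub_add_comm hle, pow_succ]; ring

end

end Pool.Agent.U160.WP
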