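import Pool.Agent.U160.WP.Stm

set_option autoImplicit false

/-! Project WP, package PV: probabilities are volumes of cells, and cells over a finite set of points tile -/

namespace Pool.Agent.U160.WP

open MeasureTheory ProbabilityTheory Finset

theorem pv_map_coords {i : ℕ} (e : Fin i → ℕ) (he : Function.Injective e) :
    (prodLaw unif).map (fun (y : ℕ → ℝ) (l : Fin i) => y (e l)) = Measure.pi (fun _ : Fin i => unif) := by
  unfold prodLaw
  rw [Measure.map_infinitePi_infinitePi_of_inj he, Measure.infinitePi_eq_pi]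

theorem pv_pi_unif (i : ℕ) : Measure.pi (fun _ : Fin i => unif) =
    (volume : Measure (Fin i → ℝ)).restrict (Set.univ.pi fun _ => Set.Icc 0 1) := by
  unfold unif
  rw [volume_pi, Measure.restrict_pi_pi]

theorem pv_one (k i : ℕ) (w e : Fin i → ℕ) (he : Function.Injective e) (μ η : ℝ) :
    (prodLaw unif).real {y | |∑ l, (w l : ℝ) * ((e l : ℝ) + y (e l)) ^ k - μ| ≤ η} =
      volume.real (cell k w e μ η) := by
  have hms : MeasurableSet {x : Fin i → ℝ | |∑ l, (w l : ℝ) * ((e l : ℝ) + x l) ^ k - μ| ≤ η} :=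
    measurableSet_le (by fun_prop) (by fun_prop)
  have h1 : {y : ℕ → ℝ | |∑ l, (w l : ℝ) * ((e l : ℝ) + y (e l)) ^ k - μ| ≤ η} =
      (fun (y : ℕ → ℝ) (l : Fin i) => y (e l)) ⁻¹'
        {x : Fin i → ℝ | |∑ l, (w l : ℝ) * ((e l : ℝ) + x l) ^ k - μ| ≤ η} := rfl
  rw [h1, measureReal_def, ← Measure.map_apply (by fun_prop) hms, pv_map_coords e he, pv_pi_unif,
    Measure.restrict_apply hms, measureReal_def]
  congr 1
  rw [← measure_preimage_add volume (fun l => (e l : ℝ)) (cell k w e μ η)]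
  congr 1
  ext x
  simp only [cell, Set.mem_inter_iff, Set.mem_ofPred_eq, Set.mem_pi, Set.mem_univ, true_implies,
    Set.mem_preimage, Pi.add_apply, Set.mem_Icc]
  constructor
  · rintro ⟨h2, h3⟩
    exact ⟨fun l => ⟨by linarith [(h3 l).1], by linarith [(h3 l).2]⟩, h2⟩
  · rintro ⟨h2, h3⟩
    exact ⟨h3, fun l => ⟨by linarith [(h2 l).1], by linarith [(h2 l).2]⟩⟩

theorem pv_meas (k i : ℕ) (w e : Fin i → ℕ) (μ η : ℝ) : MeasurableSet (cell k w e μ η) := by
  have h : cell k w e μ η = (Set.univ.pi fun l => Set.Icc (e l : ℝ) (e l + 1)) ∩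
      {v : Fin i → ℝ | |∑ l, (w l : ℝ) * v l ^ k - μ| ≤ η} := by
    ext v
    simp only [cell, Set.mem_inter_iff, Set.mem_ofPred_eq, Set.mem_pi, Set.mem_univ, true_implies]
  rw [h]
  exact (MeasurableSet.univ_pi fun l => measurableSet_Icc).inter
    (measurableSet_le (by fun_prop) (by fun_prop))

theorem pv_fin (k i : ℕ) (w e : Fin i → ℕ) (μ η : ℝ) : volume (cell k w e μ η) ≠ ⊤ := by
  have h : cell k w e μ η ⊆ Set.Icc (fun l => (e l : ℝ)) (fun l => (e l : ℝ) + 1) := by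
    intro v hv
    exact ⟨fun l => (hv.1 l).1, fun l => (hv.1 l).2⟩
  exact ne_top_of_le_ne_top isCompact_Icc.measure_lt_top.ne (measure_mono h)

theorem pv_disj (k i : ℕ) (w e e' : Fin i → ℕ) (hne : e ≠ e') (μ η : ℝ) :
    AEDisjoint volume (cell k w e μ η) (cell k w e' μ η) := by
  obtain ⟨l, hl⟩ := Function.ne_iff.mp hne
  have hnull : ∀ x : ℝ, (volume : Measure (Fin i → ℝ)) {v | v l = x} = 0 := by
    intro x
    rw [volume_pi]
    exact Measure.pi_hyperplane (fun _ : Fin i => (volume : Measure ℝ)) l x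
  refine measure_mono_null ?_ (hnull ((max (e l) (e' l) : ℕ) : ℝ))
  rintro v ⟨hv, hv'⟩
  have h1 := hv.1 l
  have h2 := hv'.1 l
  simp only [Set.mem_Icc] at h1 h2
  simp only [Set.mem_ofPred_eq]
  rcases lt_or_gt_of_ne hl with h | h
  · rw [max_eq_right h.le]
    have h3 : (e l : ℝ) + 1 ≤ e' l := by exact_mod_cast h
    linarith [h1.2, h2.1]
  · rw [max_eq_left h.le]
    have h3 : (e' l : ℝ) + 1 ≤ e l := by exact_mod_cast h
    linarith [h1.1, h2.2]

theorem t_PV : S_PV := by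
  refine ⟨fun k i w e he μ η => pv_one k i w e he μ η, ?_⟩
  intro k i w M μ η G _
  have h : {v : Fin i → ℝ | (∃ e ∈ G, ∀ l, v l ∈ Set.Icc (e l : ℝ) (e l + 1)) ∧
        |∑ l, (w l : ℝ) * v l ^ k - μ| ≤ η} = ⋃ e ∈ G, cell k w e μ η := by
    ext v
    simp only [cell, Set.mem_ofPred_eq, Set.mem_iUnion, exists_prop]
    constructor
    · rintro ⟨⟨e, he, h1⟩, h2⟩
      exact ⟨e, he, h1, h2⟩
    · rintro ⟨e, he, h1, h2⟩
      exact ⟨⟨e, he, h1⟩, h2⟩
  rw [h, measureReal_biUnion_finset₀ (fun e _ e' _ hne => pv_disj k i w e e' hne μ η)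
    (fun e _ => (pv_meas k i w e μ η).nullMeasurableSet) (fun e _ => pv_fin k i w e μ η)]

end Pool.Agent.U160.WP
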