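import Pool.Agent.U160.WP.Stm

set_option autoImplicit false

/-! Project WP, package V1: the volume of a weighted shell. -/

namespace Pool.Agent.U160.WP

open MeasureTheory Finset
open scoped Pointwise

namespace V1

/-- the weighted ball -/
def B {i : ℕ} (k : ℕ) (w : Fin i → ℕ) (s : ℝ) : Set (Fin i → ℝ) :=
  {v | ∑ l, (w l : ℝ) * |v l| ^ k ≤ s}

theorem B_mono {i k : ℕ} {w : Fin i → ℕ} {s t : ℝ} (h : s ≤ t) : B k w s ⊆ B k w t :=
  fun _ hv => le_trans hv h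

theorem B_meas {i k : ℕ} {w : Fin i → ℕ} (s : ℝ) : MeasurableSet (B k w s) := by
  apply IsClosed.measurableSet
  apply isClosed_le _ continuous_const
  fun_prop

theorem B_smul {i k : ℕ} (hk : 1 ≤ k) (w : Fin i → ℕ) {s : ℝ} (hs : 0 < s) :
    B k w s = (s ^ (1 / (k : ℝ))) • B k w 1 := by
  have hc : 0 < s ^ (1 / (k : ℝ)) := Real.rpow_pos_of_pos hs _
  have hk0 : (k : ℝ) ≠ 0 := by positivity
  have hck : (s ^ (1 / (k : ℝ))) ^ k = s := by
    rw [← Real.rpow_natCast, ← Real.rpow_mul hs.le, one_div, inv_mul_cancel₀ hk0, Real.rpow_one]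
  generalize s ^ (1 / (k : ℝ)) = c at *
  ext v
  rw [Set.mem_smul_set_iff_inv_smul_mem₀ hc.ne']
  unfold B
  rw [Set.mem_setOf_eq, Set.mem_setOf_eq]
  have h1 : ∀ l, (w l : ℝ) * |(c⁻¹ • v) l| ^ k = s⁻¹ * ((w l : ℝ) * |v l| ^ k) := by
    intro l
    rw [Pi.smul_apply, smul_eq_mul, abs_mul, mul_pow, abs_of_pos (inv_pos.2 hc), inv_pow, hck]
    ring
  rw [Finset.sum_congr rfl fun l _ => h1 l, ← Finset.mul_sum, inv_mul_le_iff₀ hs, mul_one]

theorem B_one_sub {i k : ℕ} (hk : 1 ≤ k) {w : Fin i → ℕ} (hw : ∀ l, 1 ≤ w l) :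
    B k w 1 ⊆ Set.Icc (fun _ => -1) (fun _ => 1) := by
  intro v hv
  have h1 : ∀ l, |v l| ≤ 1 := by
    intro l
    have h2 : (w l : ℝ) * |v l| ^ k ≤ ∑ l, (w l : ℝ) * |v l| ^ k :=
      Finset.single_le_sum (f := fun l => (w l : ℝ) * |v l| ^ k)
        (fun l _ => by positivity) (Finset.mem_univ l)
    have h3 : |v l| ^ k ≤ (w l : ℝ) * |v l| ^ k := by
      have h4 : (1 : ℝ) ≤ w l := by exact_mod_cast hw l
      have h5 : 0 ≤ |v l| ^ k := by positivity
      nlinarith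
    have h6 : |v l| ^ k ≤ 1 := h3.trans (h2.trans hv)
    by_contra hcon
    push Not at hcon
    have := one_lt_pow₀ hcon (by omega : k ≠ 0)
    linarith
  exact ⟨fun l => (abs_le.1 (h1 l)).1, fun l => (abs_le.1 (h1 l)).2⟩

theorem vol_box (i : ℕ) :
    volume (Set.Icc (fun _ : Fin i => (-1 : ℝ)) (fun _ => 1)) = ENNReal.ofReal (2 ^ i) := by
  rw [Real.volume_Icc_pi]
  simp only [Finset.prod_const, Finset.card_univ, Fintype.card_fin]
  rw [← ENNReal.ofReal_pow (by norm_num)]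
  norm_num

theorem B_one_ne_top {i k : ℕ} (hk : 1 ≤ k) {w : Fin i → ℕ} (hw : ∀ l, 1 ≤ w l) :
    volume (B k w 1) ≠ ⊤ := by
  refine ne_top_of_le_ne_top ?_ (measure_mono (B_one_sub hk hw))
  rw [vol_box]
  exact ENNReal.ofReal_ne_top

theorem V_le {i k : ℕ} (hk : 1 ≤ k) {w : Fin i → ℕ} (hw : ∀ l, 1 ≤ w l) :
    volume.real (B k w 1) ≤ 2 ^ i := by
  have h1 := measure_mono (μ := volume) (B_one_sub hk hw)
  rw [vol_box] at h1
  have h2 := ENNReal.toReal_mono ENNReal.ofReal_ne_top h1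
  rwa [ENNReal.toReal_ofReal (by positivity)] at h2

theorem vol_B {i k : ℕ} (hk : 1 ≤ k) (w : Fin i → ℕ) {s : ℝ} (hs : 0 < s) :
    volume (B k w s) = ENNReal.ofReal (s ^ ((i : ℝ) / k)) * volume (B k w 1) := by
  have hc : 0 < s ^ (1 / (k : ℝ)) := Real.rpow_pos_of_pos hs _
  rw [B_smul hk w hs, Measure.addHaar_smul_of_nonneg volume hc.le]
  congr 2
  rw [Module.finrank_fin_fun, ← Real.rpow_natCast, ← Real.rpow_mul hs.le]
  congr 1
  ring

theorem B_ne_top {i k : ℕ} (hk : 1 ≤ k) {w : Fin i → ℕ} (hw : ∀ l, 1 ≤ w l) {s : ℝ} (hs : 0 < s) :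
    volume (B k w s) ≠ ⊤ := by
  rw [vol_B hk w hs]
  exact ENNReal.mul_ne_top ENNReal.ofReal_ne_top (B_one_ne_top hk hw)

theorem vol_B_real {i k : ℕ} (hk : 1 ≤ k) (w : Fin i → ℕ) {s : ℝ} (hs : 0 < s) :
    volume.real (B k w s) = s ^ ((i : ℝ) / k) * volume.real (B k w 1) := by
  unfold Measure.real
  rw [vol_B hk w hs, ENNReal.toReal_mul, ENNReal.toReal_ofReal (Real.rpow_nonneg hs.le _)]

theorem rpow_cmp {K x y : ℝ} (p : ℝ) (hK : 1 ≤ K) (hx : 0 < x) (hy : 0 < y) (h1 : y ≤ K * x)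
    (h2 : x ≤ K * y) : x ^ p ≤ K ^ |p| * y ^ p := by
  have hK0 : 0 < K := by linarith
  rcases le_total 0 p with hp | hp
  · rw [abs_of_nonneg hp, ← Real.mul_rpow hK0.le hy.le]
    exact Real.rpow_le_rpow hx.le h2 hp
  · rw [abs_of_nonpos hp]
    have h3 : (K * x) ^ p ≤ y ^ p := Real.rpow_le_rpow_of_nonpos hy h1 hp
    rw [Real.mul_rpow hK0.le hx.le] at h3
    have h4 : K ^ (-p) * K ^ p = 1 := by
      rw [← Real.rpow_add hK0, neg_add_cancel, Real.rpow_zero]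
    calc x ^ p = K ^ (-p) * (K ^ p * x ^ p) := by rw [← mul_assoc, h4, one_mul]
      _ ≤ K ^ (-p) * y ^ p := mul_le_mul_of_nonneg_left h3 (Real.rpow_nonneg hK0.le _)

end V1

open V1 in
theorem t_V1 : S_V1 := by
  intro k i D hk hi η hη
  have hk0 : (0 : ℝ) < k := by exact_mod_cast hk
  have hi0 : (0 : ℝ) < i := by exact_mod_cast hi
  set θ : ℝ := (i : ℝ) / k with hθ
  have hθ0 : 0 < θ := div_pos hi0 hk0
  set K : ℝ := 2 + 4 * η + 1 / η with hK
  have hη1 : 0 < 1 / η := by positivity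
  have hK1 : 1 ≤ K := by rw [hK]; linarith
  have hK0 : 0 < K := by linarith
  have hKp : 0 < K ^ |θ - 1| := Real.rpow_pos_of_pos hK0 _
  have h5 : 0 < (5 * η) ^ θ := Real.rpow_pos_of_pos (by positivity) _
  refine ⟨2 ^ i * K ^ |θ - 1| * (3 * η * θ + (5 * η) ^ θ), by positivity, ?_⟩
  intro w hw μ
  have hw1 : ∀ l, 1 ≤ w l := fun l => (hw l).1
  have hyp : 0 < 1 + |μ| := by positivity
  have hyp' : 0 < (1 + |μ|) ^ (θ - 1) := Real.rpow_pos_of_pos hyp _
  set S : Set (Fin i → ℝ) := {v : Fin i → ℝ | (∀ l, 0 ≤ v l) ∧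
    |∑ l, (w l : ℝ) * v l ^ k - μ| ≤ η} with hS
  have hSs : ∀ v ∈ S, ∑ l, (w l : ℝ) * |v l| ^ k = ∑ l, (w l : ℝ) * v l ^ k := by
    intro v hv
    refine Finset.sum_congr rfl fun l _ => ?_
    rw [abs_of_nonneg (hv.1 l)]
  have hSB : S ⊆ B k w (μ + η) := by
    intro v hv
    have h1 := (abs_le.1 hv.2).2
    change ∑ l, (w l : ℝ) * |v l| ^ k ≤ μ + η
    rw [hSs v hv]
    linarith
  have hV0 : 0 ≤ volume.real (B k w 1) := measureReal_nonneg
  have hV := V_le hk hw1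
  rcases lt_or_ge μ (-η) with h | h
  · have hemp : S = ∅ := by
      rw [Set.eq_empty_iff_forall_notMem]
      intro v hv
      have h1 : ∑ l, (w l : ℝ) * |v l| ^ k ≤ μ + η := hSB hv
      have h2 : 0 ≤ ∑ l, (w l : ℝ) * |v l| ^ k := Finset.sum_nonneg fun l _ => by positivity
      linarith
    rw [hemp, measureReal_empty]
    positivity
  rcases lt_or_ge μ (4 * η) with h' | h'
  · have h1 : S ⊆ B k w (5 * η) := hSB.trans (B_mono (by linarith))
    have h2 : volume.real S ≤ volume.real (B k w (5 * η)) :=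
      measureReal_mono h1 (B_ne_top hk hw1 (by positivity))
    rw [vol_B_real hk w (by positivity)] at h2
    have hμ : |μ| ≤ 4 * η := abs_le.2 ⟨by linarith, h'.le⟩
    have h3 : (1 : ℝ) ≤ K ^ |θ - 1| * (1 + |μ|) ^ (θ - 1) := by
      have := rpow_cmp (θ - 1) hK1 one_pos hyp (by rw [hK]; linarith)
        (by nlinarith [abs_nonneg μ])
      rwa [Real.one_rpow] at this
    calc volume.real S ≤ (5 * η) ^ θ * volume.real (B k w 1) := h2
      _ ≤ (5 * η) ^ θ * 2 ^ i := mul_le_mul_of_nonneg_left hV h5.le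
      _ ≤ (5 * η) ^ θ * 2 ^ i * (K ^ |θ - 1| * (1 + |μ|) ^ (θ - 1)) :=
        le_mul_of_one_le_right (by positivity) h3
      _ ≤ 2 ^ i * K ^ |θ - 1| * (3 * η * θ + (5 * η) ^ θ) * (1 + |μ|) ^ (θ - 1) := by
        have : 0 ≤ 2 ^ i * K ^ |θ - 1| * (3 * η * θ) * (1 + |μ|) ^ (θ - 1) := by positivity
        linarith
  · have hμ0 : 0 < μ := by linarith
    have hμa : |μ| = μ := abs_of_pos hμ0
    rw [hμa] at hyp hyp' ⊢
    have h1 : S ⊆ B k w (μ + η) \ B k w (μ - 2 * η) := by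
      intro v hv
      refine ⟨hSB hv, fun hn => ?_⟩
      have h2 := (abs_le.1 hv.2).1
      have h3 : ∑ l, (w l : ℝ) * |v l| ^ k ≤ μ - 2 * η := hn
      rw [hSs v hv] at h3
      linarith
    have ha : 0 < μ - 2 * η := by linarith
    have hb : 0 < μ + η := by linarith
    have h2 : volume.real S ≤ volume.real (B k w (μ + η)) - volume.real (B k w (μ - 2 * η)) := by
      rw [← measureReal_diff (B_mono (by linarith)) (B_meas _) (B_ne_top hk hw1 hb)]
      refine measureReal_mono h1 ?_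
      exact ne_top_of_le_ne_top (B_ne_top hk hw1 hb) (measure_mono Set.diff_subset)
    rw [vol_B_real hk w hb, vol_B_real hk w ha] at h2
    obtain ⟨ξ, hξ, hξ'⟩ := exists_hasDerivAt_eq_slope (fun x : ℝ => x ^ θ)
      (fun x => θ * x ^ (θ - 1)) (show μ - 2 * η < μ + η by linarith)
      (fun x hx => (Real.continuousAt_rpow_const x θ
        (Or.inl (by linarith [hx.1]))).continuousWithinAt)
      (fun x hx => Real.hasDerivAt_rpow_const (Or.inl (by linarith [hx.1])))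
    have hξ0 : 0 < ξ := by linarith [hξ.1]
    have h3 : (μ + η) ^ θ - (μ - 2 * η) ^ θ = 3 * η * (θ * ξ ^ (θ - 1)) := by
      rw [hξ']
      have : μ + η - (μ - 2 * η) = 3 * η := by ring
      rw [this]
      field_simp
    have h4 : ξ ^ (θ - 1) ≤ K ^ |θ - 1| * (1 + μ) ^ (θ - 1) := by
      apply rpow_cmp _ hK1 hξ0 hyp
      · have e1 : μ / 2 ≤ ξ := by linarith [hξ.1]
        have e2 : 1 + μ ≤ K * (μ / 2) := by
          have e3 : 4 ≤ 1 / η * μ := by
            rw [one_div, ← div_eq_inv_mul, le_div_iff₀ hη]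
            linarith
          rw [hK]
          nlinarith
        calc 1 + μ ≤ K * (μ / 2) := e2
          _ ≤ K * ξ := mul_le_mul_of_nonneg_left e1 hK0.le
      · have e1 : ξ ≤ 2 * (1 + μ) := by linarith [hξ.2]
        have e2 : 2 ≤ K := by rw [hK]; linarith
        nlinarith
    calc volume.real S ≤ (μ + η) ^ θ * volume.real (B k w 1) -
          (μ - 2 * η) ^ θ * volume.real (B k w 1) := h2
      _ = 3 * η * θ * ξ ^ (θ - 1) * volume.real (B k w 1) := by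
        rw [← sub_mul, h3]
        ring
      _ ≤ 3 * η * θ * (K ^ |θ - 1| * (1 + μ) ^ (θ - 1)) * 2 ^ i := by
        have e1 : 0 ≤ 3 * η * θ := by positivity
        have e2 : 0 ≤ ξ ^ (θ - 1) := Real.rpow_nonneg hξ0.le _
        gcongr
      _ ≤ 2 ^ i * K ^ |θ - 1| * (3 * η * θ + (5 * η) ^ θ) * (1 + μ) ^ (θ - 1) := by
        have : 0 ≤ 2 ^ i * K ^ |θ - 1| * ((5 * η) ^ θ) * (1 + μ) ^ (θ - 1) := by positivity
        linarith

end Pool.Agent.U160.WP
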