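import Pool.Agent.U160.WP.Stm

set_option autoImplicit false

/-!
# Project WP, package V2: the asymptotic volume of the shell
-/

namespace Pool.Agent.U160.WP.PkgV2

open MeasureTheory Finset Filter
open scoped ENNReal Topology

lemma map_abs : (volume : Measure ℝ).map (fun x => |x|) =
    (2 : ℝ≥0∞) • (volume : Measure ℝ).restrict (Set.Ici 0) := by
  ext s hs
  rw [Measure.map_apply (by fun_prop) hs, Measure.smul_apply, Measure.restrict_apply hs]
  have h1 : (fun x : ℝ => |x|) ⁻¹' s ∩ Set.Ici 0 = s ∩ Set.Ici 0 := by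
    ext x
    simp only [Set.mem_inter_iff, Set.mem_preimage, Set.mem_Ici]
    constructor
    · rintro ⟨h, h'⟩
      rw [abs_of_nonneg h'] at h
      exact ⟨h, h'⟩
    · rintro ⟨h, h'⟩
      rw [abs_of_nonneg h']
      exact ⟨h, h'⟩
  have h2 : (fun x : ℝ => |x|) ⁻¹' s \ Set.Ici 0 = -(s ∩ Set.Ioi 0) := by
    ext x
    simp only [Set.mem_sdiff, Set.mem_preimage, Set.mem_Ici, Set.mem_neg, Set.mem_inter_iff,
      Set.mem_Ioi, not_le]
    constructor
    · rintro ⟨h, h'⟩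
      rw [abs_of_neg h'] at h
      exact ⟨h, by linarith⟩
    · rintro ⟨h, h'⟩
      have h'' : x < 0 := by linarith
      rw [abs_of_neg h'']
      exact ⟨h, h''⟩
  have h3 : volume (s ∩ Set.Ioi (0 : ℝ)) = volume (s ∩ Set.Ici (0 : ℝ)) :=
    measure_congr ((ae_eq_refl s).inter Ioi_ae_eq_Ici)
  rw [← measure_inter_add_sdiff _ (measurableSet_Ici (a := (0 : ℝ))), h1, h2, Measure.measure_neg,
    h3, smul_eq_mul, two_mul]

instance sf_abs : SigmaFinite ((volume : Measure ℝ).map (fun x => |x|)) := by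
  rw [map_abs]
  refine ⟨⟨⟨fun n => Set.Iic (n : ℝ), fun _ => trivial, fun n => ?_, ?_⟩⟩⟩
  · rw [Measure.smul_apply, smul_eq_mul, Measure.restrict_apply measurableSet_Iic]
    refine ENNReal.mul_lt_top (by norm_num) ?_
    rw [Set.inter_comm, Set.Ici_inter_Iic, Real.volume_Icc]
    exact ENNReal.ofReal_lt_top
  · rw [Set.eq_univ_iff_forall]
    intro x
    obtain ⟨n, hn⟩ := exists_nat_ge x
    exact Set.mem_iUnion.2 ⟨n, hn⟩

lemma map_abs_pi (d : ℕ) : (volume : Measure (Fin d → ℝ)).map (fun x i => |x i|) =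
    (2 : ℝ≥0∞) ^ d • (volume : Measure (Fin d → ℝ)).restrict
      (Set.univ.pi fun _ : Fin d => Set.Ici (0 : ℝ)) := by
  have h := Measure.pi_map_pi (μ := fun _ : Fin d => (volume : Measure ℝ))
    (f := fun _ x => |x|) (fun _ => by fun_prop)
  rw [volume_pi, h]
  refine Measure.pi_eq (fun s hs => ?_)
  rw [Measure.smul_apply, Measure.restrict_pi_pi, Measure.pi_pi, map_abs, smul_eq_mul]
  simp only [Measure.smul_apply, smul_eq_mul]
  rw [prod_mul_distrib, prod_const, card_univ, Fintype.card_fin]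

/-- the sets of the points of the orthant -/
lemma vol_orthant (d : ℕ) (B : Set (Fin d → ℝ)) (hB : MeasurableSet B)
    (hBs : ∀ x, (fun i => |x i|) ∈ B ↔ x ∈ B) :
    volume B = 2 ^ d * volume (B ∩ {v | ∀ l, 0 ≤ v l}) := by
  have h : (volume : Measure (Fin d → ℝ)).map (fun x i => |x i|) B =
      ((2 : ℝ≥0∞) ^ d • (volume : Measure (Fin d → ℝ)).restrict
      (Set.univ.pi fun _ : Fin d => Set.Ici (0 : ℝ))) B := by rw [map_abs_pi]
  rw [Measure.map_apply (by fun_prop) hB, Measure.smul_apply, Measure.restrict_apply hB,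
    smul_eq_mul] at h
  have h1 : (fun (x : Fin d → ℝ) i => |x i|) ⁻¹' B = B := by
    ext x
    exact hBs x
  have h2 : (Set.univ.pi fun _ : Fin d => Set.Ici (0 : ℝ)) = {v | ∀ l, 0 ≤ v l} := by
    ext v
    simp only [Set.mem_univ_pi, Set.mem_Ici, Set.mem_ofPred_eq]
  rw [h1, h2] at h
  exact h

lemma vol_le {k d : ℕ} (hk : 1 ≤ k) (hd : 1 ≤ d) {s : ℝ} (hs : 0 ≤ s) :
    volume {v : Fin d → ℝ | (∀ l, 0 ≤ v l) ∧ ∑ l, v l ^ k ≤ s} =
      ENNReal.ofReal (s ^ ((d : ℝ) / k) * (Real.Gamma (1 / k + 1) ^ d / Real.Gamma ((d : ℝ) / k + 1))) ∧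
    volume {v : Fin d → ℝ | (∀ l, 0 ≤ v l) ∧ ∑ l, v l ^ k < s} =
      ENNReal.ofReal (s ^ ((d : ℝ) / k) * (Real.Gamma (1 / k + 1) ^ d / Real.Gamma ((d : ℝ) / k + 1))) := by
  have hk0 : (0 : ℝ) < k := by exact_mod_cast hk
  have : Nonempty (Fin d) := ⟨⟨0, hd⟩⟩
  have hk1 : (1 : ℝ) ≤ k := by exact_mod_cast hk
  have hc : ENNReal.ofReal (s ^ (1 / (k : ℝ))) ^ d *
      ENNReal.ofReal ((2 * Real.Gamma (1 / (k : ℝ) + 1)) ^ d / Real.Gamma ((d : ℝ) / k + 1)) =
      2 ^ d * ENNReal.ofReal (s ^ ((d : ℝ) / k) *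
        (Real.Gamma (1 / k + 1) ^ d / Real.Gamma ((d : ℝ) / k + 1))) := by
    have e1 : (2 : ℝ≥0∞) ^ d = ENNReal.ofReal (2 ^ d) := by
      rw [ENNReal.ofReal_pow (by norm_num)]
      norm_num
    have e2 : 0 ≤ s ^ (1 / (k : ℝ)) := Real.rpow_nonneg hs _
    rw [e1, ← ENNReal.ofReal_pow e2, ← ENNReal.ofReal_mul (by positivity),
      ← ENNReal.ofReal_mul (by positivity)]
    congr 1
    have e3 : (s ^ (1 / (k : ℝ))) ^ d = s ^ ((d : ℝ) / k) := by
      rw [← Real.rpow_natCast, ← Real.rpow_mul hs]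
      congr 1
      ring
    rw [e3, mul_pow]
    ring
  have h2 : (2 : ℝ≥0∞) ^ d ≠ 0 := pow_ne_zero _ (by norm_num)
  have h2' : (2 : ℝ≥0∞) ^ d ≠ ⊤ := ENNReal.pow_ne_top (by norm_num)
  have hiff : ∀ v : Fin d → ℝ, (∀ l, 0 ≤ v l) →
      (((∑ l, |v l| ^ (k : ℝ)) ^ (1 / (k : ℝ)) ≤ s ^ (1 / (k : ℝ)) ↔ ∑ l, v l ^ k ≤ s) ∧
       ((∑ l, |v l| ^ (k : ℝ)) ^ (1 / (k : ℝ)) < s ^ (1 / (k : ℝ)) ↔ ∑ l, v l ^ k < s)) := by
    intro v hv
    have e1 : ∑ l, |v l| ^ (k : ℝ) = ∑ l, v l ^ k :=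
      sum_congr rfl (fun l _ => by rw [abs_of_nonneg (hv l), Real.rpow_natCast])
    have e2 : 0 ≤ ∑ l, v l ^ k := sum_nonneg (fun l _ => pow_nonneg (hv l) k)
    rw [e1]
    exact ⟨Real.rpow_le_rpow_iff e2 hs (by positivity), Real.rpow_lt_rpow_iff e2 hs (by positivity)⟩
  constructor
  · have h1 := volume_sum_rpow_le (Fin d) hk1 (s ^ (1 / (k : ℝ)))
    rw [Fintype.card_fin, hc, vol_orthant] at h1
    · have h3 := (ENNReal.mul_right_inj h2 h2').1 h1
      rw [← h3]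
      congr 1
      ext v
      constructor
      · rintro ⟨h4, h5⟩
        exact ⟨(hiff v h4).1.2 h5, h4⟩
      · rintro ⟨h4, h5⟩
        exact ⟨h5, (hiff v h5).1.1 h4⟩
    · exact measurableSet_le (by fun_prop) measurable_const
    · intro x
      simp only [Set.mem_ofPred_eq, abs_abs]
  · have h1 := volume_sum_rpow_lt (Fin d) hk1 (s ^ (1 / (k : ℝ)))
    rw [Fintype.card_fin, hc, vol_orthant] at h1
    · have h3 := (ENNReal.mul_right_inj h2 h2').1 h1
      rw [← h3]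
      congr 1
      ext v
      constructor
      · rintro ⟨h4, h5⟩
        exact ⟨(hiff v h4).2.2 h5, h4⟩
      · rintro ⟨h4, h5⟩
        exact ⟨h5, (hiff v h5).2.1 h4⟩
    · exact measurableSet_lt (by fun_prop) measurable_const
    · intro x
      simp only [Set.mem_ofPred_eq, abs_abs]

lemma vol_shell {k d : ℕ} (hk : 1 ≤ k) (hd : 1 ≤ d) {η t : ℝ} (hη : 0 < η) (ht : η < t) :
    volume.real {v : Fin d → ℝ | (∀ l, 0 ≤ v l) ∧ |∑ l, v l ^ k - t| ≤ η} =
      ((t + η) ^ ((d : ℝ) / k) - (t - η) ^ ((d : ℝ) / k)) *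
        (Real.Gamma (1 / k + 1) ^ d / Real.Gamma ((d : ℝ) / k + 1)) := by
  have hk0 : (0 : ℝ) < k := by exact_mod_cast hk
  have h1 := (vol_le (s := t + η) hk hd (by linarith)).1
  have h2 := (vol_le (s := t - η) hk hd (by linarith)).2
  have hset : {v : Fin d → ℝ | (∀ l, 0 ≤ v l) ∧ |∑ l, v l ^ k - t| ≤ η} =
      {v : Fin d → ℝ | (∀ l, 0 ≤ v l) ∧ ∑ l, v l ^ k ≤ t + η} \
        {v : Fin d → ℝ | (∀ l, 0 ≤ v l) ∧ ∑ l, v l ^ k < t - η} := by
    ext v
    simp only [Set.mem_ofPred_eq, Set.mem_sdiff, not_and, not_lt, abs_le]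
    constructor
    · rintro ⟨h3, h4, h5⟩
      exact ⟨⟨h3, by linarith⟩, fun _ => by linarith⟩
    · rintro ⟨⟨h3, h4⟩, h5⟩
      have := h5 h3
      exact ⟨h3, by linarith, by linarith⟩
  have hG : 0 ≤ Real.Gamma (1 / k + 1) ^ d / Real.Gamma ((d : ℝ) / k + 1) := by
    have e1 : 0 < Real.Gamma (1 / (k : ℝ) + 1) := Real.Gamma_pos_of_pos (by positivity)
    have e2 : 0 < Real.Gamma ((d : ℝ) / k + 1) := Real.Gamma_pos_of_pos (by positivity)
    positivity
  have hmeas : MeasurableSet {v : Fin d → ℝ | (∀ l, 0 ≤ v l) ∧ ∑ l, v l ^ k < t - η} := by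
    have hm : MeasurableSet {v : Fin d → ℝ | ∀ l, 0 ≤ v l} := by
      have : {v : Fin d → ℝ | ∀ l, 0 ≤ v l} = ⋂ l, {v : Fin d → ℝ | 0 ≤ v l} := by
        ext v
        simp
      rw [this]
      exact MeasurableSet.iInter (fun l => measurableSet_le measurable_const (measurable_pi_apply l))
    have hm2 : MeasurableSet {v : Fin d → ℝ | ∑ l, v l ^ k < t - η} :=
      measurableSet_lt (by fun_prop) measurable_const
    exact hm.inter hm2
  rw [hset, measureReal_sdiff ?_ hmeas (by rw [h1]; exact ENNReal.ofReal_ne_top)]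
  · unfold Measure.real
    rw [h1, h2, ENNReal.toReal_ofReal, ENNReal.toReal_ofReal]
    · ring
    · have := Real.rpow_nonneg (show 0 ≤ t - η by linarith) ((d : ℝ) / k)
      positivity
    · have := Real.rpow_nonneg (show 0 ≤ t + η by linarith) ((d : ℝ) / k)
      positivity
  · rintro v ⟨h3, h4⟩
    exact ⟨h3, by linarith⟩

theorem t_V2 : S_V2 := by
  intro k d hk hkd η hη
  have hk0 : (0 : ℝ) < k := by exact_mod_cast hk
  have hd : 1 ≤ d := by omega
  have hd0 : (0 : ℝ) < d := by exact_mod_cast hd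
  set a : ℝ := (d : ℝ) / k with ha
  have ha0 : 0 < a := by positivity
  set c : ℝ := Real.Gamma (1 / k + 1) ^ d / Real.Gamma (a + 1) with hc
  have hlim : Tendsto (fun t : ℝ => ((t + η) ^ a - (t - η) ^ a) / t ^ (a - 1)) atTop
      (𝓝 (2 * η * a)) := by
    have hg : HasDerivAt (fun h : ℝ => (1 + η * h) ^ a - (1 - η * h) ^ a) (2 * η * a) 0 := by
      have h1 : HasDerivAt (fun h : ℝ => 1 + η * h) η 0 := by
        simpa using ((hasDerivAt_id (0 : ℝ)).const_mul η).const_add 1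
      have h2 : HasDerivAt (fun h : ℝ => 1 - η * h) (-η) 0 := by
        simpa using ((hasDerivAt_id (0 : ℝ)).const_mul η).const_sub 1
      have h3 := h1.rpow_const (p := a) (Or.inl (by norm_num))
      have h4 := h2.rpow_const (p := a) (Or.inl (by norm_num))
      have h5 := h3.sub h4
      have e : 2 * η * a = η * a * (1 + η * 0) ^ (a - 1) - -η * a * (1 - η * 0) ^ (a - 1) := by
        rw [mul_zero, add_zero, sub_zero, Real.one_rpow]
        ring
      rw [e]
      exact h5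
    have h6 := (hg.tendsto_slope_zero_right).comp (tendsto_inv_atTop_nhdsGT_zero (𝕜 := ℝ))
    refine h6.congr' ?_
    filter_upwards [eventually_gt_atTop η, eventually_gt_atTop 0] with t ht ht0
    simp only [Function.comp_apply, zero_add, mul_zero, sub_zero, add_zero, smul_eq_mul, inv_inv,
      sub_self]
    have e1 : 1 + η * t⁻¹ = (t + η) / t := by field_simp
    have e2 : 1 - η * t⁻¹ = (t - η) / t := by field_simp
    rw [e1, e2, Real.div_rpow (by linarith) ht0.le, Real.div_rpow (by linarith) ht0.le,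
      Real.rpow_sub ht0, Real.rpow_one]
    have e3 : 0 < t ^ a := Real.rpow_pos_of_pos ht0 a
    field_simp
    try ring
  have h7 : Tendsto (fun t : ℝ => (((t + η) ^ a - (t - η) ^ a) / t ^ (a - 1)) * c) atTop
      (𝓝 (2 * η * a * c)) := hlim.mul_const c
  have h8 : 2 * η * a * c = 2 * η * Real.Gamma (1 + 1 / k) ^ d / Real.Gamma a := by
    have e1 : 0 < Real.Gamma a := Real.Gamma_pos_of_pos ha0
    rw [hc, Real.Gamma_add_one ha0.ne', add_comm (1 : ℝ) (1 / (k : ℝ))]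
    field_simp
  rw [h8] at h7
  refine h7.congr' ?_
  filter_upwards [eventually_gt_atTop η] with t ht
  rw [vol_shell hk hd hη ht]
  ring

end Pool.Agent.U160.WP.PkgV2

namespace Pool.Agent.U160.WP

theorem t_V2 : S_V2 := PkgV2.t_V2

end Pool.Agent.U160.WP
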