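import Pool.Agent.U160.WP.Stm

/-!
# Project WP, package V3: the part of the shell near a diagonal (helper796)

`t_V3 : S_V1 → S_V3`
-/

set_option autoImplicit false

namespace Pool.Agent.U160.WP

open MeasureTheory Finset

namespace V3

/-- comparison of volumes by fibres in one coordinate -/
theorem fib {n : ℕ} (j : Fin (n + 1)) (c : ENNReal) {S T : Set (Fin (n + 1) → ℝ)} (hS : MeasurableSet S)
    (hT : MeasurableSet T)
    (h : ∀ v : Fin (n + 1) → ℝ, volume {a : ℝ | Function.update v j a ∈ S} ≤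
      c * volume {a : ℝ | Function.update v j a ∈ T}) : volume S ≤ c * volume T := by
  have key : ∀ R : Set (Fin (n + 1) → ℝ), MeasurableSet R →
      volume R = ∫⁻ r : Fin n → ℝ, volume {a : ℝ | j.insertNth a r ∈ R} := by
    intro R hR
    have h1 := (volume_preserving_piFinSuccAbove (fun _ : Fin (n + 1) => ℝ) j).symm.measure_preimage
      hR.nullMeasurableSet
    rw [← h1, Measure.volume_eq_prod, Measure.prod_apply_symm]
    · rfl
    · exact (MeasurableEquiv.piFinSuccAbove (fun _ : Fin (n + 1) => ℝ) j).symm.measurable hR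
  rw [key S hS, key T hT]
  have hmeas : Measurable fun r : Fin n → ℝ => volume {a : ℝ | j.insertNth a r ∈ T} := by
    have := measurable_measure_prodMk_right (μ := (volume : Measure ℝ))
      ((MeasurableEquiv.piFinSuccAbove (fun _ : Fin (n + 1) => ℝ) j).symm.measurable hT)
    exact this
  rw [← lintegral_const_mul _ hmeas]
  refine lintegral_mono fun r => ?_
  have := h (j.insertNth 0 r)
  simpa only [Fin.update_insertNth] using this

/-- the one-dimensional comparison -/
theorem oned (k : ℕ) (hk : 1 ≤ k) (u μ η : ℝ) (hu : 0 ≤ u) :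
    volume {b : ℝ | 0 ≤ b ∧ u ≤ b ∧ |(b - u) ^ k + b ^ k - μ| ≤ η} ≤
      2 ^ (k - 1) * volume {w : ℝ | 0 ≤ w ∧ |w ^ k - μ| ≤ η} := by
  have hk0 : k ≠ 0 := by omega
  set W : Set ℝ := {w : ℝ | 0 ≤ w ∧ |w ^ k - μ| ≤ η} with hW
  -- the key claim for `a ≤ b`
  have key : ∀ a b : ℝ, u ≤ a → a ≤ b → |(a - u) ^ k + a ^ k - μ| ≤ η → |(b - u) ^ k + b ^ k - μ| ≤ η →
      ENNReal.ofReal (b - a) ≤ 2 ^ (k - 1) * volume W := by
    intro a b hua hab ha hb
    rcases hab.eq_or_lt with rfl | hlt
    · simp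
    have ha0 : 0 ≤ a := hu.trans hua
    have hb0 : 0 < b := ha0.trans_lt hlt
    have hya : 0 ≤ (a - u) ^ k + a ^ k := by
      have : 0 ≤ a - u := by linarith
      positivity
    have hyb : 0 ≤ (b - u) ^ k + b ^ k := by
      have : 0 ≤ b - u := by linarith
      positivity
    obtain ⟨p, hp0, hp⟩ : ∃ p : ℝ, 0 ≤ p ∧ p ^ k = (a - u) ^ k + a ^ k :=
      ⟨((a - u) ^ k + a ^ k) ^ ((k : ℝ)⁻¹), Real.rpow_nonneg hya _, Real.rpow_inv_natCast_pow hya hk0⟩
    obtain ⟨q, hq0, hq⟩ : ∃ q : ℝ, 0 ≤ q ∧ q ^ k = (b - u) ^ k + b ^ k :=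
      ⟨((b - u) ^ k + b ^ k) ^ ((k : ℝ)⁻¹), Real.rpow_nonneg hyb _, Real.rpow_inv_natCast_pow hyb hk0⟩
    have hbound : ∀ x y : ℝ, u ≤ x → 0 ≤ y → y ^ k = (x - u) ^ k + x ^ k → y ≤ 2 * x := by
      intro x y hux hy h
      have hx0 : 0 ≤ x := hu.trans hux
      have h1 : (x - u) ^ k ≤ x ^ k := pow_le_pow_left₀ (by linarith) (by linarith) k
      have h2 : (2 : ℝ) ≤ 2 ^ k := by
        calc (2 : ℝ) = 2 ^ 1 := by norm_num
          _ ≤ 2 ^ k := pow_le_pow_right₀ (by norm_num) hk
      have h3 : y ^ k ≤ (2 * x) ^ k := by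
        rw [h, mul_pow]
        have : 0 ≤ x ^ k := by positivity
        nlinarith
      exact le_of_pow_le_pow_left₀ hk0 (by positivity) h3
    have hpa := hbound a p hua hp0 hp
    have hqb := hbound b q (hua.trans hab) hq0 hq
    have hmono : b ^ k - a ^ k ≤ q ^ k - p ^ k := by
      rw [hp, hq]
      have : (a - u) ^ k ≤ (b - u) ^ k := pow_le_pow_left₀ (by linarith) (by linarith) k
      linarith
    have hpow_ab : a ^ k < b ^ k := pow_lt_pow_left₀ hlt ha0 hk0
    have hpq : p ≤ q := by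
      have : p ^ k ≤ q ^ k := by linarith
      exact le_of_pow_le_pow_left₀ hk0 hq0 this
    set G : ℝ := ∑ i ∈ range k, b ^ i * a ^ (k - 1 - i) with hG
    have hG1 : G * (b - a) = b ^ k - a ^ k := geom_sum₂_mul b a k
    have hGpos : 0 < G := by
      have : 0 < G * (b - a) := by rw [hG1]; linarith
      exact (pos_iff_pos_of_mul_pos this).2 (by linarith)
    have hQ : (∑ i ∈ range k, q ^ i * p ^ (k - 1 - i)) * (q - p) = q ^ k - p ^ k := geom_sum₂_mul q p k
    have hQle : ∑ i ∈ range k, q ^ i * p ^ (k - 1 - i) ≤ 2 ^ (k - 1) * G := by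
      rw [hG, Finset.mul_sum]
      refine Finset.sum_le_sum fun i hi => ?_
      have hik : i ≤ k - 1 := by have := Finset.mem_range.1 hi; omega
      calc q ^ i * p ^ (k - 1 - i) ≤ (2 * b) ^ i * (2 * a) ^ (k - 1 - i) := by
            gcongr
        _ = 2 ^ (k - 1) * (b ^ i * a ^ (k - 1 - i)) := by
            rw [mul_pow, mul_pow]
            have : (2 : ℝ) ^ (k - 1) = 2 ^ i * 2 ^ (k - 1 - i) := by
              rw [← pow_add]; congr 1; omega
            rw [this]; ring
    have hfin : b - a ≤ 2 ^ (k - 1) * (q - p) := by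
      have h1 : G * (b - a) ≤ G * (2 ^ (k - 1) * (q - p)) := by
        calc G * (b - a) = b ^ k - a ^ k := hG1
          _ ≤ q ^ k - p ^ k := hmono
          _ = (∑ i ∈ range k, q ^ i * p ^ (k - 1 - i)) * (q - p) := hQ.symm
          _ ≤ (2 ^ (k - 1) * G) * (q - p) := by
              have : 0 ≤ q - p := by linarith
              gcongr
          _ = G * (2 ^ (k - 1) * (q - p)) := by ring
      exact le_of_mul_le_mul_left h1 hGpos
    have hsub : Set.Icc p q ⊆ W := by
      intro w hw
      have hw0 : 0 ≤ w := hp0.trans hw.1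
      refine ⟨hw0, ?_⟩
      have h1 : p ^ k ≤ w ^ k := pow_le_pow_left₀ hp0 hw.1 k
      have h2 : w ^ k ≤ q ^ k := pow_le_pow_left₀ hw0 hw.2 k
      rw [hp] at h1
      rw [hq] at h2
      rw [abs_le] at ha hb ⊢
      constructor <;> linarith [ha.1, ha.2, hb.1, hb.2]
    calc ENNReal.ofReal (b - a) ≤ ENNReal.ofReal (2 ^ (k - 1) * (q - p)) := ENNReal.ofReal_le_ofReal hfin
      _ = 2 ^ (k - 1) * ENNReal.ofReal (q - p) := by
          rw [ENNReal.ofReal_mul (by positivity), ENNReal.ofReal_pow (by norm_num)]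
          norm_num
      _ = 2 ^ (k - 1) * volume (Set.Icc p q) := by rw [Real.volume_Icc]
      _ ≤ 2 ^ (k - 1) * volume W := by gcongr
  refine (Real.volume_le_diam _).trans ?_
  refine Metric.ediam_le fun a ha b hb => ?_
  rw [edist_dist, Real.dist_eq]
  rcases le_total a b with h | h
  · rw [abs_of_nonpos (by linarith)]
    have := key a b ha.2.1 h ha.2.2 hb.2.2
    simpa using this
  · rw [abs_of_nonneg (by linarith)]
    exact key b a hb.2.1 h hb.2.2 ha.2.2

/-- one half of the shell near a diagonal -/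
theorem half (k m : ℕ) (hk : 1 ≤ k) (i : Fin (m + 2)) (j' : Fin (m + 1)) (η t : ℝ) :
    volume {v : Fin (m + 2) → ℝ | (∀ l, 0 ≤ v l) ∧ (0 ≤ v (i.succAbove j') - v i ∧ v (i.succAbove j') - v i ≤ 1) ∧
      |∑ l, v l ^ k - t| ≤ η} ≤
    2 ^ (k - 1) * volume {v : Fin (m + 1) → ℝ | (∀ l, 0 ≤ v l) ∧ |∑ l, v l ^ k - t| ≤ η} := by
  set j : Fin (m + 2) := i.succAbove j' with hj
  have hji : j ≠ i := Fin.succAbove_ne i j'
  set A : Set (Fin (m + 2) → ℝ) := {v | (∀ l, 0 ≤ v l) ∧ (0 ≤ v j - v i ∧ v j - v i ≤ 1) ∧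
      |∑ l, v l ^ k - t| ≤ η} with hA
  set A' : Set (Fin (m + 2) → ℝ) := {v | (∀ l, 0 ≤ v l) ∧ v i ≤ 1 ∧ v i ≤ v j ∧
      |(v j - v i) ^ k + ∑ l, v (i.succAbove l) ^ k - t| ≤ η} with hA'
  set T : Set (Fin (m + 2) → ℝ) := {v | (∀ l, 0 ≤ v l) ∧ v i ≤ 1 ∧
      |∑ l, v (i.succAbove l) ^ k - t| ≤ η} with hT
  have mpos : MeasurableSet {v : Fin (m + 2) → ℝ | ∀ l, 0 ≤ v l} := by
    have : {v : Fin (m + 2) → ℝ | ∀ l, 0 ≤ v l} = ⋂ l, {v | 0 ≤ v l} := by ext v; simp
    rw [this]
    exact MeasurableSet.iInter fun l => measurableSet_le measurable_const (measurable_pi_apply l)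
  have mA : MeasurableSet A := by
    refine mpos.inter (MeasurableSet.inter (MeasurableSet.inter ?_ ?_) ?_)
    · exact measurableSet_le measurable_const ((measurable_pi_apply j).sub (measurable_pi_apply i))
    · exact measurableSet_le ((measurable_pi_apply j).sub (measurable_pi_apply i)) measurable_const
    · have : Measurable fun v : Fin (m + 2) → ℝ => |∑ l, v l ^ k - t| := by fun_prop
      exact measurableSet_le this measurable_const
  have mA' : MeasurableSet A' := by
    refine mpos.inter (MeasurableSet.inter ?_ (MeasurableSet.inter ?_ ?_))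
    · exact measurableSet_le (measurable_pi_apply i) measurable_const
    · exact measurableSet_le (measurable_pi_apply i) (measurable_pi_apply j)
    · have : Measurable fun v : Fin (m + 2) → ℝ => |(v j - v i) ^ k + ∑ l, v (i.succAbove l) ^ k - t| := by fun_prop
      exact measurableSet_le this measurable_const
  have mT : MeasurableSet T := by
    refine mpos.inter (MeasurableSet.inter ?_ ?_)
    · exact measurableSet_le (measurable_pi_apply i) measurable_const
    · have : Measurable fun v : Fin (m + 2) → ℝ => |∑ l, v (i.succAbove l) ^ k - t| := by fun_prop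
      exact measurableSet_le this measurable_const
  -- step 1
  have s1 : volume A ≤ volume A' := by
    have := fib i 1 mA mA' (fun v => ?_)
    · simpa using this
    · rw [one_mul]
      have hsub : {a : ℝ | Function.update v i a ∈ A} ⊆
          (fun a : ℝ => v j - a) ⁻¹' {a : ℝ | Function.update v i a ∈ A'} := by
        intro a ha
        obtain ⟨h0, ⟨h1, h2⟩, h3⟩ := ha
        have hupd : ∀ (x : ℝ) (l : Fin (m + 1)), Function.update v i x (i.succAbove l) = v (i.succAbove l) :=
          fun x l => Function.update_of_ne (Fin.succAbove_ne i l) _ _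
        rw [Fin.sum_univ_succAbove _ i] at h3
        simp only [Function.update_self, hupd, Function.update_of_ne hji] at h1 h2 h3
        have ha0 : 0 ≤ a := by simpa using h0 i
        refine ⟨fun l => ?_, ?_, ?_, ?_⟩
        · by_cases hl : l = i
          · subst hl
            simpa using h1
          · have := h0 l
            rw [Function.update_of_ne hl] at this ⊢
            exact this
        · simpa using h2
        · simp only [Function.update_self, Function.update_of_ne hji]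
          linarith
        · simp only [Function.update_self, hupd, Function.update_of_ne hji]
          rw [show v j - (v j - a) = a by ring]
          exact h3
      refine (measure_mono hsub).trans ?_
      refine le_of_eq ?_
      have hmeas : MeasurableSet {a : ℝ | Function.update v i a ∈ A'} := by
        have : Measurable fun a : ℝ => Function.update v i a := measurable_update v
        exact this mA'
      exact (Measure.measurePreserving_sub_left (volume : Measure ℝ) (v j)).measure_preimage hmeas.nullMeasurableSet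
  -- step 2
  have s2 : volume A' ≤ 2 ^ (k - 1) * volume T := by
    refine fib j _ mA' mT (fun v => ?_)
    set R : ℝ := ∑ l : Fin m, v (i.succAbove (j'.succAbove l)) ^ k with hR
    have hupd : ∀ (x : ℝ) (l : Fin m), Function.update v j x (i.succAbove (j'.succAbove l)) =
        v (i.succAbove (j'.succAbove l)) := fun x l => by
      refine Function.update_of_ne ?_ _ _
      rw [hj]
      intro h
      exact Fin.succAbove_ne j' l (Fin.succAbove_right_injective h)
    have hsum : ∀ x : ℝ, ∑ l, Function.update v j x (i.succAbove l) ^ k = x ^ k + R := by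
      intro x
      rw [Fin.sum_univ_succAbove _ j']
      simp only [hupd]
      rw [← hj, Function.update_self]
    by_cases hgood : (∀ l, l ≠ j → 0 ≤ v l) ∧ v i ≤ 1
    · obtain ⟨hg0, hg1⟩ := hgood
      have hvi : 0 ≤ v i := hg0 i hji.symm
      have hS : {a : ℝ | Function.update v j a ∈ A'} ⊆
          {b : ℝ | 0 ≤ b ∧ v i ≤ b ∧ |(b - v i) ^ k + b ^ k - (t - R)| ≤ η} := by
        intro a ha
        obtain ⟨h0, h1, h2, h3⟩ := ha
        simp only [Function.update_self, Function.update_of_ne hji.symm, hsum] at h1 h2 h3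
        refine ⟨by simpa using h0 j, h2, ?_⟩
        rw [show (a - v i) ^ k + a ^ k - (t - R) = (a - v i) ^ k + (a ^ k + R) - t by ring]
        exact h3
      have hTT : {w : ℝ | 0 ≤ w ∧ |w ^ k - (t - R)| ≤ η} ⊆ {a : ℝ | Function.update v j a ∈ T} := by
        intro w hw
        obtain ⟨h0, h1⟩ := hw
        refine ⟨fun l => ?_, ?_, ?_⟩
        · by_cases hl : l = j
          · subst hl; simpa using h0
          · rw [Function.update_of_ne hl]; exact hg0 l hl
        · simpa only [Function.update_of_ne hji.symm] using hg1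
        · rw [hsum, show w ^ k + R - t = w ^ k - (t - R) by ring]
          exact h1
      calc volume {a : ℝ | Function.update v j a ∈ A'} ≤
            volume {b : ℝ | 0 ≤ b ∧ v i ≤ b ∧ |(b - v i) ^ k + b ^ k - (t - R)| ≤ η} := measure_mono hS
        _ ≤ 2 ^ (k - 1) * volume {w : ℝ | 0 ≤ w ∧ |w ^ k - (t - R)| ≤ η} := oned k hk _ _ _ hvi
        _ ≤ 2 ^ (k - 1) * volume {a : ℝ | Function.update v j a ∈ T} := by
            gcongr
    · have hE : {a : ℝ | Function.update v j a ∈ A'} = ∅ := by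
        ext a
        simp only [Set.mem_ofPred_eq, Set.mem_empty_iff_false, iff_false]
        rintro ⟨h0, h1, -, -⟩
        refine hgood ⟨fun l hl => ?_, ?_⟩
        · have := h0 l
          rwa [Function.update_of_ne hl] at this
        · rwa [Function.update_of_ne hji.symm] at h1
      rw [hE]
      simp
  -- step 3
  have s3 : volume T ≤ volume {v : Fin (m + 1) → ℝ | (∀ l, 0 ≤ v l) ∧ |∑ l, v l ^ k - t| ≤ η} := by
    have h1 := (volume_preserving_piFinSuccAbove (fun _ : Fin (m + 2) => ℝ) i).symm.measure_preimage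
      mT.nullMeasurableSet
    rw [← h1, Measure.volume_eq_prod]
    have hsub : (MeasurableEquiv.piFinSuccAbove (fun _ : Fin (m + 2) => ℝ) i).symm ⁻¹' T ⊆
        Set.Icc (0 : ℝ) 1 ×ˢ {v : Fin (m + 1) → ℝ | (∀ l, 0 ≤ v l) ∧ |∑ l, v l ^ k - t| ≤ η} := by
      rintro ⟨a, r⟩ har
      have har' : i.insertNth a r ∈ T := har
      obtain ⟨h0, h1, h2⟩ := har'
      simp only [Fin.insertNth_apply_same, Fin.insertNth_apply_succAbove] at h1 h2
      refine ⟨⟨by simpa using h0 i, h1⟩, fun l => ?_, h2⟩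
      simpa using h0 (i.succAbove l)
    refine (measure_mono hsub).trans ?_
    rw [Measure.prod_prod]
    simp
  calc volume A ≤ volume A' := s1
    _ ≤ 2 ^ (k - 1) * volume T := s2
    _ ≤ _ := by gcongr

end V3

open V3 in
theorem t_V3 : S_V1 → S_V3 := by
  intro hV1 k d hk i j hij η hη
  obtain ⟨m, rfl⟩ : ∃ m, d = m + 2 := by
    have h1 := i.isLt
    have h2 := j.isLt
    have h3 : i.val ≠ j.val := fun h => hij (Fin.ext h)
    exact ⟨d - 2, by omega⟩
  obtain ⟨C, hC, hb⟩ := hV1 k (m + 1) 1 hk (by omega) η hη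
  refine ⟨2 * 2 ^ (k - 1) * C, by positivity, fun t => ?_⟩
  have hb' := hb (fun _ => 1) (fun _ => ⟨le_rfl, le_rfl⟩) t
  simp only [Nat.cast_one, one_mul] at hb'
  set V : Set (Fin (m + 1) → ℝ) := {v | (∀ l, 0 ≤ v l) ∧ |∑ l, v l ^ k - t| ≤ η} with hV
  have hfinite : volume V ≠ ⊤ := by
    have hsub : V ⊆ Set.Icc (fun _ => (0 : ℝ)) (fun _ => |t| + η + 1) := by
      intro v hv
      obtain ⟨h0, h1⟩ := hv
      refine ⟨fun l => h0 l, fun l => ?_⟩
      have h2 : v l ^ k ≤ ∑ l, v l ^ k :=
        Finset.single_le_sum (f := fun l => v l ^ k) (fun x _ => pow_nonneg (h0 x) k) (Finset.mem_univ l)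
      have h3 : ∑ l, v l ^ k ≤ |t| + η := by
        have := (abs_le.1 h1).2
        have := le_abs_self t
        linarith
      show v l ≤ |t| + η + 1
      rcases le_total (v l) 1 with h | h
      · have := abs_nonneg t
        linarith
      · have : v l ≤ v l ^ k := le_self_pow₀ h (by omega)
        linarith
    exact ((measure_mono hsub).trans_lt (isCompact_Icc.measure_lt_top)).ne
  obtain ⟨j', hj'⟩ := Fin.exists_succAbove_eq (x := j) (y := i) hij.symm
  obtain ⟨i', hi'⟩ := Fin.exists_succAbove_eq (x := i) (y := j) hij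
  have h1 := half k m hk i j' η t
  have h2 := half k m hk j i' η t
  rw [hj'] at h1
  rw [hi'] at h2
  have hsub : {v : Fin (m + 2) → ℝ | (∀ l, 0 ≤ v l) ∧ |v i - v j| ≤ 1 ∧ |∑ l, v l ^ k - t| ≤ η} ⊆
      {v : Fin (m + 2) → ℝ | (∀ l, 0 ≤ v l) ∧ (0 ≤ v j - v i ∧ v j - v i ≤ 1) ∧ |∑ l, v l ^ k - t| ≤ η} ∪
      {v : Fin (m + 2) → ℝ | (∀ l, 0 ≤ v l) ∧ (0 ≤ v i - v j ∧ v i - v j ≤ 1) ∧ |∑ l, v l ^ k - t| ≤ η} := by
    rintro v ⟨h0, h1, h2⟩
    rw [abs_le] at h1
    rcases le_total (v i) (v j) with h | h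
    · exact Or.inl ⟨h0, ⟨by linarith, by linarith [h1.1]⟩, h2⟩
    · exact Or.inr ⟨h0, ⟨by linarith, h1.2⟩, h2⟩
  have htot : volume {v : Fin (m + 2) → ℝ | (∀ l, 0 ≤ v l) ∧ |v i - v j| ≤ 1 ∧ |∑ l, v l ^ k - t| ≤ η} ≤
      2 * 2 ^ (k - 1) * volume V := by
    calc _ ≤ _ := measure_mono hsub
      _ ≤ _ := measure_union_le _ _
      _ ≤ 2 ^ (k - 1) * volume V + 2 ^ (k - 1) * volume V := add_le_add h1 h2
      _ = 2 * 2 ^ (k - 1) * volume V := by ring
  have hreal : volume.real {v : Fin (m + 2) → ℝ | (∀ l, 0 ≤ v l) ∧ |v i - v j| ≤ 1 ∧ |∑ l, v l ^ k - t| ≤ η} ≤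
      2 * 2 ^ (k - 1) * volume.real V := by
    have hne : (2 : ENNReal) * 2 ^ (k - 1) * volume V ≠ ⊤ := by
      refine ENNReal.mul_ne_top (ENNReal.mul_ne_top (by simp) (by simp)) hfinite
    have := ENNReal.toReal_mono hne htot
    rw [ENNReal.toReal_mul, ENNReal.toReal_mul, ENNReal.toReal_pow] at this
    simpa [Measure.real] using this
  calc _ ≤ 2 * 2 ^ (k - 1) * volume.real V := hreal
    _ ≤ 2 * 2 ^ (k - 1) * (C * (1 + |t|) ^ (((m + 1 : ℕ) : ℝ) / k - 1)) := by gcongr
    _ = 2 * 2 ^ (k - 1) * C * (1 + |t|) ^ ((((m + 2 : ℕ) : ℝ) - 1) / k - 1) := by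
        push_cast
        rw [show (m : ℝ) + 2 - 1 = m + 1 by ring]
        ring

end Pool.Agent.U160.WP
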