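import Pool.Agent.U160.WP.Main
import Pool.Agent.U160.WP.PkgMOMa
import Pool.Agent.U160.WP.PkgMOM
import Pool.Agent.U160.WP.PkgV1
import Pool.Agent.U160.WP.PkgV2
import Pool.Agent.U160.WP.PkgV3
import Pool.Agent.U160.WP.PkgPV
import Pool.Agent.U160.WP.PkgCD
import Pool.Agent.U160.WP.PkgME

set_option autoImplicit false

namespace Pool.Agent.U160.WP

open MeasureTheory ProbabilityTheory Finset Filter Topology
open Pool.Agent.U160.VP (KInd kind_of_iInd transfer frac cube cube_prob frac_kind frac_meas law_one t_R2)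

theorem a_MOM : S_MOM := t_MOM t_MOMa
theorem a_CD : S_CD := t_CD t_V1 t_PV
theorem a_ME : S_ME := t_ME t_V1 t_V2 (t_V3 t_V1) t_PV

theorem law_unif : Pool.Agent.U160.VP.law (fun _ => 1) = unif := by
  rw [law_one]; rfl

/-- almost every polynomial -/
theorem asy_poly (r : ℕ) : ∀ᵐ x : Fin r → ℝ, ∀ k d : ℕ, 1 ≤ k → k + 1 ≤ d → 2 * (k + 1) * d ≤ r →
    ∀ η : ℝ, 0 < η → Tendsto (fun lam : ℝ => cnt (frac x) k d lam η / lam ^ ((d : ℝ) / k - 1)) atTop
      (𝓝 (2 * η * GG k d)) := by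
  rw [ae_all_iff]; intro k
  rw [ae_all_iff]; intro d
  by_cases h : 1 ≤ k ∧ k + 1 ≤ d ∧ 2 * (k + 1) * d ≤ r
  · obtain ⟨hk, hd, hr⟩ := h
    have h1 := t_R2 r (fun θ => ∀ η : ℝ, 0 < η → Tendsto (fun lam : ℝ => cnt θ k d lam η / lam ^ ((d : ℝ) / k - 1))
      atTop (𝓝 (2 * η * GG k d))) (by
        haveI := cube_prob r
        refine asy_kind a_MOM a_CD a_ME k d hk hd (Fin r → ℝ) (volume.restrict (cube r)) (fun n x => frac x n)
          (fun n => frac_meas n) ?_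
        have h2 := frac_kind r (2 * (k + 1) * d) hr
        rwa [law_unif] at h2)
    filter_upwards [h1] with x hx _ _ _ using hx
  · exact Eventually.of_forall fun x h1 h2 h3 => absurd ⟨h1, h2, h3⟩ h

/-- independent uniform perturbations -/
theorem asy_iid (Ω : Type) [MeasurableSpace Ω] (P : Measure Ω) [IsProbabilityMeasure P] (X : ℕ → Ω → ℝ)
    (hX : ∀ n, Measurable (X n)) (hind : iIndepFun X P) (hlaw : ∀ n, P.map (X n) = unif) :
    ∀ᵐ ω ∂P, ∀ k d : ℕ, 1 ≤ k → k + 1 ≤ d → ∀ η : ℝ, 0 < η →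
      Tendsto (fun lam : ℝ => cnt (fun n => X n ω) k d lam η / lam ^ ((d : ℝ) / k - 1)) atTop
      (𝓝 (2 * η * GG k d)) := by
  rw [ae_all_iff]; intro k
  rw [ae_all_iff]; intro d
  by_cases h : 1 ≤ k ∧ k + 1 ≤ d
  · filter_upwards [asy_kind a_MOM a_CD a_ME k d h.1 h.2 Ω P X hX (kind_of_iInd P X unif hX hind hlaw)] with ω hω _ _
      using hω
  · exact Eventually.of_forall fun x h1 h2 => absurd ⟨h1, h2⟩ h

/-- at most `k` variables: there are empty shells -/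
theorem empty_shells {θ : ℕ → ℝ} (hθ : ∀ n, 1 ≤ n → 0 ≤ θ n) {k d : ℕ} (hk : 1 ≤ k) (hd : d ≤ k) {η : ℝ}
    (hη : 0 < η) (hη2 : η < 1 / 2) (R : ℝ) : ∃ lam : ℝ, R ≤ lam ∧ cnt θ k d lam η = 0 := by
  classical
  by_contra hcon
  push Not at hcon
  have hk0 : (0 : ℝ) < k := by exact_mod_cast hk
  have hdk : (d : ℝ) ≤ k := by exact_mod_cast hd
  obtain ⟨s, hs1, hs2⟩ := exists_between (show 2 * η < 1 by linarith)
  have hs0 : 0 < s := by linarith
  have hsol : ∀ lam : ℝ, R ≤ lam → ∃ n : Fin d → ℕ, n ∈ solSet θ k d lam η := by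
    intro lam hlam
    by_contra hne
    apply hcon lam hlam
    have : solSet θ k d lam η = ∅ := by
      ext n
      simp only [Set.mem_empty_iff_false, iff_false]
      exact fun hn => hne ⟨n, hn⟩
    unfold cnt
    rw [this]
    simp
  obtain ⟨J0, hJ0⟩ := exists_nat_gt (R / s)
  have hsel : ∀ j : ℕ, ∃ n : Fin d → ℕ, J0 ≤ j → n ∈ solSet θ k d ((j : ℝ) * s) η := by
    intro j
    by_cases hj : J0 ≤ j
    · obtain ⟨n, hn⟩ := hsol ((j : ℝ) * s) (by
        have h1 : R / s < j := lt_of_lt_of_le hJ0 (by exact_mod_cast hj)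
        rw [div_lt_iff₀ hs0] at h1
        exact h1.le)
      exact ⟨n, fun _ => hn⟩
    · exact ⟨fun _ => 0, fun h => absurd h hj⟩
  choose f hf using hsel
  have hcard : ∀ J : ℕ, J0 ≤ J → 1 ≤ (J : ℝ) * s → ((J : ℝ) + 1) - J0 ≤ (J : ℝ) * s + η := by
    intro J hJ hJ1
    set Λ : ℝ := (J : ℝ) * s + η with hΛ
    have hΛ1 : 1 ≤ Λ := by linarith
    set m : ℕ := ⌊Λ ^ (1 / (k : ℝ))⌋₊ with hm
    have hpk : (Λ ^ (1 / (k : ℝ))) ^ k = Λ := by
      rw [← Real.rpow_natCast, ← Real.rpow_mul (by linarith), one_div, inv_mul_cancel₀ hk0.ne', Real.rpow_one]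
    have hmap : ∀ j ∈ Finset.Icc J0 J, f j ∈ Fintype.piFinset (fun _ : Fin d => Finset.Icc 1 m) := by
      intro j hj
      obtain ⟨hj1, hj2⟩ := mem_Icc.1 hj
      have h1 := hf j hj1
      rw [Fintype.mem_piFinset]
      intro i
      rw [mem_Icc]
      refine ⟨h1.1 i, ?_⟩
      apply solSet_le hθ hk (M := m) ?_ h1 i
      have h2 : Λ ^ (1 / (k : ℝ)) < (m : ℝ) + 1 := Nat.lt_floor_add_one _
      calc (j : ℝ) * s + η ≤ Λ := by
            rw [hΛ]
            have : (j : ℝ) ≤ J := by exact_mod_cast hj2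
            nlinarith
        _ = (Λ ^ (1 / (k : ℝ))) ^ k := hpk.symm
        _ < ((m : ℝ) + 1) ^ k := pow_lt_pow_left₀ h2 (by positivity) (by omega)
    have hinj : Set.InjOn f (Finset.Icc J0 J : Set ℕ) := by
      intro i hi j hj hij
      have hi' := hf i (mem_Icc.1 (by exact_mod_cast hi)).1
      have hj' := hf j (mem_Icc.1 (by exact_mod_cast hj)).1
      rw [← hij] at hj'
      by_contra hne
      have h1 := hi'.2
      have h2 := hj'.2
      have h3 : |(i : ℝ) * s - (j : ℝ) * s| ≤ 2 * η := by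
        calc |(i : ℝ) * s - (j : ℝ) * s| = |(∑ l, ((f i l : ℝ) + θ (f i l)) ^ k - (j : ℝ) * s) -
              (∑ l, ((f i l : ℝ) + θ (f i l)) ^ k - (i : ℝ) * s)| := by congr 1; ring
          _ ≤ _ := abs_sub _ _
          _ ≤ 2 * η := by linarith
      have h4 : s ≤ |(i : ℝ) * s - (j : ℝ) * s| := by
        rw [← sub_mul, abs_mul, abs_of_pos hs0]
        have h5 : (1 : ℝ) ≤ |(i : ℝ) - (j : ℝ)| := by
          have h6 : (i : ℤ) - j ≠ 0 := by omega
          have h7 : (1 : ℤ) ≤ |(i : ℤ) - j| := Int.one_le_abs h6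
          exact_mod_cast h7
        nlinarith
      linarith
    have h1 := Finset.card_le_card_of_injOn f hmap hinj
    rw [Nat.card_Icc, Fintype.card_piFinset] at h1
    simp only [Nat.card_Icc, add_tsub_cancel_right, prod_const, card_univ, Fintype.card_fin] at h1
    have h2 : ((J + 1 - J0 : ℕ) : ℝ) ≤ (m : ℝ) ^ d := by exact_mod_cast h1
    rw [Nat.cast_sub (by omega)] at h2
    push_cast at h2
    have h3 : (m : ℝ) ^ d ≤ Λ := by
      calc (m : ℝ) ^ d ≤ (Λ ^ (1 / (k : ℝ))) ^ d := pow_le_pow_left₀ (by positivity) (Nat.floor_le (by positivity)) _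
        _ ≤ (Λ ^ (1 / (k : ℝ))) ^ k := pow_le_pow_right₀ (Real.one_le_rpow hΛ1 (by positivity)) hd
        _ = Λ := hpk
    linarith
  obtain ⟨J, hJ⟩ := exists_nat_gt (max (J0 : ℝ) (max (1 / s) (((J0 : ℝ) + η) / (1 - s))))
  have g1 : (J0 : ℝ) < J := (le_max_left _ _).trans_lt hJ
  have g2 : 1 / s < J := ((le_max_left _ _).trans (le_max_right _ _)).trans_lt hJ
  have g3 : ((J0 : ℝ) + η) / (1 - s) < J := ((le_max_right _ _).trans (le_max_right _ _)).trans_lt hJ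
  rw [div_lt_iff₀ hs0] at g2
  rw [div_lt_iff₀ (by linarith)] at g3
  have := hcard J (by exact_mod_cast g1.le) g2.le
  nlinarith

/-- from the asymptotic formula to upper and lower bounds in terms of the radius -/
theorem bounds_of_tendsto {θ : ℕ → ℝ} {k d : ℕ} (hk : 1 ≤ k) {η L : ℝ} (hL : 0 < L)
    (h : Tendsto (fun lam : ℝ => cnt θ k d lam η / lam ^ ((d : ℝ) / k - 1)) atTop (𝓝 L)) :
    ∃ c C r₀ : ℝ, 0 < c ∧ 0 < C ∧ ∀ r : ℝ, r₀ ≤ r →
      c * r ^ ((d : ℝ) - k) ≤ cnt θ k d (r ^ k) η ∧ cnt θ k d (r ^ k) η ≤ C * r ^ ((d : ℝ) - k) := by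
  have hk0 : (0 : ℝ) < k := by exact_mod_cast hk
  have h1 : Tendsto (fun r : ℝ => r ^ k) atTop atTop := tendsto_pow_atTop (by omega)
  have h2 := h.comp h1
  have h3 := h2.eventually (Ioo_mem_nhds (show L / 2 < L by linarith) (show L < 2 * L by linarith))
  obtain ⟨r1, hr1⟩ := eventually_atTop.1 (h3.and (eventually_gt_atTop (0 : ℝ)))
  refine ⟨L / 2, 2 * L, r1, by positivity, by positivity, fun r hr => ?_⟩
  obtain ⟨⟨h4, h5⟩, hr0⟩ := hr1 r hr
  simp only [Function.comp_apply] at h4 h5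
  have h6 : (r ^ k) ^ ((d : ℝ) / k - 1) = r ^ ((d : ℝ) - k) := by
    rw [← Real.rpow_natCast, ← Real.rpow_mul hr0.le]
    congr 1
    field_simp
  rw [h6] at h4 h5
  have h7 : 0 < r ^ ((d : ℝ) - k) := by positivity
  rw [lt_div_iff₀ h7] at h4
  rw [div_lt_iff₀ h7] at h5
  exact ⟨h4.le, h5.le⟩

end Pool.Agent.U160.WP
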