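import Pool.Agent.U160.WP.Stm2

set_option autoImplicit false

/-!
# Project WP, package D2: the volume of `∑ ⌊v_l^k⌋ = N` (written by helper94)
-/

namespace Pool.Agent.U160.WP

open MeasureTheory ProbabilityTheory Finset

noncomputable section

namespace D2

/-- the `k`-th root -/
def F (k : ℕ) (s : ℝ) : ℝ := s ^ ((k : ℝ)⁻¹)

/-- the length of the `k`-th roots of `[s, s+1]` -/
def D (k : ℕ) (s : ℝ) : ℝ := F k (s + 1) - F k s

theorem F_le {k : ℕ} (hk : 1 ≤ k) {s x : ℝ} (hs : 0 ≤ s) (hx : 0 ≤ x) : F k s ≤ x ↔ s ≤ x ^ k := by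
  unfold F
  have hk' : (0 : ℝ) < k := by exact_mod_cast hk
  rw [Real.rpow_inv_le_iff_of_pos hs hx hk', Real.rpow_natCast]

theorem le_F {k : ℕ} (hk : 1 ≤ k) {s x : ℝ} (hs : 0 ≤ s) (hx : 0 ≤ x) : x ≤ F k s ↔ x ^ k ≤ s := by
  unfold F
  have hk' : (0 : ℝ) < k := by exact_mod_cast hk
  rw [Real.le_rpow_inv_iff_of_pos hx hs hk', Real.rpow_natCast]

theorem lt_F {k : ℕ} (hk : 1 ≤ k) {s x : ℝ} (hs : 0 ≤ s) (hx : 0 ≤ x) : x < F k s ↔ x ^ k < s := by
  rw [← not_le, ← not_le, F_le hk hs hx]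

theorem F_nonneg {k : ℕ} {s : ℝ} (hs : 0 ≤ s) : 0 ≤ F k s := Real.rpow_nonneg hs _

theorem D_anti {k : ℕ} (hk : 1 ≤ k) {s t : ℝ} (hs : 0 ≤ s) (hst : s ≤ t) : D k t ≤ D k s := by
  have hk' : (1 : ℝ) ≤ k := by exact_mod_cast hk
  have hc := Real.concaveOn_rpow (p := (k : ℝ)⁻¹) (by positivity) (inv_le_one_of_one_le₀ hk')
  have hpos : 0 < t + 1 - s := by linarith
  have m1 : s ∈ Set.Ici (0 : ℝ) := hs
  have m2 : t + 1 ∈ Set.Ici (0 : ℝ) := by simp only [Set.mem_Ici]; linarith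
  have a1 : 0 ≤ (t - s) / (t + 1 - s) := div_nonneg (by linarith) hpos.le
  have a2 : 0 ≤ 1 / (t + 1 - s) := by positivity
  have h1 := hc.2 m1 m2 a1 a2 (by field_simp; ring)
  have h2 := hc.2 m1 m2 a2 a1 (by field_simp; ring)
  simp only [smul_eq_mul] at h1 h2
  have e1 : (t - s) / (t + 1 - s) * s + 1 / (t + 1 - s) * (t + 1) = s + 1 := by
    field_simp; ring
  have e2 : 1 / (t + 1 - s) * s + (t - s) / (t + 1 - s) * (t + 1) = t := by
    field_simp; ring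
  rw [e1] at h1
  rw [e2] at h2
  have e3 : (t - s) / (t + 1 - s) + 1 / (t + 1 - s) = 1 := by field_simp; ring
  unfold D F
  have e4 : (t - s) / (t + 1 - s) = 1 - 1 / (t + 1 - s) := by linarith
  rw [e4] at h1 h2
  linarith

theorem D_le_one {k : ℕ} (hk : 1 ≤ k) {s : ℝ} (hs : 0 ≤ s) : D k s ≤ 1 := by
  refine (D_anti hk le_rfl hs).trans ?_
  unfold D F
  have : ((k : ℝ)⁻¹) ≠ 0 := by
    have : (0 : ℝ) < k := by exact_mod_cast hk
    positivity
  rw [Real.zero_rpow this]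
  simp

/-- the floor set on the product -/
def TA (k e : ℕ) (N : ℤ) : Set (ℝ × (Fin e → ℝ)) :=
  {p | (0 ≤ p.1 ∧ ∀ l, 0 ≤ p.2 l) ∧ ⌊p.1 ^ k⌋ + ∑ l, ⌊p.2 l ^ k⌋ = N}

/-- the shell on the product -/
def TB (k e : ℕ) (s : ℝ) : Set (ℝ × (Fin e → ℝ)) :=
  {p | (0 ≤ p.1 ∧ ∀ l, 0 ≤ p.2 l) ∧ s ≤ p.1 ^ k + ∑ l, p.2 l ^ k ∧ p.1 ^ k + ∑ l, p.2 l ^ k ≤ s + 1}

/-- the shell of lower dimension -/
def Z (k e : ℕ) (N : ℝ) : Set (Fin e → ℝ) :=
  {w | (∀ l, 0 ≤ w l) ∧ |∑ l, w l ^ k - N| ≤ (e : ℝ) + 1}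

theorem meas_pos (e : ℕ) : MeasurableSet {p : ℝ × (Fin e → ℝ) | 0 ≤ p.1 ∧ ∀ l, 0 ≤ p.2 l} := by
  have h1 : MeasurableSet {p : ℝ × (Fin e → ℝ) | 0 ≤ p.1} := measurableSet_le (by fun_prop) (by fun_prop)
  have h2 : MeasurableSet {p : ℝ × (Fin e → ℝ) | ∀ l, 0 ≤ p.2 l} := by
    rw [Set.ofPred_forall]
    exact MeasurableSet.iInter fun l => measurableSet_le (by fun_prop) (by fun_prop)
  exact h1.inter h2

theorem meas_TA (k e : ℕ) (N : ℤ) : MeasurableSet (TA k e N) := by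
  refine (meas_pos e).inter ?_
  have h : Measurable fun p : ℝ × (Fin e → ℝ) => ⌊p.1 ^ k⌋ + ∑ l, ⌊p.2 l ^ k⌋ := by
    refine Measurable.add ?_ ?_
    · exact Int.measurable_floor.comp (by fun_prop)
    · refine Finset.measurable_sum _ fun l _ => ?_
      exact Int.measurable_floor.comp (by fun_prop)
  exact h (measurableSet_singleton N)

theorem meas_TB (k e : ℕ) (s : ℝ) : MeasurableSet (TB k e s) := by
  have h1 : MeasurableSet {p : ℝ × (Fin e → ℝ) | s ≤ p.1 ^ k + ∑ l, p.2 l ^ k} :=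
    measurableSet_le (by fun_prop) (by fun_prop)
  have h2 : MeasurableSet {p : ℝ × (Fin e → ℝ) | p.1 ^ k + ∑ l, p.2 l ^ k ≤ s + 1} :=
    measurableSet_le (by fun_prop) (by fun_prop)
  exact (meas_pos e).inter (h1.inter h2)

theorem meas_Z (k e : ℕ) (N : ℝ) : MeasurableSet (Z k e N) := by
  have h2 : MeasurableSet {p : (Fin e → ℝ) | ∀ l, 0 ≤ p l} := by
    rw [Set.ofPred_forall]
    exact MeasurableSet.iInter fun l => measurableSet_le (by fun_prop) (by fun_prop)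
  have h3 : MeasurableSet {w : (Fin e → ℝ) | |∑ l, w l ^ k - N| ≤ (e : ℝ) + 1} :=
    measurableSet_le (by fun_prop) (by fun_prop)
  exact h2.inter h3

theorem split {e : ℕ} (T : Set (ℝ × (Fin e → ℝ))) (hT : MeasurableSet T) :
    volume {v : Fin (e + 1) → ℝ | (v 0, fun j : Fin e => v j.succ) ∈ T} =
      ∫⁻ w, volume {x : ℝ | (x, w) ∈ T} := by
  have h := (volume_preserving_piFinSuccAbove (fun _ : Fin (e + 1) => ℝ) 0).measure_preimage_equiv T
  rw [Measure.volume_eq_prod, Measure.prod_apply_symm hT] at h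
  have e1 : (MeasurableEquiv.piFinSuccAbove (fun _ : Fin (e + 1) => ℝ) 0) ⁻¹' T =
      {v : Fin (e + 1) → ℝ | (v 0, fun j : Fin e => v j.succ) ∈ T} := by
    ext v
    have h1 : (MeasurableEquiv.piFinSuccAbove (fun _ : Fin (e + 1) => ℝ) 0) v =
        (v 0, fun j => v (Fin.succAbove 0 j)) := rfl
    rw [Set.mem_preimage, h1]
    simp only [Fin.zero_succAbove]
    rfl
  rw [← e1, h]
  rfl

/-- fibres of the floor set -/
theorem fibA {k e : ℕ} (hk : 1 ≤ k) (N : ℤ) (w : Fin e → ℝ) (hw : ∀ l, 0 ≤ w l)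
    (hm : 0 ≤ N - ∑ l, ⌊w l ^ k⌋) :
    volume {x : ℝ | (x, w) ∈ TA k e N} =
      ENNReal.ofReal (D k ((N : ℝ) - ((∑ l, ⌊w l ^ k⌋ : ℤ) : ℝ))) := by
  set S' : ℤ := ∑ l, ⌊w l ^ k⌋ with hS'
  have hm' : (0 : ℝ) ≤ (N : ℝ) - (S' : ℝ) := by exact_mod_cast hm
  have h : {x : ℝ | (x, w) ∈ TA k e N} = Set.Ico (F k ((N : ℝ) - S')) (F k ((N : ℝ) - S' + 1)) := by
    ext x
    constructor
    · rintro ⟨⟨h1, _⟩, h2⟩
      simp only at h1 h2
      rw [← hS'] at h2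
      have h3 : ⌊x ^ k⌋ = N - S' := by omega
      rw [Int.floor_eq_iff] at h3
      push_cast at h3
      exact ⟨(F_le hk hm' h1).2 h3.1, (lt_F hk (by linarith) h1).2 h3.2⟩
    · rintro ⟨h1, h2⟩
      have h0 : 0 ≤ x := (F_nonneg hm').trans h1
      refine ⟨⟨h0, hw⟩, ?_⟩
      simp only
      rw [← hS']
      have h3 : ⌊x ^ k⌋ = N - S' := by
        rw [Int.floor_eq_iff]
        push_cast
        exact ⟨(F_le hk hm' h0).1 h1, (lt_F hk (by linarith) h0).1 h2⟩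
      omega
  rw [h, Real.volume_Ico]
  rfl

theorem fibA0 {k e : ℕ} (N : ℤ) (w : Fin e → ℝ)
    (hm : ¬ 0 ≤ N - ∑ l, ⌊w l ^ k⌋) : volume {x : ℝ | (x, w) ∈ TA k e N} = 0 := by
  have h : {x : ℝ | (x, w) ∈ TA k e N} = ∅ := by
    ext x
    constructor
    · rintro ⟨⟨h1, _⟩, h2⟩
      simp only at h1 h2
      have h3 : 0 ≤ ⌊x ^ k⌋ := Int.floor_nonneg.2 (pow_nonneg h1 k)
      exact absurd (by omega) hm
    · intro h; exact absurd h (Set.notMem_empty x)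
  rw [h, measure_empty]

/-- fibres of the shell -/
theorem fibB {k e : ℕ} (hk : 1 ≤ k) (s : ℝ) (w : Fin e → ℝ) (hw : ∀ l, 0 ≤ w l)
    (hm : 0 ≤ s - ∑ l, w l ^ k) :
    volume {x : ℝ | (x, w) ∈ TB k e s} = ENNReal.ofReal (D k (s - ∑ l, w l ^ k)) := by
  set S : ℝ := ∑ l, w l ^ k with hS
  have h : {x : ℝ | (x, w) ∈ TB k e s} = Set.Icc (F k (s - S)) (F k (s - S + 1)) := by
    ext x
    constructor
    · rintro ⟨⟨h1, _⟩, h2, h3⟩
      simp only at h1 h2 h3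
      rw [← hS] at h2 h3
      exact ⟨(F_le hk hm h1).2 (by linarith), (le_F hk (by linarith) h1).2 (by linarith)⟩
    · rintro ⟨h1, h2⟩
      have h0 : 0 ≤ x := (F_nonneg hm).trans h1
      have h3 := (F_le hk hm h0).1 h1
      have h4 := (le_F hk (by linarith) h0).1 h2
      refine ⟨⟨h0, hw⟩, ?_, ?_⟩ <;> simp only <;> rw [← hS] <;> linarith
  rw [h, Real.volume_Icc]
  rfl

theorem floorsum {k e : ℕ} (w : Fin e → ℝ) :
    ((∑ l, ⌊w l ^ k⌋ : ℤ) : ℝ) ≤ ∑ l, w l ^ k ∧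
      ∑ l, w l ^ k ≤ ((∑ l, ⌊w l ^ k⌋ : ℤ) : ℝ) + e := by
  push_cast
  constructor
  · exact Finset.sum_le_sum fun l _ => Int.floor_le _
  · have h : (e : ℝ) = ∑ _l : Fin e, (1 : ℝ) := by simp
    rw [h, ← Finset.sum_add_distrib]
    exact Finset.sum_le_sum fun l _ => (Int.lt_floor_add_one _).le

theorem upperw {k e : ℕ} (hk : 1 ≤ k) (N : ℕ) (w : Fin e → ℝ) :
    volume {x : ℝ | (x, w) ∈ TA k e N} ≤ volume {x : ℝ | (x, w) ∈ TB k e (N : ℝ)} +
      (Z k e (N : ℝ)).indicator (fun _ => ENNReal.ofReal ((e : ℝ) + 1)) w := by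
  by_cases hw : ∀ l, 0 ≤ w l
  swap
  · have h : {x : ℝ | (x, w) ∈ TA k e N} = ∅ := by
      ext x
      constructor
      · rintro ⟨⟨_, h1⟩, h2⟩
        exact absurd h1 hw
      · intro h; exact absurd h (Set.notMem_empty x)
    rw [h, measure_empty]
    exact zero_le
  by_cases hm : 0 ≤ (N : ℤ) - ∑ l, ⌊w l ^ k⌋
  swap
  · rw [fibA0 _ w hm]; exact zero_le
  obtain ⟨f1, f2⟩ := floorsum (k := k) w
  have hm' : (0 : ℝ) ≤ (N : ℝ) - ((∑ l, ⌊w l ^ k⌋ : ℤ) : ℝ) := by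
    have : ((0 : ℤ) : ℝ) ≤ (((N : ℤ) - ∑ l, ⌊w l ^ k⌋ : ℤ) : ℝ) := by exact_mod_cast hm
    push_cast at this ⊢
    linarith
  rw [fibA hk _ w hw hm]
  by_cases hS : ∑ l, w l ^ k ≤ (N : ℝ)
  · rw [fibB hk _ w hw (by linarith)]
    refine le_add_right (ENNReal.ofReal_le_ofReal ?_)
    refine D_anti hk (by linarith) ?_
    push_cast at *
    linarith
  · have hZ : w ∈ Z k e (N : ℝ) := by
      refine ⟨hw, ?_⟩
      rw [abs_le]
      push Not at hS
      constructor <;> linarith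
    rw [Set.indicator_of_mem hZ]
    refine le_add_left (ENNReal.ofReal_le_ofReal ?_)
    have h1 : D k ((N : ℝ) - ((∑ l, ⌊w l ^ k⌋ : ℤ) : ℝ)) ≤ 1 := D_le_one hk hm'
    have h2 : (0 : ℝ) ≤ e := Nat.cast_nonneg e
    push_cast at *
    linarith

theorem lowerw {k e : ℕ} (hk : 1 ≤ k) (N : ℕ) (w : Fin e → ℝ) :
    volume {x : ℝ | (x, w) ∈ TB k e ((N : ℝ) + e)} ≤ volume {x : ℝ | (x, w) ∈ TA k e N} +
      (Z k e (N : ℝ)).indicator (fun _ => ENNReal.ofReal ((e : ℝ) + 1)) w := by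
  by_cases hw : ∀ l, 0 ≤ w l
  swap
  · have h : {x : ℝ | (x, w) ∈ TB k e ((N : ℝ) + e)} = ∅ := by
      ext x
      constructor
      · rintro ⟨⟨_, h1⟩, h2⟩
        exact absurd h1 hw
      · intro h; exact absurd h (Set.notMem_empty x)
    rw [h, measure_empty]
    exact zero_le
  obtain ⟨f1, f2⟩ := floorsum (k := k) w
  have he : (0 : ℝ) ≤ e := Nat.cast_nonneg e
  by_cases hm : 0 ≤ (N : ℤ) - ∑ l, ⌊w l ^ k⌋
  · have hm' : (0 : ℝ) ≤ (N : ℝ) - ((∑ l, ⌊w l ^ k⌋ : ℤ) : ℝ) := by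
      have : ((0 : ℤ) : ℝ) ≤ (((N : ℤ) - ∑ l, ⌊w l ^ k⌋ : ℤ) : ℝ) := by exact_mod_cast hm
      push_cast at this ⊢
      linarith
    rw [fibA hk _ w hw hm, fibB hk _ w hw (by linarith)]
    refine le_add_right (ENNReal.ofReal_le_ofReal ?_)
    refine D_anti hk ?_ ?_
    · push_cast at *
      linarith
    · push_cast at *
      linarith
  · have hm' : (N : ℝ) - ((∑ l, ⌊w l ^ k⌋ : ℤ) : ℝ) ≤ 0 := by
      push Not at hm
      have : (((N : ℤ) - ∑ l, ⌊w l ^ k⌋ : ℤ) : ℝ) ≤ ((0 : ℤ) : ℝ) := by exact_mod_cast hm.le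
      push_cast at this ⊢
      linarith
    by_cases hS : ∑ l, w l ^ k ≤ (N : ℝ) + e + 1
    · have hZ : w ∈ Z k e (N : ℝ) := by
        refine ⟨hw, ?_⟩
        rw [abs_le]
        constructor <;> linarith
      rw [Set.indicator_of_mem hZ]
      refine le_add_left ?_
      have h : {x : ℝ | (x, w) ∈ TB k e ((N : ℝ) + e)} ⊆ Set.Icc 0 ((e : ℝ) + 1) := by
        rintro x ⟨⟨h1, _⟩, h2, h3⟩
        simp only at h1 h2 h3
        refine ⟨h1, ?_⟩
        by_contra hc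
        push Not at hc
        have h4 : x ≤ x ^ k := le_self_pow₀ (by linarith) (by omega)
        linarith
      refine (measure_mono h).trans ?_
      rw [Real.volume_Icc, sub_zero]
    · have h : {x : ℝ | (x, w) ∈ TB k e ((N : ℝ) + e)} = ∅ := by
        ext x
        constructor
        · rintro ⟨⟨h1, _⟩, h2, h3⟩
          simp only at h1 h2 h3
          push Not at hS
          have := pow_nonneg h1 k
          linarith
        · intro h; exact absurd h (Set.notMem_empty x)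
      rw [h, measure_empty]
      exact zero_le

theorem upper {k e : ℕ} (hk : 1 ≤ k) (N : ℕ) :
    volume {v : Fin (e + 1) → ℝ | (v 0, fun j : Fin e => v j.succ) ∈ TA k e N} ≤
      volume {v : Fin (e + 1) → ℝ | (v 0, fun j : Fin e => v j.succ) ∈ TB k e (N : ℝ)} +
        ENNReal.ofReal ((e : ℝ) + 1) * volume (Z k e (N : ℝ)) := by
  rw [split _ (meas_TA k e N), split _ (meas_TB k e N), ← lintegral_indicator_const (meas_Z k e N),
    ← lintegral_add_right _ (measurable_const.indicator (meas_Z k e N))]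
  exact lintegral_mono fun w => upperw hk N w

theorem lower {k e : ℕ} (hk : 1 ≤ k) (N : ℕ) :
    volume {v : Fin (e + 1) → ℝ | (v 0, fun j : Fin e => v j.succ) ∈ TB k e ((N : ℝ) + e)} ≤
      volume {v : Fin (e + 1) → ℝ | (v 0, fun j : Fin e => v j.succ) ∈ TA k e N} +
        ENNReal.ofReal ((e : ℝ) + 1) * volume (Z k e (N : ℝ)) := by
  rw [split _ (meas_TA k e N), split _ (meas_TB k e _), ← lintegral_indicator_const (meas_Z k e N),
    ← lintegral_add_right _ (measurable_const.indicator (meas_Z k e N))]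
  exact lintegral_mono fun w => lowerw hk N w

theorem bdd {i k : ℕ} (hk : 1 ≤ k) (c : ℝ) (T : Set (Fin i → ℝ))
    (hT : ∀ v ∈ T, (∀ l, 0 ≤ v l) ∧ ∑ l, v l ^ k ≤ c) : volume T ≠ ⊤ := by
  have h : T ⊆ Set.Icc (fun _ => 0) (fun _ => max 1 c) := by
    intro v hv
    obtain ⟨h0, h1⟩ := hT v hv
    refine ⟨h0, fun l => ?_⟩
    by_contra hc
    have hc' : max 1 c < v l := not_le.1 hc
    have h2 : 1 < v l := lt_of_le_of_lt (le_max_left _ _) hc'
    have h3 : c < v l := lt_of_le_of_lt (le_max_right _ _) hc'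
    have h4 : v l ≤ v l ^ k := le_self_pow₀ h2.le (by omega)
    have h5 : v l ^ k ≤ ∑ l, v l ^ k :=
      Finset.single_le_sum (f := fun l => v l ^ k) (fun j _ => pow_nonneg (h0 j) k) (Finset.mem_univ l)
    linarith
  exact ne_top_of_le_ne_top isCompact_Icc.measure_lt_top.ne (measure_mono h)

/-- the ratio of shifted powers -/
theorem ratio (c q : ℝ) (hc : 0 ≤ c) :
    Filter.Tendsto (fun N : ℕ => ((N : ℝ) + c) ^ q / (N : ℝ) ^ q) Filter.atTop (nhds 1) := by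
  have h1 : Filter.Tendsto (fun N : ℕ => (1 : ℝ) + c / (N : ℝ)) Filter.atTop (nhds (1 + 0)) :=
    tendsto_const_nhds.add (tendsto_const_div_atTop_nhds_zero_nat c)
  rw [add_zero] at h1
  have h2 := h1.rpow_const (p := q) (Or.inl one_ne_zero)
  rw [Real.one_rpow] at h2
  refine h2.congr' ?_
  filter_upwards [Filter.eventually_gt_atTop 0] with N hN
  have hN' : (0 : ℝ) < N := by exact_mod_cast hN
  rw [← Real.div_rpow (by positivity) hN'.le]
  congr 1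
  field_simp

/-- the errors are small -/
theorem err (k e : ℕ) (hk : 1 ≤ k) (C : ℝ) :
    Filter.Tendsto (fun N : ℕ => C * ((N : ℝ) + 1) ^ ((e : ℝ) / k - 1) /
      (N : ℝ) ^ (((e + 1 : ℕ) : ℝ) / k - 1)) Filter.atTop (nhds 0) := by
  have hk' : (0 : ℝ) < k := by exact_mod_cast hk
  have h1 := ratio 1 ((e : ℝ) / k - 1) zero_le_one
  have h2 : Filter.Tendsto (fun N : ℕ => (N : ℝ) ^ (-(1 / (k : ℝ)))) Filter.atTop (nhds 0) :=
    (tendsto_rpow_neg_atTop (by positivity)).comp tendsto_natCast_atTop_atTop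
  have h3 := (h1.mul h2).const_mul C
  rw [mul_zero, mul_zero] at h3
  refine h3.congr' ?_
  filter_upwards [Filter.eventually_gt_atTop 0] with N hN
  have hN' : (0 : ℝ) < N := by exact_mod_cast hN
  have e1 : (N : ℝ) ^ (((e + 1 : ℕ) : ℝ) / k - 1) = (N : ℝ) ^ ((e : ℝ) / k - 1) * (N : ℝ) ^ (1 / (k : ℝ)) := by
    rw [← Real.rpow_add hN']
    congr 1
    push_cast
    field_simp
    ring
  rw [e1, Real.rpow_neg hN'.le]
  have p1 : 0 < (N : ℝ) ^ ((e : ℝ) / k - 1) := Real.rpow_pos_of_pos hN' _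
  have p2 : 0 < (N : ℝ) ^ (1 / (k : ℝ)) := Real.rpow_pos_of_pos hN' _
  field_simp

end D2

open D2 in
theorem t_D2 : S_V1 → S_V2 → S_D2 := by
  intro hV1 hV2 k d hk hd
  obtain ⟨e, rfl⟩ : ∃ e, d = e + 1 := ⟨d - 1, by omega⟩
  obtain ⟨C, hC, hCV⟩ := hV1 k e 1 hk (by omega) ((e : ℝ) + 1) (by positivity)
  have hZ : ∀ N : ℕ, volume.real (Z k e (N : ℝ)) ≤ C * ((N : ℝ) + 1) ^ ((e : ℝ) / k - 1) := by
    intro N
    have h := hCV (fun _ => 1) (fun _ => ⟨le_rfl, le_rfl⟩) (N : ℝ)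
    simp only [Nat.cast_one, one_mul] at h
    rw [abs_of_nonneg (Nat.cast_nonneg N), add_comm (1 : ℝ)] at h
    exact h
  have hZf : ∀ N : ℕ, volume (Z k e (N : ℝ)) ≠ ⊤ := by
    intro N
    refine bdd hk ((N : ℝ) + ((e : ℝ) + 1)) _ fun v hv => ⟨hv.1, ?_⟩
    have := (abs_le.1 hv.2).2
    linarith
  have hBf : ∀ s : ℝ, volume {v : Fin (e + 1) → ℝ | (v 0, fun j : Fin e => v j.succ) ∈ TB k e s} ≠ ⊤ := by
    intro s
    refine bdd hk (s + 1) _ fun v hv => ?_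
    obtain ⟨⟨a1, a2⟩, a3, a4⟩ := hv
    refine ⟨fun l => ?_, ?_⟩
    · refine Fin.cases a1 (fun j => a2 j) l
    · rw [Fin.sum_univ_succ]
      exact a4
  have hA : ∀ N : ℕ, {v : Fin (e + 1) → ℝ | (∀ l, 0 ≤ v l) ∧ ∑ l, ⌊v l ^ k⌋ = (N : ℤ)} =
      {v : Fin (e + 1) → ℝ | (v 0, fun j : Fin e => v j.succ) ∈ TA k e N} := by
    intro N
    ext v
    constructor
    · rintro ⟨h1, h2⟩
      rw [Fin.sum_univ_succ] at h2
      exact ⟨⟨h1 0, fun l => h1 _⟩, h2⟩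
    · rintro ⟨⟨h0, h1⟩, h2⟩
      refine ⟨fun l => ?_, ?_⟩
      · refine Fin.cases h0 (fun j => h1 j) l
      · rw [Fin.sum_univ_succ]
        exact h2
  have hB : ∀ s : ℝ, {v : Fin (e + 1) → ℝ | (v 0, fun j : Fin e => v j.succ) ∈ TB k e s} =
      {v : Fin (e + 1) → ℝ | (∀ l, 0 ≤ v l) ∧ |∑ l, v l ^ k - (s + 1 / 2)| ≤ 1 / 2} := by
    intro s
    ext v
    constructor
    · rintro ⟨⟨h0, h1⟩, h2, h3⟩
      refine ⟨fun l => ?_, ?_⟩
      · refine Fin.cases h0 (fun j => h1 j) l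
      · rw [Fin.sum_univ_succ, abs_le]
        simp only at h2 h3
        constructor <;> linarith
    · rintro ⟨h1, h2⟩
      rw [Fin.sum_univ_succ, abs_le] at h2
      refine ⟨⟨h1 0, fun l => h1 _⟩, ?_, ?_⟩
      · simp only
        linarith [h2.1]
      · simp only
        linarith [h2.2]
  set p : ℝ := ((e + 1 : ℕ) : ℝ) / k - 1 with hp
  set L : ℝ := Real.Gamma (1 + 1 / k) ^ (e + 1) / Real.Gamma (((e + 1 : ℕ) : ℝ) / k) with hL
  have hlim : ∀ c : ℝ, 0 ≤ c → Filter.Tendsto (fun N : ℕ =>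
      volume.real {v : Fin (e + 1) → ℝ | (v 0, fun j : Fin e => v j.succ) ∈ TB k e ((N : ℝ) + c)} /
        (N : ℝ) ^ p) Filter.atTop (nhds L) := by
    intro c hc
    have h1 := hV2 k (e + 1) hk hd (1 / 2) (by norm_num)
    rw [← hp] at h1
    have h2 : Filter.Tendsto (fun N : ℕ => (N : ℝ) + (c + 1 / 2)) Filter.atTop Filter.atTop :=
      Filter.tendsto_atTop_add_const_right _ _ tendsto_natCast_atTop_atTop
    have h3 := (h1.comp h2).mul (ratio (c + 1 / 2) p (by linarith))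
    have e1 : 2 * (1 / 2 : ℝ) * Real.Gamma (1 + 1 / k) ^ (e + 1) /
        Real.Gamma (((e + 1 : ℕ) : ℝ) / k) * 1 = L := by
      rw [hL]; ring
    rw [e1] at h3
    refine h3.congr' ?_
    filter_upwards [Filter.eventually_gt_atTop 0] with N hN
    have hN' : (0 : ℝ) < N := by exact_mod_cast hN
    have q1 : 0 < ((N : ℝ) + (c + 1 / 2)) ^ p := Real.rpow_pos_of_pos (by positivity) _
    have q2 : 0 < (N : ℝ) ^ p := Real.rpow_pos_of_pos hN' _
    rw [hB, add_assoc]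
    simp only [Function.comp_apply]
    exact div_mul_div_cancel₀ q1.ne'
  have hE := err k e hk (((e : ℝ) + 1) * C)
  have hup := (hlim 0 le_rfl).add hE
  have hlo := (hlim e (Nat.cast_nonneg e)).sub hE
  rw [add_zero] at hup
  rw [sub_zero] at hlo
  refine tendsto_of_tendsto_of_tendsto_of_le_of_le' hlo hup ?_ ?_
  · filter_upwards [Filter.eventually_gt_atTop 0] with N hN
    have hN' : (0 : ℝ) < N := by exact_mod_cast hN
    have q2 : 0 < (N : ℝ) ^ p := Real.rpow_pos_of_pos hN' _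
    rw [hA N, ← sub_div]
    refine div_le_div_of_nonneg_right ?_ q2.le
    have hAf : volume {v : Fin (e + 1) → ℝ | (v 0, fun j : Fin e => v j.succ) ∈ TA k e N} ≠ ⊤ :=
      ne_top_of_le_ne_top (ENNReal.add_ne_top.2 ⟨hBf _, ENNReal.mul_ne_top ENNReal.ofReal_ne_top (hZf N)⟩)
        (upper hk N)
    have h1 := ENNReal.toReal_mono (ENNReal.add_ne_top.2 ⟨hAf, ENNReal.mul_ne_top ENNReal.ofReal_ne_top
      (hZf N)⟩) (lower (e := e) hk N)
    rw [ENNReal.toReal_add hAf (ENNReal.mul_ne_top ENNReal.ofReal_ne_top (hZf N)), ENNReal.toReal_mul,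
      ENNReal.toReal_ofReal (by positivity)] at h1
    have h2 := mul_le_mul_of_nonneg_left (hZ N) (by positivity : (0 : ℝ) ≤ (e : ℝ) + 1)
    unfold Measure.real at h2 ⊢
    linarith
  · filter_upwards [Filter.eventually_gt_atTop 0] with N hN
    have hN' : (0 : ℝ) < N := by exact_mod_cast hN
    have q2 : 0 < (N : ℝ) ^ p := Real.rpow_pos_of_pos hN' _
    rw [hA N, ← add_div]
    refine div_le_div_of_nonneg_right ?_ q2.le
    have h1 := ENNReal.toReal_mono (ENNReal.add_ne_top.2 ⟨hBf _, ENNReal.mul_ne_top ENNReal.ofReal_ne_top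
      (hZf N)⟩) (upper (e := e) hk N)
    rw [ENNReal.toReal_add (hBf _) (ENNReal.mul_ne_top ENNReal.ofReal_ne_top (hZf N)), ENNReal.toReal_mul,
      ENNReal.toReal_ofReal (by positivity)] at h1
    have h2 := mul_le_mul_of_nonneg_left (hZ N) (by positivity : (0 : ℝ) ≤ (e : ℝ) + 1)
    rw [add_zero]
    unfold Measure.real at h2 ⊢
    linarith

end

end Pool.Agent.U160.WP
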