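import Pool.Agent.U160.WP.Stm2
import Pool.Agent.U160.WP.PkgME

set_option autoImplicit false

/-!
# Project WP, part 2, package MEI: the mean number of representations
-/

namespace Pool.Agent.U160.WP

open MeasureTheory ProbabilityTheory Finset

noncomputable section

namespace MEI

/-- the set of the points with `∑ ⌊v_l^k⌋ = N` -/
def SN (k d N : ℕ) : Set (Fin d → ℝ) := {v | ∑ l, ⌊v l ^ k⌋ = (N : ℤ)}

theorem SN_meas (k d N : ℕ) : MeasurableSet (SN k d N) := by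
  have h : Measurable fun v : Fin d → ℝ => ∑ l, ⌊v l ^ k⌋ := by
    refine Finset.measurable_sum _ fun l _ => ?_
    exact Int.measurable_floor.comp (by fun_prop)
  exact h (measurableSet_singleton _)

theorem near {d : ℕ} {N : ℕ} (x : Fin d → ℝ) (h : ∑ l, ⌊x l⌋ = (N : ℤ)) :
    |∑ l, x l - (N : ℝ)| ≤ d := by
  have h1 : (N : ℝ) = ∑ l, ((⌊x l⌋ : ℤ) : ℝ) := by
    have : ((N : ℤ) : ℝ) = ((∑ l, ⌊x l⌋ : ℤ) : ℝ) := by rw [h]
    rw [Int.cast_natCast, Int.cast_sum] at this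
    exact this
  rw [h1, ← Finset.sum_sub_distrib]
  refine (Finset.abs_sum_le_sum_abs _ _).trans ?_
  have h2 : ∀ l ∈ (univ : Finset (Fin d)), |x l - ((⌊x l⌋ : ℤ) : ℝ)| ≤ 1 := by
    intro l _
    have a := Int.floor_le (x l)
    have b := Int.lt_floor_add_one (x l)
    rw [abs_le]
    constructor <;> linarith
  refine (Finset.sum_le_sum h2).trans ?_
  simp

theorem ev_sub (k N : ℕ) {d : ℕ} (n : Fin d → ℕ) : EvI k N n ⊆ EvW k (N : ℝ) d n := by
  intro θ hθ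
  exact near (fun i => ((n i : ℝ) + θ (n i)) ^ k) hθ

/-- the tuples which are not injective -/
theorem noninj (hV1 : S_V1) (hPV : S_PV) (k d : ℕ) (hk : 1 ≤ k) (hd : k + 1 ≤ d) :
    ∃ C : ℝ, 0 ≤ C ∧ ∀ (M N : ℕ),
      ∑ n ∈ (tup d M).filter (fun n => ¬ Function.Injective n), (prodLaw unif).real (EvI k N n) ≤
        C * (1 + N) ^ (((d : ℝ) - 1) / k - 1) := by
  have hd0 : (0 : ℝ) < d := by
    have : 0 < d := by omega
    exact_mod_cast this
  obtain ⟨C, hC, h⟩ := ME.noninj hV1 hPV k d hk hd d hd0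
  refine ⟨C, hC, fun M N => ?_⟩
  refine le_trans (Finset.sum_le_sum fun n _ => ?_) (h M N (Nat.cast_nonneg _))
  have : IsProbabilityMeasure (prodLaw unif) := by unfold prodLaw; infer_instance
  exact measureReal_mono (ev_sub k N n)

/-- the injective tuples -/
theorem inj (hV1 : S_V1) (hV3 : S_V3) (hPG : S_PG) (k d : ℕ) (hk : 1 ≤ k) (hd : k + 1 ≤ d) :
    ∃ C : ℝ, 0 ≤ C ∧ ∀ (M N : ℕ), (N : ℝ) + d < ((M : ℝ) + 1) ^ k →
      |∑ n ∈ (tup d M).filter (fun n => Function.Injective n), (prodLaw unif).real (EvI k N n) -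
        volume.real {v : Fin d → ℝ | (∀ l, 0 ≤ v l) ∧ ∑ l, ⌊v l ^ k⌋ = (N : ℤ)}| ≤
          C * (1 + N) ^ (((d : ℝ) - 1) / k - 1) := by
  classical
  have hd0 : (0 : ℝ) < d := by
    have : 0 < d := by omega
    exact_mod_cast this
  obtain ⟨C1, hC1, h1⟩ := ME.small hV1 k d hk hd d hd0
  have h3 : ∀ q : Fin d × Fin d, ∃ C : ℝ, 0 ≤ C ∧ (q.1 ≠ q.2 → ∀ t : ℝ,
      volume.real {v : Fin d → ℝ | (∀ l, 0 ≤ v l) ∧ |v q.1 - v q.2| ≤ 1 ∧ |∑ l, v l ^ k - t| ≤ d} ≤
        C * (1 + |t|) ^ (((d : ℝ) - 1) / k - 1)) := by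
    intro q
    by_cases hq : q.1 = q.2
    · exact ⟨0, le_rfl, fun h => absurd hq h⟩
    · obtain ⟨C, hC, h⟩ := hV3 k d hk q.1 q.2 hq d hd0
      exact ⟨C, hC.le, fun _ => h⟩
  choose C3 hC3 h3 using h3
  refine ⟨d * C1 + ∑ q, C3 q, add_nonneg (mul_nonneg (Nat.cast_nonneg _) hC1)
    (Finset.sum_nonneg fun q _ => hC3 q), fun M N hM => ?_⟩
  have ht : (0 : ℝ) ≤ N := Nat.cast_nonneg _
  have hSfin := ME.Sh_fin (i := d) hk (fun _ => 1) (fun _ => le_rfl) (N : ℝ) d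
  set G := (tup d M).filter (fun n => Function.Injective n) with hG
  set V : Set (Fin d → ℝ) := {v : Fin d → ℝ | (∀ l, 0 ≤ v l) ∧ ∑ l, ⌊v l ^ k⌋ = (N : ℤ)} with hV
  have hVS : V ⊆ ME.Sh (i := d) k (fun _ => 1) N d := by
    rintro v ⟨a1, a2⟩
    have a3 := near (fun l => v l ^ k) a2
    exact ⟨a1, by simpa using a3⟩
  have hVfin : volume V ≠ ⊤ := ne_top_of_le_ne_top hSfin (measure_mono hVS)
  set U : Set (Fin d → ℝ) := {v : Fin d → ℝ | ∃ e ∈ G, v ∈ box e} ∩ SN k d N with hU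
  have hP : ∑ n ∈ G, (prodLaw unif).real (EvI k N n) = volume.real U := by
    rw [hU, ← hPG.2 d G _ (SN_meas k d N)]
    refine Finset.sum_congr rfl fun n hn => ?_
    exact hPG.1 d n (Finset.mem_filter.1 hn).2 _ (SN_meas k d N)
  rw [hP]
  have hUV : U ⊆ V := by
    rintro v ⟨⟨e, he, a1⟩, a2⟩
    exact ⟨fun l => le_trans (Nat.cast_nonneg _) (a1 l).1, a2⟩
  have hle : volume.real U ≤ volume.real V := measureReal_mono hUV hVfin
  rw [abs_sub_comm, abs_of_nonneg (sub_nonneg.2 hle)]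
  let A : Fin d → Set (Fin d → ℝ) := fun l =>
    {v : Fin d → ℝ | (∀ j, 0 ≤ v j) ∧ v l ≤ 1 ∧ |∑ j, v j ^ k - N| ≤ d}
  let B : Fin d × Fin d → Set (Fin d → ℝ) := fun q =>
    if q.1 = q.2 then ∅ else
      {v : Fin d → ℝ | (∀ l, 0 ≤ v l) ∧ |v q.1 - v q.2| ≤ 1 ∧ |∑ l, v l ^ k - N| ≤ d}
  have hSU : V ⊆ U ∪ ((⋃ l, A l) ∪ ⋃ q, B q) := by
    rintro v ⟨a1, a2⟩
    have a3 : |∑ l, v l ^ k - N| ≤ d := near (fun l => v l ^ k) a2
    by_cases c1 : ∃ l, v l ≤ 1
    · obtain ⟨l, hl⟩ := c1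
      exact Or.inr (Or.inl (Set.mem_iUnion.2 ⟨l, a1, hl, a3⟩))
    · by_cases c2 : ∃ q : Fin d × Fin d, q.1 ≠ q.2 ∧ |v q.1 - v q.2| ≤ 1
      · obtain ⟨q, hq, hq1⟩ := c2
        refine Or.inr (Or.inr (Set.mem_iUnion.2 ⟨q, ?_⟩))
        change v ∈ (if q.1 = q.2 then ∅ else _)
        rw [if_neg hq]
        exact ⟨a1, hq1, a3⟩
      · left
        push Not at c1 c2
        refine ⟨⟨fun l => ⌊v l⌋₊, ?_, fun l => ⟨Nat.floor_le (a1 l), (Nat.lt_floor_add_one _).le⟩⟩, a2⟩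
        rw [hG, Finset.mem_filter]
        constructor
        · unfold tup
          rw [Fintype.mem_piFinset]
          intro l
          rw [Finset.mem_Icc]
          constructor
          · rw [Nat.one_le_floor_iff]
            exact (c1 l).le
          · by_contra hc
            have hc' : M + 1 ≤ ⌊v l⌋₊ := by omega
            have h5 : ((M : ℝ) + 1) ≤ v l := by
              have := (Nat.le_floor_iff (a1 l)).1 hc'
              exact_mod_cast this
            have h6 : ((M : ℝ) + 1) ^ k ≤ v l ^ k := pow_le_pow_left₀ (by positivity) h5 k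
            have h7 : v l ^ k ≤ ∑ l, v l ^ k :=
              Finset.single_le_sum (f := fun l => v l ^ k) (fun j _ => pow_nonneg (a1 j) k)
                (Finset.mem_univ l)
            have := (abs_le.1 a3).2
            linarith
        · intro a b hab
          by_contra hne
          have h5 := c2 (a, b) hne
          have h6 := Nat.floor_le (a1 a)
          have h7 := Nat.floor_le (a1 b)
          have h8 := Nat.lt_floor_add_one (v a)
          have h9 := Nat.lt_floor_add_one (v b)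
          simp only at hab h5
          rw [hab] at h6 h8
          have : |v a - v b| ≤ 1 := by
            rw [abs_le]
            constructor <;> linarith
          linarith
  have hUS : U ⊆ ME.Sh (i := d) k (fun _ => 1) N d := hUV.trans hVS
  have hAS : ∀ l, A l ⊆ ME.Sh (i := d) k (fun _ => 1) N d := by
    rintro l v ⟨a1, -, a3⟩
    exact ⟨a1, by simpa using a3⟩
  have hBS : ∀ q, B q ⊆ ME.Sh (i := d) k (fun _ => 1) N d := by
    intro q v hv
    change v ∈ (if q.1 = q.2 then ∅ else _) at hv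
    split_ifs at hv with hq
    · exact absurd hv (Set.notMem_empty v)
    · exact ⟨hv.1, by simpa using hv.2.2⟩
  have hfin : volume (U ∪ ((⋃ l, A l) ∪ ⋃ q, B q)) ≠ ⊤ := by
    refine ne_top_of_le_ne_top hSfin (measure_mono ?_)
    refine Set.union_subset hUS (Set.union_subset (Set.iUnion_subset hAS) (Set.iUnion_subset hBS))
  have b1 : volume.real V ≤
      volume.real U + (∑ l, volume.real (A l) + ∑ q, volume.real (B q)) := by
    refine (measureReal_mono hSU hfin).trans ?_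
    refine (measureReal_union_le _ _).trans ?_
    gcongr
    refine (measureReal_union_le _ _).trans ?_
    gcongr
    · exact measureReal_iUnion_fintype_le _
    · exact measureReal_iUnion_fintype_le _
  have b2 : ∑ l, volume.real (A l) ≤ d * C1 * (1 + N) ^ (((d : ℝ) - 1) / k - 1) := by
    refine (Finset.sum_le_sum fun l _ => h1 l N ht).trans ?_
    rw [Finset.sum_const, Finset.card_univ, Fintype.card_fin, nsmul_eq_mul, mul_assoc]
  have b3 : ∑ q, volume.real (B q) ≤ (∑ q, C3 q) * (1 + N) ^ (((d : ℝ) - 1) / k - 1) := by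
    rw [Finset.sum_mul]
    refine Finset.sum_le_sum fun q _ => ?_
    by_cases hq : q.1 = q.2
    · have : B q = ∅ := if_pos hq
      rw [this, measureReal_empty]
      exact mul_nonneg (hC3 q) (Real.rpow_nonneg (by linarith) _)
    · have : B q = {v : Fin d → ℝ | (∀ l, 0 ≤ v l) ∧ |v q.1 - v q.2| ≤ 1 ∧
          |∑ l, v l ^ k - N| ≤ d} := if_neg hq
      rw [this]
      have := h3 q hq N
      rwa [abs_of_nonneg ht] at this
  rw [add_mul]
  linarith

end MEI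

theorem t_MEI : S_V1 → S_V3 → S_PV → S_PG → S_D2 → S_MEI := by
  intro hV1 hV3 hPV hPG hD2 k d hk hd ε hε
  classical
  obtain ⟨C1, hC1, h1⟩ := MEI.inj hV1 hV3 hPG k d hk hd
  obtain ⟨C2, hC2, h2⟩ := MEI.noninj hV1 hPV k d hk hd
  obtain ⟨c, hc⟩ : ∃ c, c = Real.Gamma (1 + 1 / k) ^ d / Real.Gamma ((d : ℝ) / k) := ⟨_, rfl⟩
  have hk0 : (0 : ℝ) < k := by exact_mod_cast hk
  have hdk : (k : ℝ) + 1 ≤ d := by exact_mod_cast hd
  obtain ⟨β, hβ⟩ : ∃ β, β = ((d : ℝ) - 1) / k - 1 := ⟨_, rfl⟩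
  have hβ0 : 0 ≤ β := by
    rw [hβ, sub_nonneg, le_div_iff₀ hk0]
    linarith
  have hαβ : (d : ℝ) / k - 1 = β + 1 / k := by
    rw [hβ]
    field_simp
    ring
  have hlim : Filter.Tendsto (fun t : ℝ => (C1 + C2) * 2 ^ β * t ^ (-(1 / (k : ℝ)))) Filter.atTop
      (nhds 0) := by
    have := (tendsto_rpow_neg_atTop (y := 1 / (k : ℝ)) (by positivity)).const_mul
      ((C1 + C2) * 2 ^ β)
    simpa using this
  have hlimN := hlim.comp (tendsto_natCast_atTop_atTop (R := ℝ))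
  have e1 := hD2 k d hk hd
  rw [← hc] at e1
  have e2 := (Metric.tendsto_nhds.1 e1) (ε / 2) (by positivity)
  have e3 := (Metric.tendsto_nhds.1 hlimN) (ε / 2) (by positivity)
  obtain ⟨N₀, hN₀⟩ := Filter.eventually_atTop.1 (e2.and e3)
  refine ⟨max N₀ 1, fun N hN M hM => ?_⟩
  have hN1 : 1 ≤ N := le_trans (le_max_right _ _) hN
  have ht1 : (1 : ℝ) ≤ N := by exact_mod_cast hN1
  have ht0 : (0 : ℝ) < N := by linarith
  obtain ⟨f1, f2⟩ := hN₀ N (le_trans (le_max_left _ _) hN)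
  have g1 := h1 M N hM
  have g2 := h2 M N
  have g3 : 0 ≤ ∑ n ∈ (tup d M).filter (fun n => ¬ Function.Injective n),
      (prodLaw unif).real (EvI k N n) := Finset.sum_nonneg fun _ _ => measureReal_nonneg
  rw [← hβ] at g1 g2
  rw [← hc]
  have hsplit := Finset.sum_filter_add_sum_filter_not (tup d M) (fun n => Function.Injective n)
    (fun n => (prodLaw unif).real (EvI k N n))
  have htα : 0 < (N : ℝ) ^ ((d : ℝ) / k - 1) := Real.rpow_pos_of_pos ht0 _
  have g4 : |volume.real {v : Fin d → ℝ | (∀ l, 0 ≤ v l) ∧ ∑ l, ⌊v l ^ k⌋ = (N : ℤ)} -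
      c * (N : ℝ) ^ ((d : ℝ) / k - 1)| ≤ ε / 2 * (N : ℝ) ^ ((d : ℝ) / k - 1) := by
    rw [Real.dist_eq] at f1
    have : volume.real {v : Fin d → ℝ | (∀ l, 0 ≤ v l) ∧ ∑ l, ⌊v l ^ k⌋ = (N : ℤ)} -
        c * (N : ℝ) ^ ((d : ℝ) / k - 1) =
        (volume.real {v : Fin d → ℝ | (∀ l, 0 ≤ v l) ∧ ∑ l, ⌊v l ^ k⌋ = (N : ℤ)} /
          (N : ℝ) ^ ((d : ℝ) / k - 1) - c) * (N : ℝ) ^ ((d : ℝ) / k - 1) := by
      field_simp
    rw [this, abs_mul, abs_of_pos htα]
    exact mul_le_mul_of_nonneg_right f1.le htα.le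
  have g5 : (C1 + C2) * (1 + N) ^ β ≤ ε / 2 * (N : ℝ) ^ ((d : ℝ) / k - 1) := by
    rw [Real.dist_eq, sub_zero] at f2
    have f3 : (C1 + C2) * 2 ^ β * (N : ℝ) ^ (-(1 / (k : ℝ))) ≤ ε / 2 := (le_abs_self _).trans f2.le
    have f4 : (1 + (N : ℝ)) ^ β ≤ 2 ^ β * (N : ℝ) ^ β := by
      rw [← Real.mul_rpow (by norm_num) ht0.le]
      exact Real.rpow_le_rpow (by linarith) (by linarith) hβ0
    have f5 : (N : ℝ) ^ β = (N : ℝ) ^ (-(1 / (k : ℝ))) * (N : ℝ) ^ ((d : ℝ) / k - 1) := by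
      rw [← Real.rpow_add ht0, hαβ]
      congr 1
      ring
    calc (C1 + C2) * (1 + N) ^ β ≤ (C1 + C2) * (2 ^ β * (N : ℝ) ^ β) :=
          mul_le_mul_of_nonneg_left f4 (by positivity)
      _ = ((C1 + C2) * 2 ^ β * (N : ℝ) ^ (-(1 / (k : ℝ)))) * (N : ℝ) ^ ((d : ℝ) / k - 1) := by
          rw [f5]; ring
      _ ≤ ε / 2 * (N : ℝ) ^ ((d : ℝ) / k - 1) := mul_le_mul_of_nonneg_right f3 htα.le
  rw [← hsplit]
  rw [add_mul] at g5
  rw [abs_le] at g1 g4 ⊢
  constructor <;> linarith [g1.1, g1.2, g4.1, g4.2]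

end

end Pool.Agent.U160.WP
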