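import Pool.Agent.U160.WP.Stm2
import Pool.Agent.U160.WP.PkgPV

set_option autoImplicit false

/-! Project WP, package PG (helper981): probabilities are volumes, for arbitrary measurable sets;
boxes over a finite set of points. Adapted from `PkgPV`. -/

namespace Pool.Agent.U160.WP

open MeasureTheory ProbabilityTheory Finset

theorem pg_meas {i : ℕ} (e : Fin i → ℕ) : MeasurableSet (box e) := by
  have h : box e = Set.univ.pi fun l => Set.Icc (e l : ℝ) (e l + 1) := by
    ext v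
    simp only [box, Set.mem_ofPred_eq, Set.mem_pi, Set.mem_univ, true_implies]
  rw [h]
  exact MeasurableSet.univ_pi fun l => measurableSet_Icc

theorem pg_one {i : ℕ} (e : Fin i → ℕ) (he : Function.Injective e) (S : Set (Fin i → ℝ))
    (hS : MeasurableSet S) :
    (prodLaw unif).real {y | (fun l => (e l : ℝ) + y (e l)) ∈ S} = volume.real (box e ∩ S) := by
  have hms : MeasurableSet {x : Fin i → ℝ | (fun l => (e l : ℝ) + x l) ∈ S} :=
    (measurable_pi_lambda _ fun l => (measurable_const.add (measurable_pi_apply l))) hS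
  have h1 : {y : ℕ → ℝ | (fun l => (e l : ℝ) + y (e l)) ∈ S} =
      (fun (y : ℕ → ℝ) (l : Fin i) => y (e l)) ⁻¹'
        {x : Fin i → ℝ | (fun l => (e l : ℝ) + x l) ∈ S} := rfl
  rw [h1, measureReal_def, ← Measure.map_apply (by fun_prop) hms, pv_map_coords e he, pv_pi_unif,
    Measure.restrict_apply hms, measureReal_def]
  congr 1
  rw [← measure_preimage_add volume (fun l => (e l : ℝ)) (box e ∩ S)]
  congr 1
  ext x
  have h2 : ((fun l => (e l : ℝ)) + x : Fin i → ℝ) = fun l => (e l : ℝ) + x l := rfl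
  simp only [box, Set.mem_inter_iff, Set.mem_ofPred_eq, Set.mem_pi, Set.mem_univ, true_implies,
    Set.mem_preimage, Set.mem_Icc, h2]
  constructor
  · rintro ⟨h2, h3⟩
    exact ⟨fun l => ⟨by linarith [(h3 l).1], by linarith [(h3 l).2]⟩, h2⟩
  · rintro ⟨h2, h3⟩
    exact ⟨h3, fun l => ⟨by linarith [(h2 l).1], by linarith [(h2 l).2]⟩⟩

theorem pg_fin {i : ℕ} (e : Fin i → ℕ) (S : Set (Fin i → ℝ)) : volume (box e ∩ S) ≠ ⊤ := by
  have h : box e ∩ S ⊆ Set.Icc (fun l => (e l : ℝ)) (fun l => (e l : ℝ) + 1) := by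
    intro v hv
    exact ⟨fun l => (hv.1 l).1, fun l => (hv.1 l).2⟩
  exact ne_top_of_le_ne_top isCompact_Icc.measure_lt_top.ne (measure_mono h)

theorem pg_disj {i : ℕ} (e e' : Fin i → ℕ) (hne : e ≠ e') (S : Set (Fin i → ℝ)) :
    AEDisjoint volume (box e ∩ S) (box e' ∩ S) := by
  obtain ⟨l, hl⟩ := Function.ne_iff.mp hne
  have hnull : ∀ x : ℝ, (volume : Measure (Fin i → ℝ)) {v | v l = x} = 0 := by
    intro x
    rw [volume_pi]
    exact Measure.pi_hyperplane (fun _ : Fin i => (volume : Measure ℝ)) l x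
  refine measure_mono_null ?_ (hnull ((max (e l) (e' l) : ℕ) : ℝ))
  rintro v ⟨hv, hv'⟩
  have h1 := hv.1 l
  have h2 := hv'.1 l
  simp only [Set.mem_Icc] at h1 h2
  simp only [Set.mem_ofPred_eq]
  rcases lt_or_gt_of_ne hl with h | h
  · rw [max_eq_right h.le]
    have h3 : (e l : ℝ) + 1 ≤ e' l := by exact_mod_cast h
    linarith [h1.2, h2.1]
  · rw [max_eq_left h.le]
    have h3 : (e' l : ℝ) + 1 ≤ e l := by exact_mod_cast h
    linarith [h1.1, h2.2]

theorem t_PG : S_PG := by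
  refine ⟨fun i e he S hS => pg_one e he S hS, ?_⟩
  intro i G S hS
  have h : {v : Fin i → ℝ | ∃ e ∈ G, v ∈ box e} ∩ S = ⋃ e ∈ G, (box e ∩ S) := by
    ext v
    simp only [Set.mem_inter_iff, Set.mem_ofPred_eq, Set.mem_iUnion, exists_prop]
    constructor
    · rintro ⟨⟨e, he, h1⟩, h2⟩
      exact ⟨e, he, h1, h2⟩
    · rintro ⟨e, he, h1, h2⟩
      exact ⟨⟨e, he, h1⟩, h2⟩
  rw [h, measureReal_biUnion_finset₀ (fun e _ e' _ hne => pg_disj e e' hne S)
    (fun e _ => ((pg_meas e).inter hS).nullMeasurableSet) (fun e _ => pg_fin e S)]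

end Pool.Agent.U160.WP
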