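import Pool.Agent.U160.WP.ProbG
import Pool.Agent.U160.WP.Fin
import Pool.Agent.U160.WP.PkgPG
import Pool.Agent.U160.WP.PkgD2
import Pool.Agent.U160.WP.PkgMEI

set_option autoImplicit false

namespace Pool.Agent.U160.WP

open MeasureTheory ProbabilityTheory Finset Filter Topology
open Pool.Agent.U160.VP (KInd kind_of_iInd transfer frac cube cube_prob frac_kind frac_meas law_one t_R2)

theorem a_MEI : S_MEI := t_MEI t_V1 (t_V3 t_V1) t_PV t_PG (t_D2 t_V1 t_V2)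

theorem EvI_sub {k N d : ℕ} (n : Fin d → ℕ) : EvI k N n ⊆ EvW k (N : ℝ) (d : ℝ) n := by
  intro θ hθ
  unfold EvI at hθ
  unfold EvW
  simp only [Set.mem_ofPred_eq] at hθ ⊢
  have h1 : ((∑ i, ⌊((n i : ℝ) + θ (n i)) ^ k⌋ : ℤ) : ℝ) = (N : ℝ) := by exact_mod_cast congrArg (fun z : ℤ => (z : ℝ)) hθ
  push_cast at h1
  rw [← h1, ← sum_sub_distrib]
  calc |∑ i, (((n i : ℝ) + θ (n i)) ^ k - (⌊((n i : ℝ) + θ (n i)) ^ k⌋ : ℝ))|
      ≤ ∑ i, |((n i : ℝ) + θ (n i)) ^ k - (⌊((n i : ℝ) + θ (n i)) ^ k⌋ : ℝ)| := abs_sum_le_sum_abs _ _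
    _ ≤ ∑ _i : Fin d, (1 : ℝ) := by
        refine sum_le_sum fun i _ => ?_
        rw [abs_of_nonneg (by linarith [Int.floor_le (((n i : ℝ) + θ (n i)) ^ k)])]
        linarith [Int.lt_floor_add_one (((n i : ℝ) + θ (n i)) ^ k)]
    _ = (d : ℝ) := by simp

theorem EvI_adm (k N d : ℕ) : Adm (fun n : Fin d → ℕ => EvI k N n) := by
  constructor
  · intro n
    have h1 : Measurable (fun θ : ℕ → ℝ => ∑ i, ⌊((n i : ℝ) + θ (n i)) ^ k⌋) :=
      Finset.measurable_sum _ fun i _ => Int.measurable_floor.comp (by fun_prop)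
    exact h1 (measurableSet_singleton (N : ℤ))
  · intro n x y h
    unfold EvI
    simp only [Set.mem_ofPred_eq]
    have h1 : ∑ i, ⌊((n i : ℝ) + x (n i)) ^ k⌋ = ∑ i, ⌊((n i : ℝ) + y (n i)) ^ k⌋ :=
      sum_congr rfl fun i _ => by rw [h (n i) (mem_image_of_mem _ (mem_univ i))]
    rw [h1]

theorem cond_mono {A B : Set (ℕ → ℝ)} (h : A ⊆ B) (T : Finset ℕ) (x : ℕ → ℝ) :
    cond unif A T x ≤ cond unif B T x := by
  have hP : IsProbabilityMeasure (prodLaw unif) := by unfold prodLaw; infer_instance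
  unfold cond
  apply measureReal_mono _ (measure_ne_top _ _)
  intro y hy
  exact h hy

/-- the solutions -/
def solI (θ : ℕ → ℝ) (k d N : ℕ) : Set (Fin d → ℕ) :=
  {n | (∀ i, 1 ≤ n i) ∧ ∑ i, ⌊((n i : ℝ) + θ (n i)) ^ k⌋ = (N : ℤ)}

theorem solI_le {θ : ℕ → ℝ} (hθ : ∀ n, 1 ≤ n → 0 ≤ θ n) {k d M N : ℕ} (hd : 1 ≤ d)
    (hM : (N : ℝ) + d < ((M : ℝ) + 1) ^ k) {n : Fin d → ℕ} (hn : n ∈ solI θ k d N) (i : Fin d) : n i ≤ M := by
  obtain ⟨h1, h2⟩ := hn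
  have hnn : ∀ j, 0 ≤ ((n j : ℝ) + θ (n j)) ^ k := fun j => pow_nonneg (by have := hθ (n j) (h1 j); positivity) k
  have hfl : ∀ j, 0 ≤ ⌊((n j : ℝ) + θ (n j)) ^ k⌋ := fun j => Int.floor_nonneg.2 (hnn j)
  have h3 : ⌊((n i : ℝ) + θ (n i)) ^ k⌋ ≤ (N : ℤ) := by
    rw [← h2]
    exact single_le_sum (f := fun j => ⌊((n j : ℝ) + θ (n j)) ^ k⌋) (fun j _ => hfl j) (mem_univ i)
  have h4 : ((n i : ℝ) + θ (n i)) ^ k < (N : ℝ) + 1 := by
    have h5 := Int.lt_floor_add_one (((n i : ℝ) + θ (n i)) ^ k)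
    have h6 : (⌊((n i : ℝ) + θ (n i)) ^ k⌋ : ℝ) ≤ N := by exact_mod_cast h3
    linarith
  have h7 : ((n i : ℝ)) ^ k ≤ ((n i : ℝ) + θ (n i)) ^ k :=
    pow_le_pow_left₀ (by positivity) (by linarith [hθ (n i) (h1 i)]) k
  have hd1 : (1 : ℝ) ≤ d := by exact_mod_cast hd
  have h8 : ((n i : ℝ)) ^ k < ((M : ℝ) + 1) ^ k := by linarith
  have h9 : (n i : ℝ) < (M : ℝ) + 1 := lt_of_pow_lt_pow_left₀ k (by positivity) h8
  have h10 : n i < M + 1 := by exact_mod_cast h9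
  omega

theorem cntI_eq {θ : ℕ → ℝ} (hθ : ∀ n, 1 ≤ n → 0 ≤ θ n) {k d M N : ℕ} (hd : 1 ≤ d)
    (hM : (N : ℝ) + d < ((M : ℝ) + 1) ^ k) :
    ((solI θ k d N).ncard : ℝ) = Nev (tup d M) (fun n => EvI k N n) θ := by
  classical
  have h0 : solI θ k d N = ((tup d M).filter (fun n => θ ∈ EvI k N n) : Finset (Fin d → ℕ)) := by
    ext n
    simp only [coe_filter, Set.mem_ofPred_eq, tup, Fintype.mem_piFinset, mem_Icc]
    constructor
    · intro hn
      exact ⟨fun i => ⟨hn.1 i, solI_le hθ hd hM hn i⟩, hn.2⟩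
    · intro hn
      exact ⟨fun i => (hn.1 i).1, hn.2⟩
  unfold Nev
  rw [h0, Set.ncard_coe_finset, card_filter]
  push_cast
  refine sum_congr rfl fun n _ => ?_
  by_cases h : θ ∈ EvI k N n
  · rw [if_pos h, Set.indicator_of_mem h]
  · rw [if_neg h, Set.indicator_of_notMem h]

theorem int_kind (k d : ℕ) (hk : 1 ≤ k) (hd : k + 1 ≤ d)
    (ε : ℝ) (hε : 0 < ε) (Ω : Type) [MeasurableSpace Ω] (P : Measure Ω)
    [IsProbabilityMeasure P] (X : ℕ → Ω → ℝ) (hX : ∀ n, Measurable (X n)) (hind : KInd (2 * (k + 1) * d) P X unif) :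
    ∀ᵐ ω ∂P, (∀ n, 1 ≤ n → 0 ≤ X n ω) → ∀ᶠ N : ℕ in atTop,
      |((solI (fun n => X n ω) k d N).ncard : ℝ) - GG k d * (N : ℝ) ^ ((d : ℝ) / k - 1)| ≤
        ε * (N : ℝ) ^ ((d : ℝ) / k - 1) := by
  have hk0 : (0 : ℝ) < k := by exact_mod_cast hk
  have hk1 : (1 : ℝ) ≤ k := by exact_mod_cast hk
  have hd0 : (0 : ℝ) < d := by exact_mod_cast (by omega : 0 < d)
  have hP : IsProbabilityMeasure (prodLaw unif) := by unfold prodLaw; infer_instance
  set ε1 : ℝ := ε / (2 * 3 ^ (d - k)) with hε1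
  obtain ⟨C2, hC2, hCD⟩ := a_CD k d (2 * (k + 1) * d) hk hd (d : ℝ) hd0
  obtain ⟨C, hC, hT⟩ := tail_kindG a_MOM k d (k + 1) hd C2 hC2 ε1 (by positivity)
  obtain ⟨N₀, hE⟩ := a_MEI k d hk hd (ε / 2) (by positivity)
  set M : ℕ → ℕ := fun j => ⌈((j : ℝ) + d) ^ (1 / (k : ℝ))⌉₊ with hM
  have hMpos : ∀ j, 1 ≤ M j := by
    intro j
    rw [hM]
    exact Nat.one_le_ceil_iff.2 (by positivity)
  have hMge : ∀ j : ℕ, ((j : ℝ) + d) ^ (1 / (k : ℝ)) ≤ M j := fun j => Nat.le_ceil _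
  have hpk : ∀ x : ℝ, 0 ≤ x → (x ^ (1 / (k : ℝ))) ^ k = x := by
    intro x hx
    rw [← Real.rpow_natCast, ← Real.rpow_mul hx]
    rw [one_div, inv_mul_cancel₀ hk0.ne', Real.rpow_one]
  have hMk : ∀ j : ℕ, (j : ℝ) + d < ((M j : ℝ) + 1) ^ k := by
    intro j
    calc (j : ℝ) + d = (((j : ℝ) + d) ^ (1 / (k : ℝ))) ^ k := (hpk _ (by positivity)).symm
      _ < ((M j : ℝ) + 1) ^ k := by
        apply pow_lt_pow_left₀ _ (by positivity) (by omega)
        linarith [hMge j]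
  set E : ℕ → ℝ := fun j => ∑ n ∈ tup d (M j), (prodLaw unif).real (EvI k j n) with hEdef
  set B : ℕ → Set Ω := fun j => {ω | ε1 * (M j : ℝ) ^ (d - k) ≤
    |Nev (tup d (M j)) (fun n => EvI k j n) (fun n => X n ω) - E j|} with hB
  set p : ℝ := ((k : ℝ) + 1) / k with hp
  have hp1 : 1 < p := by rw [hp, lt_div_iff₀ hk0]; linarith
  have hb1 : ∀ j : ℕ, ∑ n ∈ tup d (M j), (prodLaw unif).real (EvI k j n) ≤ C2 * (M j : ℝ) ^ (d - k) := by
    intro j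
    refine le_trans (sum_le_sum fun n _ => ?_) (hCD (M j) (j : ℝ) (hMpos j)).1
    exact measureReal_mono (EvI_sub n) (measure_ne_top _ _)
  have hb2 : ∀ j : ℕ, ∀ T : Finset ℕ, T.card ≤ 2 * (k + 1) * d → ∀ x : ℕ → ℝ,
      ∑ n ∈ (tup d (M j)).filter (fun n => ¬ Disjoint (suppW n) T), cond unif (EvI k j n) T x ≤
        C2 * (M j : ℝ) ^ (d - k - 1) := by
    intro j T hTc x
    have h1 := (hCD (M j) (j : ℝ) (hMpos j)).2 T hTc x
    have h2 : ∑ n ∈ (tup d (M j)).filter (fun n => ¬ Disjoint (suppW n) T), cond unif (EvI k j n) T x ≤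
        ∑ n ∈ (tup d (M j)).filter (fun n => ¬ Disjoint (suppW n) T), cond unif (EvW k (j : ℝ) (d : ℝ) n) T x := by
      exact sum_le_sum fun n _ => cond_mono (EvI_sub n) T x
    exact h2.trans (le_of_eq_of_le (by congr!) h1)
  have hBj : ∀ j : ℕ, P.real (B (j + 1)) ≤ C * ((j + 1 : ℕ) : ℝ) ^ (-p) := by
    intro j
    have h1 := hT (fun n => EvI k (j + 1) n) (EvI_adm k (j + 1) d) Ω P X hX hind (M (j + 1)) (hMpos _) (hb1 _) (hb2 _)
    refine h1.trans ?_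
    have h2 : (((j + 1 : ℕ) : ℝ)) ^ p ≤ ((M (j + 1) : ℕ) : ℝ) ^ (k + 1) := by
      have h3 : (((j + 1 : ℕ) : ℝ)) ^ (1 / (k : ℝ)) ≤ M (j + 1) := by
        refine le_trans ?_ (hMge (j + 1))
        apply Real.rpow_le_rpow (by positivity) (by linarith) (by positivity)
      calc (((j + 1 : ℕ) : ℝ)) ^ p = ((((j + 1 : ℕ) : ℝ)) ^ (1 / (k : ℝ))) ^ (k + 1) := by
            rw [← Real.rpow_natCast, ← Real.rpow_mul (by positivity)]
            congr 1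
            rw [hp]; push_cast; field_simp
        _ ≤ _ := pow_le_pow_left₀ (by positivity) h3 _
    have h4 : 0 < (((j + 1 : ℕ) : ℝ)) ^ p := by positivity
    calc C / ((M (j + 1) : ℕ) : ℝ) ^ (k + 1) ≤ C / (((j + 1 : ℕ) : ℝ)) ^ p := by gcongr
      _ = C * ((j + 1 : ℕ) : ℝ) ^ (-p) := by
        rw [Real.rpow_neg (by positivity)]
        field_simp
  have hsum : Summable (fun j : ℕ => C * ((j + 1 : ℕ) : ℝ) ^ (-p)) := by
    apply Summable.mul_left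
    exact (summable_nat_add_iff 1).2 (Real.summable_nat_rpow.2 (by linarith))
  have hne : ∑' j, P (B (j + 1)) ≠ ⊤ := by
    refine ne_top_of_le_ne_top hsum.tsum_ofReal_ne_top (ENNReal.tsum_le_tsum fun j => ?_)
    rw [show P (B (j + 1)) = ENNReal.ofReal (P.real (B (j + 1))) by rw [ofReal_measureReal]]
    exact ENNReal.ofReal_le_ofReal (hBj j)
  filter_upwards [ae_eventually_notMem hne] with ω hω hpos
  have hω2 : ∀ᶠ j : ℕ in atTop, ω ∉ B j := by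
    obtain ⟨j0, hj0⟩ := eventually_atTop.1 hω
    refine eventually_atTop.2 ⟨j0 + 1, fun j hj => ?_⟩
    have h1 := hj0 (j - 1) (by omega)
    rwa [show j - 1 + 1 = j by omega] at h1
  filter_upwards [hω2, eventually_ge_atTop (max N₀ (max d 1))] with j h1 h2
  have ht0 : N₀ ≤ j := (le_max_left _ _).trans h2
  have htd : (d : ℝ) ≤ j := by exact_mod_cast (le_max_left _ _).trans ((le_max_right _ _).trans h2)
  have ht1 : (1 : ℝ) ≤ j := by exact_mod_cast (le_max_right _ _).trans ((le_max_right _ _).trans h2)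
  set t : ℝ := (j : ℝ) with ht
  have htpos : 0 < t := by linarith
  have h3 := hE j ht0 (M j) (hMk j)
  rw [cntI_eq hpos (by omega) (hMk j)]
  have h4 : |Nev (tup d (M j)) (fun n => EvI k j n) (fun n => X n ω) - E j| < ε1 * (M j : ℝ) ^ (d - k) := by
    by_contra hcon
    exact h1 (not_lt.1 hcon)
  have h5 : (M j : ℝ) ≤ 3 * t ^ (1 / (k : ℝ)) := by
    have h6 : (M j : ℝ) < (t + d) ^ (1 / (k : ℝ)) + 1 := Nat.ceil_lt_add_one (by positivity)
    have h7 : (t + d) ^ (1 / (k : ℝ)) ≤ 2 * t ^ (1 / (k : ℝ)) := by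
      calc (t + d) ^ (1 / (k : ℝ)) ≤ (2 * t) ^ (1 / (k : ℝ)) :=
            Real.rpow_le_rpow (by positivity) (by linarith) (by positivity)
        _ = 2 ^ (1 / (k : ℝ)) * t ^ (1 / (k : ℝ)) := Real.mul_rpow (by norm_num) htpos.le
        _ ≤ 2 ^ (1 : ℝ) * t ^ (1 / (k : ℝ)) := by
            apply mul_le_mul_of_nonneg_right _ (by positivity)
            apply Real.rpow_le_rpow_of_exponent_le (by norm_num)
            rw [div_le_one hk0]; exact hk1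
        _ = _ := by rw [Real.rpow_one]
    have h8 : 1 ≤ t ^ (1 / (k : ℝ)) := Real.one_le_rpow ht1 (by positivity)
    linarith
  have h6 : (M j : ℝ) ^ (d - k) ≤ 3 ^ (d - k) * t ^ ((d : ℝ) / k - 1) := by
    calc (M j : ℝ) ^ (d - k) ≤ (3 * t ^ (1 / (k : ℝ))) ^ (d - k) := pow_le_pow_left₀ (by positivity) h5 _
      _ = 3 ^ (d - k) * t ^ ((d : ℝ) / k - 1) := by
        rw [mul_pow, ← Real.rpow_natCast (t ^ (1 / (k : ℝ))), ← Real.rpow_mul htpos.le]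
        congr 2
        rw [Nat.cast_sub (by omega)]
        field_simp
  have h7 : ε1 * (M j : ℝ) ^ (d - k) ≤ ε / 2 * t ^ ((d : ℝ) / k - 1) := by
    calc ε1 * (M j : ℝ) ^ (d - k) ≤ ε1 * (3 ^ (d - k) * t ^ ((d : ℝ) / k - 1)) := by gcongr
      _ = _ := by rw [hε1]; field_simp
  calc _ = |(Nev (tup d (M j)) (fun n => EvI k j n) (fun n => X n ω) - E j) +
        (E j - Real.Gamma (1 + 1 / k) ^ d / Real.Gamma ((d : ℝ) / k) * t ^ ((d : ℝ) / k - 1))| := by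
        congr 1; unfold GG; ring
    _ ≤ _ := abs_add_le _ _
    _ ≤ ε / 2 * t ^ ((d : ℝ) / k - 1) + ε / 2 * t ^ ((d : ℝ) / k - 1) := by
        apply add_le_add (h4.le.trans h7) h3
    _ = _ := by ring

/-- the asymptotic formula -/
theorem int_asy_kind (k d : ℕ) (hk : 1 ≤ k) (hd : k + 1 ≤ d)
    (Ω : Type) [MeasurableSpace Ω] (P : Measure Ω)
    [IsProbabilityMeasure P] (X : ℕ → Ω → ℝ) (hX : ∀ n, Measurable (X n)) (hind : KInd (2 * (k + 1) * d) P X unif) :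
    ∀ᵐ ω ∂P, Tendsto (fun N : ℕ => ((solI (fun n => X n ω) k d N).ncard : ℝ) / (N : ℝ) ^ ((d : ℝ) / k - 1)) atTop
      (𝓝 (GG k d)) := by
  have hd1 : 1 ≤ 2 * (k + 1) * d := by
    have : 1 ≤ d := by omega
    nlinarith
  have hu : ∀ᵐ ω ∂P, ∀ n, 1 ≤ n → 0 ≤ X n ω := by
    rw [ae_all_iff]
    intro n
    by_cases hn : 1 ≤ n
    · have hl : P.map (X n) = unif := by
        have h1 := hind {n} (by simpa using hn) (by simpa using hd1)
        have h2 : X n = (fun y : (({n} : Finset ℕ) : Type) → ℝ => y ⟨n, by simp⟩) ∘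
            (fun ω (i : (({n} : Finset ℕ) : Type)) => X i ω) := by ext ω; rfl
        rw [h2, ← Measure.map_map (measurable_pi_apply _) (measurable_pi_iff.2 fun i => hX _), h1]
        exact (measurePreserving_eval (fun _ : (({n} : Finset ℕ) : Type) => unif) ⟨n, by simp⟩).map_eq
      have h1 : ∀ᵐ x ∂unif, x ∈ Set.Icc (0 : ℝ) 1 := ae_restrict_mem measurableSet_Icc
      rw [← hl] at h1
      filter_upwards [ae_of_ae_map (hX n).aemeasurable h1] with ω h _ using h.1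
    · exact Eventually.of_forall fun ω h => absurd h hn
  have hg : ∀ᵐ ω ∂P, ∀ m : ℕ, (∀ n, 1 ≤ n → 0 ≤ X n ω) → ∀ᶠ N : ℕ in atTop,
      |((solI (fun n => X n ω) k d N).ncard : ℝ) - GG k d * (N : ℝ) ^ ((d : ℝ) / k - 1)| ≤
        1 / ((m : ℝ) + 1) * (N : ℝ) ^ ((d : ℝ) / k - 1) := by
    rw [ae_all_iff]; intro m
    exact int_kind k d hk hd (1 / ((m : ℝ) + 1)) (by positivity) Ω P X hX hind
  filter_upwards [hu, hg] with ω h1 h2
  rw [Metric.tendsto_atTop]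
  intro e he
  obtain ⟨m, hm⟩ := exists_nat_one_div_lt he
  obtain ⟨N1, hN1⟩ := eventually_atTop.1 (h2 m h1)
  refine ⟨max N1 1, fun N hN => ?_⟩
  have hN0 : (0 : ℝ) < N := by exact_mod_cast (by omega : 0 < N)
  have h3 := hN1 N (by omega)
  have h4 : 0 < (N : ℝ) ^ ((d : ℝ) / k - 1) := by positivity
  rw [Real.dist_eq]
  have h5 : ((solI (fun n => X n ω) k d N).ncard : ℝ) / (N : ℝ) ^ ((d : ℝ) / k - 1) - GG k d =
      (((solI (fun n => X n ω) k d N).ncard : ℝ) - GG k d * (N : ℝ) ^ ((d : ℝ) / k - 1)) /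
        (N : ℝ) ^ ((d : ℝ) / k - 1) := by
    field_simp
  rw [h5, abs_div, abs_of_pos h4, div_lt_iff₀ h4]
  refine h3.trans_lt ?_
  exact mul_lt_mul_of_pos_right hm h4

end Pool.Agent.U160.WP
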