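import Pool.Agent.U160.WP.Prob

set_option autoImplicit false

namespace Pool.Agent.U160.WP

open MeasureTheory ProbabilityTheory Finset Filter Topology
open Pool.Agent.U160.VP (KInd kind_of_iInd transfer frac cube)

/-- the constant -/
noncomputable def GG (k d : ℕ) : ℝ := Real.Gamma (1 + 1 / k) ^ d / Real.Gamma ((d : ℝ) / k)

theorem GG_pos {k d : ℕ} (hk : 1 ≤ k) (hd : k + 1 ≤ d) : 0 < GG k d := by
  unfold GG
  have hk0 : (0 : ℝ) < k := by exact_mod_cast hk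
  have hd0 : (0 : ℝ) < d := by exact_mod_cast (by omega : 0 < d)
  have h1 : 0 < Real.Gamma (1 + 1 / k) := Real.Gamma_pos_of_pos (by positivity)
  have h2 : 0 < Real.Gamma ((d : ℝ) / k) := Real.Gamma_pos_of_pos (by positivity)
  positivity

theorem grid_kind (hMOM : S_MOM) (hCD : S_CD) (hME : S_ME) (k d : ℕ) (hk : 1 ≤ k) (hd : k + 1 ≤ d)
    (η ε δ : ℝ) (hη : 0 < η) (hε : 0 < ε) (hδ : 0 < δ) (Ω : Type) [MeasurableSpace Ω] (P : Measure Ω)
    [IsProbabilityMeasure P] (X : ℕ → Ω → ℝ) (hX : ∀ n, Measurable (X n)) (hind : KInd (2 * (k + 1) * d) P X unif) :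
    ∀ᵐ ω ∂P, (∀ n, 1 ≤ n → 0 ≤ X n ω) → ∀ᶠ j : ℕ in atTop,
      |cnt (fun n => X n ω) k d ((j : ℝ) * δ) η - 2 * η * GG k d * ((j : ℝ) * δ) ^ ((d : ℝ) / k - 1)| ≤
        ε * ((j : ℝ) * δ) ^ ((d : ℝ) / k - 1) := by
  have hk0 : (0 : ℝ) < k := by exact_mod_cast hk
  have hk1 : (1 : ℝ) ≤ k := by exact_mod_cast hk
  set ε1 : ℝ := ε / (2 * 3 ^ (d - k)) with hε1
  obtain ⟨C, hC, hT⟩ := tail_kind hMOM hCD k d (k + 1) hk hd η hη ε1 (by positivity)
  obtain ⟨t₀, ht₀, hE⟩ := hME k d hk hd η hη (ε / 2) (by positivity)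
  set M : ℕ → ℕ := fun j => ⌈((j : ℝ) * δ + η) ^ (1 / (k : ℝ))⌉₊ with hM
  have hMpos : ∀ j, 1 ≤ M j := by
    intro j
    rw [hM]
    exact Nat.one_le_ceil_iff.2 (by positivity)
  have hMge : ∀ j : ℕ, ((j : ℝ) * δ + η) ^ (1 / (k : ℝ)) ≤ M j := fun j => Nat.le_ceil _
  have hpk : ∀ x : ℝ, 0 ≤ x → (x ^ (1 / (k : ℝ))) ^ k = x := by
    intro x hx
    rw [← Real.rpow_natCast, ← Real.rpow_mul hx]
    rw [one_div, inv_mul_cancel₀ hk0.ne', Real.rpow_one]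
  have hMk : ∀ j : ℕ, (j : ℝ) * δ + η < ((M j : ℝ) + 1) ^ k := by
    intro j
    calc (j : ℝ) * δ + η = (((j : ℝ) * δ + η) ^ (1 / (k : ℝ))) ^ k := (hpk _ (by positivity)).symm
      _ < ((M j : ℝ) + 1) ^ k := by
        apply pow_lt_pow_left₀ _ (by positivity) (by omega)
        linarith [hMge j]
  set E : ℕ → ℝ := fun j => ∑ n ∈ tup d (M j), (prodLaw unif).real (EvW k ((j : ℝ) * δ) η n) with hEdef
  set B : ℕ → Set Ω := fun j => {ω | ε1 * (M j : ℝ) ^ (d - k) ≤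
    |Nev (tup d (M j)) (EvW k ((j : ℝ) * δ) η) (fun n => X n ω) - E j|} with hB
  set p : ℝ := ((k : ℝ) + 1) / k with hp
  have hp1 : 1 < p := by rw [hp, lt_div_iff₀ hk0]; linarith
  have hBj : ∀ j : ℕ, P.real (B (j + 1)) ≤ C * δ ^ (-p) * ((j + 1 : ℕ) : ℝ) ^ (-p) := by
    intro j
    have h1 := hT Ω P X hX hind (M (j + 1)) (((j + 1 : ℕ) : ℝ) * δ) (hMpos _)
    refine h1.trans ?_
    have h2 : ((((j + 1 : ℕ) : ℝ)) * δ) ^ p ≤ ((M (j + 1) : ℕ) : ℝ) ^ (k + 1) := by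
      have h3 : (((j + 1 : ℕ) : ℝ) * δ) ^ (1 / (k : ℝ)) ≤ M (j + 1) := by
        refine le_trans ?_ (hMge (j + 1))
        apply Real.rpow_le_rpow (by positivity) (by linarith) (by positivity)
      calc ((((j + 1 : ℕ) : ℝ)) * δ) ^ p = (((((j + 1 : ℕ) : ℝ)) * δ) ^ (1 / (k : ℝ))) ^ (k + 1) := by
            rw [← Real.rpow_natCast, ← Real.rpow_mul (by positivity)]
            congr 1
            rw [hp]; push_cast; field_simp
        _ ≤ _ := pow_le_pow_left₀ (by positivity) h3 _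
    have h4 : 0 < ((((j + 1 : ℕ) : ℝ)) * δ) ^ p := by positivity
    calc C / ((M (j + 1) : ℕ) : ℝ) ^ (k + 1) ≤ C / ((((j + 1 : ℕ) : ℝ)) * δ) ^ p := by gcongr
      _ = C * δ ^ (-p) * ((j + 1 : ℕ) : ℝ) ^ (-p) := by
        rw [Real.mul_rpow (by positivity) hδ.le, Real.rpow_neg hδ.le, Real.rpow_neg (by positivity)]
        field_simp
  have hsum : Summable (fun j : ℕ => C * δ ^ (-p) * ((j + 1 : ℕ) : ℝ) ^ (-p)) := by
    apply Summable.mul_left
    exact (summable_nat_add_iff 1).2 (Real.summable_nat_rpow.2 (by linarith))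
  have hne : ∑' j, P (B (j + 1)) ≠ ⊤ := by
    refine ne_top_of_le_ne_top hsum.tsum_ofReal_ne_top (ENNReal.tsum_le_tsum fun j => ?_)
    rw [show P (B (j + 1)) = ENNReal.ofReal (P.real (B (j + 1))) by rw [ofReal_measureReal]]
    exact ENNReal.ofReal_le_ofReal (hBj j)
  filter_upwards [ae_eventually_notMem hne] with ω hω hpos
  have hω2 : ∀ᶠ j : ℕ in atTop, ω ∉ B j := by
    obtain ⟨j0, hj0⟩ := eventually_atTop.1 hω
    refine eventually_atTop.2 ⟨j0 + 1, fun j hj => ?_⟩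
    have h1 := hj0 (j - 1) (by omega)
    rwa [show j - 1 + 1 = j by omega] at h1
  have hlarge : ∀ᶠ j : ℕ in atTop, max t₀ (max η 1) ≤ (j : ℝ) * δ :=
    (tendsto_natCast_atTop_atTop.atTop_mul_const hδ).eventually (eventually_ge_atTop _)
  filter_upwards [hω2, hlarge] with j h1 h2
  set t : ℝ := (j : ℝ) * δ with ht
  have ht0 : t₀ ≤ t := (le_max_left _ _).trans h2
  have htη : η ≤ t := (le_max_left _ _).trans ((le_max_right _ _).trans h2)
  have ht1 : 1 ≤ t := (le_max_right _ _).trans ((le_max_right _ _).trans h2)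
  have htpos : 0 < t := by linarith
  have h3 := hE t ht0 (M j) (hMk j)
  rw [cnt_eq hpos hk (hMk j)]
  have h4 : |Nev (tup d (M j)) (EvW k t η) (fun n => X n ω) - E j| < ε1 * (M j : ℝ) ^ (d - k) := by
    by_contra hcon
    exact h1 (not_lt.1 hcon)
  have h5 : (M j : ℝ) ≤ 3 * t ^ (1 / (k : ℝ)) := by
    have h6 : (M j : ℝ) < (t + η) ^ (1 / (k : ℝ)) + 1 := Nat.ceil_lt_add_one (by positivity)
    have h7 : (t + η) ^ (1 / (k : ℝ)) ≤ 2 * t ^ (1 / (k : ℝ)) := by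
      calc (t + η) ^ (1 / (k : ℝ)) ≤ (2 * t) ^ (1 / (k : ℝ)) :=
            Real.rpow_le_rpow (by positivity) (by linarith) (by positivity)
        _ = 2 ^ (1 / (k : ℝ)) * t ^ (1 / (k : ℝ)) := Real.mul_rpow (by norm_num) htpos.le
        _ ≤ 2 ^ (1 : ℝ) * t ^ (1 / (k : ℝ)) := by
            apply mul_le_mul_of_nonneg_right _ (by positivity)
            apply Real.rpow_le_rpow_of_exponent_le (by norm_num)
            rw [div_le_one hk0]; exact hk1
        _ = _ := by rw [Real.rpow_one]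
    have h8 : 1 ≤ t ^ (1 / (k : ℝ)) := Real.one_le_rpow ht1 (by positivity)
    linarith
  have h6 : (M j : ℝ) ^ (d - k) ≤ 3 ^ (d - k) * t ^ ((d : ℝ) / k - 1) := by
    calc (M j : ℝ) ^ (d - k) ≤ (3 * t ^ (1 / (k : ℝ))) ^ (d - k) := pow_le_pow_left₀ (by positivity) h5 _
      _ = 3 ^ (d - k) * t ^ ((d : ℝ) / k - 1) := by
        rw [mul_pow, ← Real.rpow_natCast (t ^ (1 / (k : ℝ))), ← Real.rpow_mul htpos.le]
        congr 2
        rw [Nat.cast_sub (by omega)]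
        field_simp
  have h7 : ε1 * (M j : ℝ) ^ (d - k) ≤ ε / 2 * t ^ ((d : ℝ) / k - 1) := by
    calc ε1 * (M j : ℝ) ^ (d - k) ≤ ε1 * (3 ^ (d - k) * t ^ ((d : ℝ) / k - 1)) := by gcongr
      _ = _ := by rw [hε1]; field_simp
  have h8 : 2 * η * GG k d * t ^ ((d : ℝ) / k - 1) =
      2 * η * Real.Gamma (1 + 1 / k) ^ d / Real.Gamma ((d : ℝ) / k) * t ^ ((d : ℝ) / k - 1) := by
    unfold GG; ring
  rw [h8]
  calc _ = |(Nev (tup d (M j)) (EvW k t η) (fun n => X n ω) - E j) +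
        (E j - 2 * η * Real.Gamma (1 + 1 / k) ^ d / Real.Gamma ((d : ℝ) / k) * t ^ ((d : ℝ) / k - 1))| := by
        congr 1; ring
    _ ≤ _ := abs_add_le _ _
    _ ≤ ε / 2 * t ^ ((d : ℝ) / k - 1) + ε / 2 * t ^ ((d : ℝ) / k - 1) := by
        apply add_le_add (h4.le.trans h7) h3
    _ = _ := by ring

/-- the asymptotic formula for `2(k+1)d`-wise independent perturbations -/
theorem asy_kind (hMOM : S_MOM) (hCD : S_CD) (hME : S_ME) (k d : ℕ) (hk : 1 ≤ k) (hd : k + 1 ≤ d)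
    (Ω : Type) [MeasurableSpace Ω] (P : Measure Ω)
    [IsProbabilityMeasure P] (X : ℕ → Ω → ℝ) (hX : ∀ n, Measurable (X n)) (hind : KInd (2 * (k + 1) * d) P X unif) :
    ∀ᵐ ω ∂P, ∀ η : ℝ, 0 < η → Tendsto (fun lam : ℝ => cnt (fun n => X n ω) k d lam η / lam ^ ((d : ℝ) / k - 1)) atTop
      (𝓝 (2 * η * GG k d)) := by
  have hk0 : (0 : ℝ) < k := by exact_mod_cast hk
  have hd1 : 1 ≤ 2 * (k + 1) * d := by
    have : 1 ≤ d := by omega
    nlinarith
  -- the values are nonnegative for `n ≥ 1`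
  have hu : ∀ᵐ ω ∂P, ∀ n, 1 ≤ n → 0 ≤ X n ω := by
    rw [ae_all_iff]
    intro n
    by_cases hn : 1 ≤ n
    · have hl : P.map (X n) = unif := by
        have h1 := hind {n} (by simpa using hn) (by simpa using hd1)
        have h2 : X n = (fun y : (({n} : Finset ℕ) : Type) → ℝ => y ⟨n, by simp⟩) ∘
            (fun ω (i : (({n} : Finset ℕ) : Type)) => X i ω) := by ext ω; rfl
        rw [h2, ← Measure.map_map (measurable_pi_apply _) (measurable_pi_iff.2 fun i => hX _), h1]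
        exact (measurePreserving_eval (fun _ : (({n} : Finset ℕ) : Type) => unif) ⟨n, by simp⟩).map_eq
      have h1 : ∀ᵐ x ∂unif, x ∈ Set.Icc (0 : ℝ) 1 := ae_restrict_mem measurableSet_Icc
      rw [← hl] at h1
      filter_upwards [ae_of_ae_map (hX n).aemeasurable h1] with ω h _ using h.1
    · exact Eventually.of_forall fun ω h => absurd h hn
  have hg : ∀ᵐ ω ∂P, ∀ η' ε δ : ℚ, 0 < η' → 0 < ε → 0 < δ → (∀ n, 1 ≤ n → 0 ≤ X n ω) → ∀ᶠ j : ℕ in atTop,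
      |cnt (fun n => X n ω) k d ((j : ℝ) * δ) η' - 2 * η' * GG k d * ((j : ℝ) * δ) ^ ((d : ℝ) / k - 1)| ≤
        ε * ((j : ℝ) * δ) ^ ((d : ℝ) / k - 1) := by
    rw [ae_all_iff]; intro η'
    rw [ae_all_iff]; intro ε
    rw [ae_all_iff]; intro δ
    by_cases h : 0 < η' ∧ 0 < ε ∧ 0 < δ
    · filter_upwards [grid_kind hMOM hCD hME k d hk hd η' ε δ (by exact_mod_cast h.1) (by exact_mod_cast h.2.1)
        (by exact_mod_cast h.2.2) Ω P X hX hind] with ω hω _ _ _ using hω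
    · exact Eventually.of_forall fun ω h1 h2 h3 => absurd ⟨h1, h2, h3⟩ h
  filter_upwards [hu, hg] with ω h1 h2 η hη
  have ha : 0 < (d : ℝ) / k - 1 := by
    rw [sub_pos, one_lt_div hk0]
    exact_mod_cast hd
  exact sandwich h1 hk ha (GG_pos hk hd) (fun η' ε δ h3 h4 h5 => h2 η' ε δ h3 h4 h5 h1) η hη

end Pool.Agent.U160.WP
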