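import Pool.Agent.U160.WP.Prob

set_option autoImplicit false

namespace Pool.Agent.U160.WP

open MeasureTheory ProbabilityTheory Finset Filter Topology
open Pool.Agent.U160.VP (KInd kind_of_iInd transfer)

/-- admissible families of events -/
structure Adm {d : ℕ} (A : (Fin d → ℕ) → Set (ℕ → ℝ)) : Prop where
  meas : ∀ n, MeasurableSet (A n)
  dep : ∀ n (x y : ℕ → ℝ), (∀ m ∈ suppW n, x m = y m) → (x ∈ A n ↔ y ∈ A n)

theorem indG_meas {d : ℕ} {A : (Fin d → ℕ) → Set (ℕ → ℝ)} (hA : Adm A) (n : Fin d → ℕ) :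
    Measurable (fun x : ℕ → ℝ => (A n).indicator (fun _ => (1 : ℝ)) x) :=
  measurable_const.indicator (hA.meas n)

theorem indG_le {d : ℕ} (A : (Fin d → ℕ) → Set (ℕ → ℝ)) (n : Fin d → ℕ) (x : ℕ → ℝ) :
    0 ≤ (A n).indicator (fun _ => (1 : ℝ)) x ∧ (A n).indicator (fun _ => (1 : ℝ)) x ≤ 1 := by
  classical
  rw [Set.indicator_apply]
  split_ifs <;> simp

theorem indG_dep {d : ℕ} {A : (Fin d → ℕ) → Set (ℕ → ℝ)} (hA : Adm A) (n : Fin d → ℕ) (x y : ℕ → ℝ)
    (h : ∀ m ∈ suppW n, x m = y m) :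
    (A n).indicator (fun _ => (1 : ℝ)) x = (A n).indicator (fun _ => (1 : ℝ)) y := by
  have h1 := hA.dep n x y h
  by_cases hx : x ∈ A n
  · rw [Set.indicator_of_mem hx, Set.indicator_of_mem (h1.1 hx)]
  · rw [Set.indicator_of_notMem hx, Set.indicator_of_notMem (fun hy => hx (h1.2 hy))]

/-- the moments of the number of solutions only depend on the joint laws of few coordinates -/
theorem transfer_powG {d : ℕ} {A : (Fin d → ℕ) → Set (ℕ → ℝ)} (hA : Adm A) {r : ℕ} {Ω Ω' : Type} [MeasurableSpace Ω] [MeasurableSpace Ω'] (P : Measure Ω) (P' : Measure Ω')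
    [IsProbabilityMeasure P] [IsProbabilityMeasure P']
    (X : ℕ → Ω → ℝ) (X' : ℕ → Ω' → ℝ) (ν : Measure ℝ) (hX : ∀ n, Measurable (X n)) (hX' : ∀ n, Measurable (X' n))
    (h : KInd r P X ν) (h' : KInd r P' X' ν) {M q : ℕ} (hr : q * d ≤ r) (hM : 1 ≤ M) (a : ℝ) :
    ∫ ω, (Nev (tup d M) (A) (fun n => X n ω) - a) ^ q ∂P =
      ∫ ω, (Nev (tup d M) (A) (fun n => X' n ω) - a) ^ q ∂P' := by
  classical
  set b : ℝ := a / (tup d M).card with hb
  have hc : ((tup d M).card : ℝ) ≠ 0 := by exact_mod_cast tup_card hM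
  have hN : ∀ θ : ℕ → ℝ, (Nev (tup d M) (A) θ - a) ^ q =
      ∑ σ ∈ Fintype.piFinset (fun _ : Fin q => tup d M),
        ∏ l, ((A (σ l)).indicator (fun _ => (1 : ℝ)) θ - b) := by
    intro θ
    have h1 : Nev (tup d M) (A) θ - a =
        ∑ n ∈ tup d M, ((A n).indicator (fun _ => (1 : ℝ)) θ - b) := by
      unfold Nev
      rw [sum_sub_distrib]
      congr 1
      rw [sum_const, nsmul_eq_mul, hb]
      field_simp
    rw [h1, Finset.sum_pow']
  simp_rw [hN]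
  have hmeas : ∀ σ : Fin q → Fin d → ℕ, Measurable (fun θ : ℕ → ℝ =>
      ∏ l, ((A (σ l)).indicator (fun _ => (1 : ℝ)) θ - b)) := fun σ =>
    Finset.measurable_prod _ fun l _ => (indG_meas hA (σ l)).sub_const b
  have hint : ∀ (Ω : Type) [MeasurableSpace Ω] (P : Measure Ω) [IsProbabilityMeasure P] (X : ℕ → Ω → ℝ),
      (∀ n, Measurable (X n)) → ∀ σ : Fin q → Fin d → ℕ,
      Integrable (fun ω => ∏ l, ((A (σ l)).indicator (fun _ => (1 : ℝ)) (fun n => X n ω) - b)) P := by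
    intro Ω _ P _ X hX σ
    apply Integrable.of_bound ((hmeas σ).comp (measurable_pi_iff.2 hX)).aestronglyMeasurable ((1 + |b|) ^ q)
    refine Filter.Eventually.of_forall fun ω => ?_
    simp only [Function.comp_apply]
    rw [norm_prod]
    calc ∏ l, ‖(A (σ l)).indicator (fun _ => (1 : ℝ)) (fun n => X n ω) - b‖
        ≤ ∏ _l : Fin q, (1 + |b|) := by
          refine prod_le_prod (fun _ _ => norm_nonneg _) fun l _ => ?_
          have h1 := indG_le A (σ l) (fun n => X n ω)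
          calc _ ≤ ‖(A (σ l)).indicator (fun _ => (1 : ℝ)) (fun n => X n ω)‖ + ‖b‖ := norm_sub_le _ _
            _ ≤ _ := by
              rw [Real.norm_eq_abs, Real.norm_eq_abs, abs_of_nonneg h1.1]
              linarith [h1.2]
      _ = _ := by simp
  rw [integral_finsetSum _ (fun σ _ => hint Ω P X hX σ), integral_finsetSum _ (fun σ _ => hint Ω' P' X' hX' σ)]
  refine sum_congr rfl fun σ hσ => ?_
  have hσ' : ∀ l, σ l ∈ tup d M := Fintype.mem_piFinset.1 hσ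
  refine transfer P P' X X' ν hX hX' h h' (univ.biUnion fun l : Fin q => suppW (σ l)) ?_ ?_ _ (hmeas σ) ?_
  · intro n hn
    obtain ⟨l, -, hl⟩ := mem_biUnion.1 hn
    exact suppW_pos (hσ' l) n hl
  · calc _ ≤ ∑ l : Fin q, (suppW (σ l)).card := card_biUnion_le
      _ ≤ ∑ _l : Fin q, d := sum_le_sum fun l _ => suppW_card _
      _ = q * d := by simp
      _ ≤ r := hr
  · intro x y hxy
    refine prod_congr rfl fun l _ => ?_
    rw [indG_dep hA (σ l) x y fun m hm => hxy m (mem_biUnion.2 ⟨l, mem_univ l, hm⟩)]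

theorem mean_NevG {d M : ℕ} {A : (Fin d → ℕ) → Set (ℕ → ℝ)} (hA : Adm A) : ∫ y, Nev (tup d M) (A) y ∂(prodLaw unif) =
    ∑ n ∈ tup d M, (prodLaw unif).real (A n) := by
  haveI : IsProbabilityMeasure (prodLaw unif) := by unfold prodLaw; infer_instance
  unfold Nev
  rw [integral_finsetSum]
  · refine sum_congr rfl fun n _ => ?_
    rw [integral_indicator_const _ (hA.meas n)]
    simp
  · intro n _
    exact (integrable_const _).indicator (hA.meas n)

/-- the moment inequality -/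
theorem moment_kindG (hMOM : S_MOM) (k d m : ℕ) (hd : k + 1 ≤ d) (C2 : ℝ) (hC2 : 0 < C2) :
    ∃ C : ℝ, 0 < C ∧ ∀ (A : (Fin d → ℕ) → Set (ℕ → ℝ)), Adm A →
      ∀ (Ω : Type) [MeasurableSpace Ω] (P : Measure Ω) [IsProbabilityMeasure P] (X : ℕ → Ω → ℝ),
      (∀ n, Measurable (X n)) → KInd (2 * m * d) P X unif → ∀ (M : ℕ), 1 ≤ M →
      (∑ n ∈ tup d M, (prodLaw unif).real (A n) ≤ C2 * (M : ℝ) ^ (d - k)) →
      (∀ T : Finset ℕ, T.card ≤ 2 * m * d → ∀ x : ℕ → ℝ,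
        ∑ n ∈ (tup d M).filter (fun n => ¬ Disjoint (suppW n) T), cond unif (A n) T x ≤
          C2 * (M : ℝ) ^ (d - k - 1)) →
      ∫ ω, (Nev (tup d M) A (fun n => X n ω) -
        ∑ n ∈ tup d M, (prodLaw unif).real (A n)) ^ (2 * m) ∂P ≤
      C * ((M : ℝ) ^ (d - k) * (M : ℝ) ^ (d - k - 1)) ^ m := by
  obtain ⟨C1, hC1, h1⟩ := hMOM m d
  have : IsProbabilityMeasure (prodLaw unif) := by unfold prodLaw; infer_instance
  refine ⟨C1 * (C2 * C2) ^ m, by positivity, ?_⟩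
  intro A hA Ω _ P _ X hX hind M hM b1 b2
  have hM1 : (1 : ℝ) ≤ M := by exact_mod_cast hM
  have hind' : iIndepFun (fun (n : ℕ) (ω : ℕ → ℝ) => ω n) (prodLaw unif) :=
    iIndepFun_infinitePi (X := fun _ x => x) (fun _ => measurable_id)
  have hlaw' : ∀ n, (prodLaw unif).map (fun ω : ℕ → ℝ => ω n) = unif := fun n =>
    Measure.infinitePi_map_eval (fun _ => unif) n
  have hX' : ∀ n : ℕ, Measurable (fun ω : ℕ → ℝ => ω n) := fun n => measurable_pi_apply n
  have hk' : KInd (2 * m * d) (prodLaw unif) (fun n ω => ω n) unif :=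
    kind_of_iInd (prodLaw unif) _ _ hX' hind' hlaw'
  rw [transfer_powG hA P (prodLaw unif) X (fun n ω => ω n) unif hX hX' hind hk' (le_refl (2 * m * d)) hM]
  rw [← mean_NevG hA]
  have h3 := h1 unif (Fin d → ℕ) (tup d M) suppW A (C2 * (M : ℝ) ^ (d - k)) (C2 * (M : ℝ) ^ (d - k - 1))
    (fun n _ => hA.meas n) (fun n _ => suppW_card n) (fun n _ x y h => hA.dep n x y h)
    (by positivity) (mul_le_mul_of_nonneg_left (pow_le_pow_right₀ hM1 (by omega)) hC2.le) b1 b2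
  refine h3.trans (le_of_eq ?_)
  rw [show C2 * (M : ℝ) ^ (d - k) * (C2 * (M : ℝ) ^ (d - k - 1)) =
    (C2 * C2) * ((M : ℝ) ^ (d - k) * (M : ℝ) ^ (d - k - 1)) by ring, mul_pow]
  ring

/-- Markov -/
theorem tail_kindG (hMOM : S_MOM) (k d m : ℕ) (hd : k + 1 ≤ d) (C2 : ℝ) (hC2 : 0 < C2)
    (ε : ℝ) (hε : 0 < ε) :
    ∃ C : ℝ, 0 < C ∧ ∀ (A : (Fin d → ℕ) → Set (ℕ → ℝ)), Adm A →
      ∀ (Ω : Type) [MeasurableSpace Ω] (P : Measure Ω) [IsProbabilityMeasure P] (X : ℕ → Ω → ℝ),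
      (∀ n, Measurable (X n)) → KInd (2 * m * d) P X unif → ∀ (M : ℕ), 1 ≤ M →
      (∑ n ∈ tup d M, (prodLaw unif).real (A n) ≤ C2 * (M : ℝ) ^ (d - k)) →
      (∀ T : Finset ℕ, T.card ≤ 2 * m * d → ∀ x : ℕ → ℝ,
        ∑ n ∈ (tup d M).filter (fun n => ¬ Disjoint (suppW n) T), cond unif (A n) T x ≤
          C2 * (M : ℝ) ^ (d - k - 1)) →
      P.real {ω | ε * (M : ℝ) ^ (d - k) ≤ |Nev (tup d M) A (fun n => X n ω) -
        ∑ n ∈ tup d M, (prodLaw unif).real (A n)|} ≤ C / (M : ℝ) ^ m := by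
  obtain ⟨C, hC, h⟩ := moment_kindG hMOM k d m hd C2 hC2
  refine ⟨C / ε ^ (2 * m), by positivity, ?_⟩
  intro A hA Ω _ P _ X hX hind M hM b1 b2
  have hM0 : (0 : ℝ) < M := by exact_mod_cast hM
  have h1 := h A hA Ω P X hX hind M hM b1 b2
  set E := ∑ n ∈ tup d M, (prodLaw unif).real (A n) with hE
  set Y : Ω → ℝ := fun ω => Nev (tup d M) A (fun n => X n ω) with hY
  have hYm : Measurable Y := by
    have : Y = fun ω => ∑ n ∈ tup d M, (A n).indicator (fun _ => (1 : ℝ)) (fun n => X n ω) := rfl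
    rw [this]
    exact Finset.measurable_sum _ fun n _ => (indG_meas hA n).comp (measurable_pi_iff.2 hX)
  have hYb : ∀ ω, |Y ω| ≤ (tup d M).card := by
    intro ω
    have h0 : 0 ≤ Y ω := sum_nonneg fun n _ => (indG_le A n _).1
    rw [abs_of_nonneg h0]
    calc Y ω ≤ ∑ _n ∈ tup d M, (1 : ℝ) := sum_le_sum fun n _ => (indG_le A n _).2
      _ = _ := by simp
  have hint : Integrable (fun ω => (Y ω - E) ^ (2 * m)) P := by
    apply Integrable.of_bound ((hYm.sub_const E).pow_const (2 * m)).aestronglyMeasurable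
      ((((tup d M).card : ℝ) + |E|) ^ (2 * m))
    refine Filter.Eventually.of_forall fun ω => ?_
    rw [norm_pow]
    apply pow_le_pow_left₀ (norm_nonneg _)
    calc _ ≤ ‖Y ω‖ + ‖E‖ := norm_sub_le _ _
      _ ≤ _ := by
        rw [Real.norm_eq_abs, Real.norm_eq_abs]; linarith [hYb ω]
  have hmark := mul_meas_ge_le_integral_of_nonneg (μ := P) (f := fun ω => (Y ω - E) ^ (2 * m))
    (Filter.Eventually.of_forall fun ω => (even_two_mul m).pow_nonneg _) hint ((ε * (M : ℝ) ^ (d - k)) ^ (2 * m))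
  have hsub : P.real {ω | ε * (M : ℝ) ^ (d - k) ≤ |Y ω - E|} ≤
      P.real {ω | (ε * (M : ℝ) ^ (d - k)) ^ (2 * m) ≤ (Y ω - E) ^ (2 * m)} := by
    refine measureReal_mono (fun ω hω => ?_) (measure_ne_top _ _)
    simp only [Set.mem_ofPred_eq] at hω ⊢
    rw [← (even_two_mul m).pow_abs (Y ω - E)]
    exact pow_le_pow_left₀ (by positivity) hω _
  refine hsub.trans ?_
  have h2 := hmark.trans h1
  have h3 : 0 < (ε * (M : ℝ) ^ (d - k)) ^ (2 * m) := by positivity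
  have h4 : C / ε ^ (2 * m) / (M : ℝ) ^ m = C * ((M : ℝ) ^ (d - k) * (M : ℝ) ^ (d - k - 1)) ^ m /
      (ε * (M : ℝ) ^ (d - k)) ^ (2 * m) := by
    have e1 : ((M : ℝ) ^ (d - k)) ^ (2 * m) = ((M : ℝ) ^ (d - k) * (M : ℝ) ^ (d - k - 1)) ^ m * (M : ℝ) ^ m := by
      rw [pow_mul, ← mul_pow]
      congr 1
      have : d - k = (d - k - 1) + 1 := by omega
      rw [sq]
      nth_rewrite 2 [this]
      rw [pow_succ]; ring
    rw [mul_pow ε, e1]
    field_simp
  rw [h4, le_div_iff₀ h3]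
  linarith

end Pool.Agent.U160.WP
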