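import Pool.Agent.U160.WP.Stm

set_option autoImplicit false

/-!
# Project WP, second part: sums of the integers `⌊(n + {P(n)})^k⌋`

Statements of the packages PG, D2, MEI.
-/

namespace Pool.Agent.U160.WP

open MeasureTheory ProbabilityTheory Finset

noncomputable section

/-- the box of the point `e` -/
def box {i : ℕ} (e : Fin i → ℕ) : Set (Fin i → ℝ) := {v | ∀ l, v l ∈ Set.Icc (e l : ℝ) (e l + 1)}

/-- package PG: (1) probabilities are volumes; (2) boxes over a finite set of points -/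
def S_PG : Prop :=
  (∀ (i : ℕ) (e : Fin i → ℕ), Function.Injective e → ∀ S : Set (Fin i → ℝ), MeasurableSet S →
    (prodLaw unif).real {y | (fun l => (e l : ℝ) + y (e l)) ∈ S} = volume.real (box e ∩ S)) ∧
  (∀ (i : ℕ) (G : Finset (Fin i → ℕ)) (S : Set (Fin i → ℝ)), MeasurableSet S →
    ∑ e ∈ G, volume.real (box e ∩ S) = volume.real ({v : Fin i → ℝ | ∃ e ∈ G, v ∈ box e} ∩ S))

/-- the event `∑ ⌊(n_i + θ(n_i))^k⌋ = N` -/
def EvI (k : ℕ) (N : ℕ) {d : ℕ} (n : Fin d → ℕ) : Set (ℕ → ℝ) :=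
  {θ | ∑ i, ⌊((n i : ℝ) + θ (n i)) ^ k⌋ = (N : ℤ)}

/-- package D2 (from `S_V1`, `S_V2`): the volume of `∑ ⌊v_l^k⌋ = N` -/
def S_D2 : Prop := ∀ k d : ℕ, 1 ≤ k → k + 1 ≤ d →
  Filter.Tendsto (fun N : ℕ => volume.real {v : Fin d → ℝ | (∀ l, 0 ≤ v l) ∧ ∑ l, ⌊v l ^ k⌋ = (N : ℤ)} /
    (N : ℝ) ^ ((d : ℝ) / k - 1)) Filter.atTop
    (nhds (Real.Gamma (1 + 1 / k) ^ d / Real.Gamma ((d : ℝ) / k)))

/-- package MEI (from `S_V1`, `S_V3`, `S_PV`, `S_PG`, `S_D2`): the mean number of representations -/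
def S_MEI : Prop := ∀ k d : ℕ, 1 ≤ k → k + 1 ≤ d → ∀ ε : ℝ, 0 < ε → ∃ N₀ : ℕ, ∀ N : ℕ, N₀ ≤ N →
  ∀ M : ℕ, (N : ℝ) + d < ((M : ℝ) + 1) ^ k →
    |∑ n ∈ tup d M, (prodLaw unif).real (EvI k N n) -
      Real.Gamma (1 + 1 / k) ^ d / Real.Gamma ((d : ℝ) / k) * (N : ℝ) ^ ((d : ℝ) / k - 1)| ≤
      ε * (N : ℝ) ^ ((d : ℝ) / k - 1)

end

end Pool.Agent.U160.WP
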