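import Mathlib

set_option autoImplicit false

namespace Pool.Agent.U160.WP

/-- package NS: `k` terms do not suffice -/
def S_NS : Prop := ∀ k s : ℕ, 2 ≤ k → s ≤ k → ∀ a : ℕ → ℕ, (∀ n, 1 ≤ n → n ^ k ≤ a n) → ∀ N₀ : ℕ,
  ∃ N : ℕ, N₀ ≤ N ∧ ¬ ∃ n : Fin s → ℕ, (∀ i, 1 ≤ n i) ∧ ∑ i, a (n i) = N

end Pool.Agent.U160.WP
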